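import Mathlib
import Pool.Agent.Helper70.BLB.Count
import Pool.Agent.Helper70.BLB.Model

/-!
Definitions for the Birkhoff-Lewis theorem with two special vertices: operations with pins, the
path representation on a general graph with a positive eigenvector, labelled grids.
-/

set_option autoImplicit false

namespace Pool.Agent.Helper55.BLD

open Pool.Agent.Helper70.BLB

/-- Elementary operations on a row of sites `0, 1, 2, ...`, with pins. -/
inductive OpP
  /-- identify the current vertices at sites `i` and `i + 1` -/
  | J (i : ℕ)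
  /-- put an edge between the current vertices at sites `i` and `i + 1` -/
  | H (i : ℕ)
  /-- replace the vertex at site `i` by a new vertex -/
  | D (i : ℕ)
  /-- replace the vertex at site `i` by a new vertex adjacent to the old one -/
  | V (i : ℕ)
  /-- pin the vertex at site `i` (`b = false`: to the state of the root, `b = true`: to the
  second state) -/
  | P (b : Bool) (i : ℕ)

/-- Operations allowed in the transfer: the only pin is the second pin at site `1`. -/
def OpP.ok (m : ℕ) : OpP → Prop
  | .J i => i + 1 ≤ m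
  | .H i => i + 1 ≤ m
  | .D i => 1 ≤ i ∧ i ≤ m
  | .V i => 1 ≤ i ∧ i ≤ m
  | .P b i => b = true ∧ i = 1

/-- The value of an operation in a ring with Temperley-Lieb generators and pins. -/
def OpP.val {R : Type*} [Ring R] (d dinv : R) (e : ℕ → R) (P : Bool → ℕ → R) : OpP → R
  | .J i => dinv * e (2 * i + 1)
  | .H i => 1 - dinv * e (2 * i + 1)
  | .D i => d * e (2 * i)
  | .V i => d * e (2 * i) - 1
  | .P b i => P b i

/-- The value of a list of operations. -/
def WP {R : Type*} [Ring R] (d dinv : R) (e : ℕ → R) (P : Bool → ℕ → R) (ops : List OpP) : R :=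
  (ops.map (OpP.val d dinv e P)).prod

theorem WP_append {R : Type*} [Ring R] (d dinv : R) (e : ℕ → R) (P : Bool → ℕ → R)
    (a b : List OpP) : WP d dinv e P (a ++ b) = WP d dinv e P a * WP d dinv e P b := by
  unfold WP
  rw [List.map_append, List.prod_append]

theorem WP_nil {R : Type*} [Ring R] (d dinv : R) (e : ℕ → R) (P : Bool → ℕ → R) :
    WP d dinv e P [] = 1 := by simp [WP]

theorem WP_cons {R : Type*} [Ring R] (d dinv : R) (e : ℕ → R) (P : Bool → ℕ → R) (o : OpP)
    (b : List OpP) : WP d dinv e P (o :: b) = o.val d dinv e P * WP d dinv e P b := by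
  simp [WP]

section Words

variable {V : Type} (G : SimpleGraph V)

open Classical in
/-- Vertical step at site `i` from label `a` to label `b`. -/
noncomputable def vopP (i : ℕ) (a b : Option V) : List OpP :=
  if a = b ∧ a ≠ none then [] else if ladj G a b then [OpP.V i] else [OpP.D i]

open Classical in
/-- Horizontal operation between sites `i` and `i + 1` with labels `a` and `b`. -/
noncomputable def hopP (i : ℕ) (a b : Option V) : List OpP :=
  if a = b ∧ a ≠ none then [OpP.J i] else if ladj G a b then [OpP.H i] else []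

/-- The pin inserted at a point. -/
def pinP (i : ℕ) : Option Bool → List OpP
  | some b => [OpP.P b i]
  | none => []

/-- Vertical operations from row `j` to row `j + 1` at the sites `1, ..., k`, with the pins of row
`j + 1`. -/
noncomputable def stepW (L : ℕ → ℕ → Option V) (S : ℕ → ℕ → Option Bool) (j : ℕ) : ℕ → List OpP
  | 0 => []
  | (k + 1) => stepW L S j k ++
      (vopP G (k + 1) (L (k + 1) j) (L (k + 1) (j + 1)) ++ pinP (k + 1) (S (k + 1) (j + 1)))

/-- Horizontal operations of row `j` between the sites `0, ..., k`. -/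
noncomputable def horW (L : ℕ → ℕ → Option V) (j : ℕ) : ℕ → List OpP
  | 0 => []
  | (k + 1) => horW L j k ++ hopP G k (L k j) (L (k + 1) j)

/-- The rows `1, ..., t` with sites `1, ..., k`. -/
noncomputable def bodyW (L : ℕ → ℕ → Option V) (S : ℕ → ℕ → Option Bool) (k : ℕ) : ℕ → List OpP
  | 0 => []
  | (t + 1) => bodyW L S k t ++ (stepW G L S t k ++ horW G L (t + 1) k)

end Words

/-- Temperley-Lieb relations with one additional boundary generator `b`. -/
structure BRel {R : Type*} [Ring R] (d dinv : R) (e : ℕ → R) (b : R) : Prop where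
  tl : TLRel d e
  dd : d * dinv = 1
  dc : ∀ x, d * x = x * d
  dic : ∀ x, dinv * x = x * dinv
  bb : b * b = b
  be : b * e 1 = 0
  eb : e 1 * b = 0
  ebe : e 2 * b * e 2 = dinv * e 2
  bc : ∀ j, 3 ≤ j → b * e j = e j * b

/-- The submonoid generated by `d`, `dinv`, `b`, `0` and `e 1, ..., e k`. -/
def TLB {R : Type*} [Ring R] (d dinv : R) (e : ℕ → R) (b : R) (k : ℕ) : Submonoid R :=
  Submonoid.closure ({d, dinv, b, 0} ∪ {x | ∃ i, 1 ≤ i ∧ i ≤ k ∧ x = e i})

/-- Relations of the pins. -/
structure PinRel {R : Type*} [Ring R] (d dinv : R) (e : ℕ → R) (P : Bool → ℕ → R) : Prop where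
  dc : ∀ x, d * x = x * d
  dic : ∀ x, dinv * x = x * dinv
  idem : ∀ b i, P b i * P b i = P b i
  comm : ∀ b i k, 1 ≤ k → k ≠ 2 * i → P b i * e k = e k * P b i
  commP : ∀ b i b' i', P b i * P b' i' = P b' i' * P b i
  move : ∀ b i, 1 ≤ i → P b i * e (2 * i + 1) = P b (i + 1) * e (2 * i + 1)
  move0 : P false 1 * e 1 = e 1

section Heights

variable {A : Type} [DecidableEq A]

/-- A locally finite graph with a positive eigenvector. -/
structure Eig (nb : A → Finset A) (S : A → ℝ) (δ : ℝ) : Prop where
  symm : ∀ a b, b ∈ nb a → a ∈ nb b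
  pos : ∀ a, 0 < S a
  eig : ∀ a, ∑ b ∈ nb a, S b = δ * S a

/-- Paths starting at `o`. -/
def IsP (nb : A → Finset A) (o : A) (h : ℕ → A) : Prop :=
  h 0 = o ∧ ∀ i, h (i + 1) ∈ nb (h i)

open Classical in
/-- The Temperley-Lieb generator acting on the height at position `k`. -/
noncomputable def gE (nb : A → Finset A) (S : A → ℝ) (o : A) (k : ℕ) :
    Module.End ℝ ((ℕ → A) → ℝ) where
  toFun φ := fun h => if IsP nb o h ∧ h (k - 1) = h (k + 1) then
      (∑ x ∈ nb (h (k - 1)), S x * φ (Function.update h k x)) / S (h (k - 1)) else 0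
  map_add' φ ψ := by
    funext h
    simp only [Pi.add_apply]
    split_ifs with hc
    · simp only [mul_add, Finset.sum_add_distrib, add_div]
    · simp
  map_smul' a φ := by
    funext h
    simp only [Pi.smul_apply, smul_eq_mul, RingHom.id_apply]
    split_ifs with hc
    · rw [← mul_div_assoc, Finset.mul_sum]
      congr 1
      apply Finset.sum_congr rfl
      intro x _
      ring
    · simp

/-- The pin of site `i` to the leaf `o` (`b = false`) or `l` (`b = true`). -/
noncomputable def gP (o l : A) (b : Bool) (i : ℕ) : Module.End ℝ ((ℕ → A) → ℝ) where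
  toFun φ := fun h => if h (2 * i) = (if b = true then l else o) then φ h else 0
  map_add' φ ψ := by
    funext h
    simp only [Pi.add_apply]
    split_ifs <;> simp
  map_smul' a φ := by
    funext h
    simp only [Pi.smul_apply, smul_eq_mul, RingHom.id_apply]
    split_ifs <;> simp

/-- The properties of the graph of heights: `o`, `l` are leaves at `c`, vertex heights (`vt`) have
at most two neighbours, `g` is a vertex height with neighbours `c` and `f`. -/
structure HGood (nb : A → Finset A) (S : A → ℝ) (δ : ℝ) (vt : A → Prop) (o l c g f : A) : Prop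
    extends Eig nb S δ where
  hδ : 2 ≤ δ
  no : nb o = {c}
  nl : nb l = {c}
  lo : l ≠ o
  vo : vt o
  vnb : ∀ a, vt a → ∀ b ∈ nb a, ¬ vt b
  fnb : ∀ a, ¬ vt a → ∀ b ∈ nb a, vt b
  card : ∀ a, vt a → (nb a).card ≤ 2
  ng : nb g = {c, f}
  cf : c ≠ f
  go : g ≠ o
  gl : g ≠ l

end Heights

section Colours

variable (C : Type) [Fintype C] [DecidableEq C]

/-- The pin of site `i` to the colour of site `0` (`b = false`) or its image under `τ`
(`b = true`). -/
noncomputable def cPn (τ : C → C) (b : Bool) (i : ℕ) : Module.End ℝ ((ℕ → C) → ℝ) where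
  toFun ψ := fun c => if c i = (if b = true then τ (c 0) else c 0) then ψ c else 0
  map_add' φ ψ := by
    funext h
    simp only [Pi.add_apply]
    split_ifs <;> simp
  map_smul' a φ := by
    funext h
    simp only [Pi.smul_apply, smul_eq_mul, RingHom.id_apply]
    split_ifs <;> simp

/-- Value of an operation in the colouring representation. -/
noncomputable def cvalP (τ : C → C) : OpP → Module.End ℝ ((ℕ → C) → ℝ)
  | .J i => cJ C i
  | .H i => 1 - cJ C i
  | .D i => cD C i
  | .V i => cD C i - 1
  | .P b i => cPn C τ b i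

/-- Value of a list of operations in the colouring representation. -/
noncomputable def cWP (τ : C → C) (ops : List OpP) : Module.End ℝ ((ℕ → C) → ℝ) :=
  (ops.map (cvalP C τ)).prod

end Colours

/-- The rectangle `[0, K] × [0, R]`. -/
def inR (K R : ℕ) (p : ℕ × ℕ) : Prop := p.1 ≤ K ∧ p.2 ≤ R

/-- A labelling of the points of the rectangle `[0, K] × [0, R]` by vertices of `G` such that all
classes are connected, the root `r` labels column `0`, row `0` has no further labels, and every edge
is realised.  Vertices without a point are isolated. -/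
structure LG {V : Type} (G : SimpleGraph V) (r : V) (K R : ℕ) (L : ℕ → ℕ → Option V) : Prop where
  col : ∀ j, j ≤ R → L 0 j = some r
  row : ∀ i, 1 ≤ i → i ≤ K → L i 0 = none
  conn : ∀ v, ∀ p q : ℕ × ℕ, inR K R p → inR K R q → L p.1 p.2 = some v → L q.1 q.2 = some v →
    Relation.ReflTransGen (fun a b => gadj a b ∧ inR K R a ∧ inR K R b ∧
      L a.1 a.2 = some v ∧ L b.1 b.2 = some v) p q
  edge : ∀ u v, G.Adj u v → ∃ p q : ℕ × ℕ, gadj p q ∧ inR K R p ∧ inR K R q ∧
    L p.1 p.2 = some u ∧ L q.1 q.2 = some v

/-- The second special vertex `t` is the root or has a point in column `1`. -/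
def Contact {V : Type} (r t : V) (K R : ℕ) (L : ℕ → ℕ → Option V) (j₀ : ℕ) : Prop :=
  1 ≤ K ∧ (t ≠ r → 1 ≤ j₀ ∧ j₀ ≤ R ∧ L 1 j₀ = some t)

open Classical in
/-- The pin of a label: `false` for the root, `true` for `t ≠ r`. -/
noncomputable def pnl {V : Type} (r t : V) : Option V → Option Bool
  | none => none
  | some v => if v = r then some false else if v = t then some true else none

open Classical in
/-- One pin only, at the contact point. -/
noncomputable def S0 {V : Type} (r t : V) (j₀ : ℕ) (i j : ℕ) : Option Bool :=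
  if t ≠ r ∧ i = 1 ∧ j = j₀ then some true else none

/-- Pins at all points labelled by a special vertex. -/
noncomputable def S1 {V : Type} (r t : V) (K R : ℕ) (L : ℕ → ℕ → Option V) (i j : ℕ) :
    Option Bool :=
  if 1 ≤ i ∧ i ≤ K ∧ 1 ≤ j ∧ j ≤ R then pnl r t (L i j) else none

/-- `cl` is a two-colouring of the graph minus the two special vertices. -/
def Cl2 {V : Type} (G : SimpleGraph V) (r t : V) (cl : V → Bool) : Prop :=
  ∀ u v, u ≠ r → u ≠ t → v ≠ r → v ≠ t → G.Adj u v → cl u ≠ cl v

end Pool.Agent.Helper55.BLD
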