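import Mathlib
import Pool.Agent.Helper55.BLD.Defs

/-!
Deleting and merging vertices in labelled grids.
-/

set_option autoImplicit false

namespace Pool.Agent.Helper55.BLD

open Pool.Agent.Helper70.BLB

/-- The graph `G` with all edges at `v` removed. -/
def isoV {V : Type} (G : SimpleGraph V) (v : V) : SimpleGraph V where
  Adj x y := G.Adj x y ∧ x ≠ v ∧ y ≠ v
  symm := ⟨fun _ _ h => ⟨h.1.symm, h.2.2, h.2.1⟩⟩
  loopless := ⟨fun x h => G.loopless.irrefl x h.1⟩

/-- The vertex `c` is merged into `a` (and becomes isolated). -/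
def mergeV {V : Type} (G : SimpleGraph V) (a c : V) : SimpleGraph V where
  Adj x y := x ≠ y ∧ x ≠ c ∧ y ≠ c ∧ (G.Adj x y ∨ (x = a ∧ G.Adj c y) ∨ (y = a ∧ G.Adj x c))
  symm := ⟨fun x y h => ⟨h.1.symm, h.2.2.1, h.2.1, by
    rcases h.2.2.2 with h1 | ⟨h1, h2⟩ | ⟨h1, h2⟩
    · exact Or.inl h1.symm
    · exact Or.inr (Or.inr ⟨h1, h2.symm⟩)
    · exact Or.inr (Or.inl ⟨h1, h2.symm⟩)⟩⟩
  loopless := ⟨fun _ h => h.1 rfl⟩

theorem gadj_symm' {p q : ℕ × ℕ} (h : gadj p q) : gadj q p := by
  unfold gadj at h ⊢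
  rcases h with ⟨h1, h2⟩ | ⟨h1, h2⟩
  · exact Or.inl ⟨h1.symm, h2.symm⟩
  · exact Or.inr ⟨h1.symm, h2.symm⟩

/-- The step relation inside a class. -/
def stp {V : Type} (K R : ℕ) (L : ℕ → ℕ → Option V) (v : V) (a b : ℕ × ℕ) : Prop :=
  gadj a b ∧ inR K R a ∧ inR K R b ∧ L a.1 a.2 = some v ∧ L b.1 b.2 = some v

theorem stp_symm {V : Type} {K R : ℕ} {L : ℕ → ℕ → Option V} {v : V} {a b : ℕ × ℕ}
    (h : stp K R L v a b) : stp K R L v b a :=
  ⟨gadj_symm' h.1, h.2.2.1, h.2.1, h.2.2.2.2, h.2.2.2.1⟩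

theorem stp_rt_symm {V : Type} {K R : ℕ} {L : ℕ → ℕ → Option V} {v : V} {p q : ℕ × ℕ}
    (h : Relation.ReflTransGen (stp K R L v) p q) : Relation.ReflTransGen (stp K R L v) q p := by
  induction h with
  | refl => exact Relation.ReflTransGen.refl
  | tail _ h ih => exact Relation.ReflTransGen.head (stp_symm h) ih

/-- Relabelling by a map. -/
def rlb {V : Type} (L : ℕ → ℕ → Option V) (f : V → V) (i j : ℕ) : Option V := (L i j).map f

theorem stp_rlb {V : Type} {K R : ℕ} {L : ℕ → ℕ → Option V} {f : V → V} {w u : V} (hw : f w = u)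
    {p q : ℕ × ℕ} (h : Relation.ReflTransGen (stp K R L w) p q) :
    Relation.ReflTransGen (stp K R (rlb L f) u) p q := by
  refine Relation.ReflTransGen.mono ?_ _ _ h
  rintro a b ⟨h1, h2, h3, h4, h5⟩
  refine ⟨h1, h2, h3, ?_, ?_⟩
  · unfold rlb
    rw [h4, Option.map_some, hw]
  · unfold rlb
    rw [h5, Option.map_some, hw]

/-- Two classes with the same new label which are in contact are connected. -/
theorem conn_two {V : Type} {G : SimpleGraph V} {r : V} {K R : ℕ} {L : ℕ → ℕ → Option V}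
    (M : LG G r K R L) {f : V → V} {w₁ w₂ u : V} (h₁ : f w₁ = u) (h₂ : f w₂ = u)
    {p₁ q₁ : ℕ × ℕ} (hg : gadj p₁ q₁) (hp₁ : inR K R p₁) (hq₁ : inR K R q₁)
    (lp₁ : L p₁.1 p₁.2 = some w₁) (lq₁ : L q₁.1 q₁.2 = some w₂) {p q : ℕ × ℕ}
    (hp : inR K R p) (hq : inR K R q) (lp : L p.1 p.2 = some w₁) (lq : L q.1 q.2 = some w₂) :
    Relation.ReflTransGen (stp K R (rlb L f) u) p q := by
  have e1 : Relation.ReflTransGen (stp K R (rlb L f) u) p p₁ :=
    stp_rlb h₁ (M.conn w₁ p p₁ hp hp₁ lp lp₁)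
  have e2 : Relation.ReflTransGen (stp K R (rlb L f) u) q₁ q :=
    stp_rlb h₂ (M.conn w₂ q₁ q hq₁ hq lq₁ lq)
  have e3 : stp K R (rlb L f) u p₁ q₁ := by
    refine ⟨hg, hp₁, hq₁, ?_, ?_⟩
    · unfold rlb
      rw [lp₁, Option.map_some, h₁]
    · unfold rlb
      rw [lq₁, Option.map_some, h₂]
  exact (e1.tail e3).trans e2

theorem rlb_some {V : Type} {L : ℕ → ℕ → Option V} {f : V → V} {i j : ℕ} {u : V}
    (h : rlb L f i j = some u) : ∃ w, L i j = some w ∧ f w = u := by
  unfold rlb at h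
  exact Option.map_eq_some_iff.mp h

/-- Deleting a vertex different from the two special vertices. -/
theorem LG.iso {V : Type} {G : SimpleGraph V} {r t : V} {K R : ℕ} {L : ℕ → ℕ → Option V}
    (M : LG G r K R L) {j₀ : ℕ} (hct : Contact r t K R L j₀) {v : V} (hvr : v ≠ r)
    (hvt : v ≠ t) : ∃ L' : ℕ → ℕ → Option V, LG (isoV G v) r K R L' ∧ Contact r t K R L' j₀ := by
  classical
  refine ⟨fun i j => if L i j = some v then none else L i j, ⟨?_, ?_, ?_, ?_⟩, hct.1, ?_⟩
  · intro j hj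
    have h := M.col j hj
    show (if L 0 j = some v then none else L 0 j) = some r
    rw [h, if_neg]
    intro h2
    exact hvr (Option.some.inj h2).symm
  · intro i h1 h2
    show (if L i 0 = some v then none else L i 0) = none
    rw [M.row i h1 h2]
    simp
  · intro w p q hp hq lp lq
    have key : ∀ x : ℕ × ℕ, (if L x.1 x.2 = some v then none else L x.1 x.2) = some w →
        L x.1 x.2 = some w ∧ w ≠ v := by
      intro x hx
      by_cases h : L x.1 x.2 = some v
      · rw [if_pos h] at hx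
        exact absurd hx (by simp)
      · rw [if_neg h] at hx
        refine ⟨hx, ?_⟩
        rintro rfl
        exact h hx
    obtain ⟨lp', hwv⟩ := key p lp
    obtain ⟨lq', -⟩ := key q lq
    have hb : ∀ x : ℕ × ℕ, L x.1 x.2 = some w →
        (if L x.1 x.2 = some v then none else L x.1 x.2) = some w := by
      intro x hx
      rw [hx, if_neg]
      intro h2
      exact hwv (Option.some.inj h2)
    refine Relation.ReflTransGen.mono ?_ _ _ (M.conn w p q hp hq lp' lq')
    rintro a b ⟨h1, h2, h3, h4, h5⟩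
    exact ⟨h1, h2, h3, hb a h4, hb b h5⟩
  · rintro x y ⟨hxy, hx, hy⟩
    obtain ⟨p, q, h1, h2, h3, h4, h5⟩ := M.edge x y hxy
    refine ⟨p, q, h1, h2, h3, ?_, ?_⟩
    · show (if L p.1 p.2 = some v then none else L p.1 p.2) = some x
      rw [h4, if_neg]
      intro h
      exact hx (Option.some.inj h)
    · show (if L q.1 q.2 = some v then none else L q.1 q.2) = some y
      rw [h5, if_neg]
      intro h
      exact hy (Option.some.inj h)
  · intro htr
    obtain ⟨h1, h2, h3⟩ := hct.2 htr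
    refine ⟨h1, h2, ?_⟩
    show (if L 1 j₀ = some v then none else L 1 j₀) = some t
    rw [h3, if_neg]
    intro h
    exact hvt (Option.some.inj h).symm

/-- Merging two neighbours `a`, `c` of `v` (and deleting `v`), when `c` and `v` are not special. -/
theorem LG.merge {V : Type} {G : SimpleGraph V} {r t : V} {K R : ℕ} {L : ℕ → ℕ → Option V}
    (M : LG G r K R L) {j₀ : ℕ} (hct : Contact r t K R L j₀) {v a c : V} (hvr : v ≠ r)
    (hvt : v ≠ t) (hcr : c ≠ r) (hctt : c ≠ t) (hac : a ≠ c) (hva : G.Adj v a)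
    (hvc : G.Adj v c) :
    ∃ L' : ℕ → ℕ → Option V, LG (mergeV (isoV G v) a c) r K R L' ∧ Contact r t K R L' j₀ := by
  classical
  obtain ⟨f, hf⟩ : ∃ f : V → V, f = fun w => if w = v ∨ w = c then a else w := ⟨_, rfl⟩
  have fv : f v = a := by rw [hf]; simp
  have fc : f c = a := by rw [hf]; simp
  have fo : ∀ w, w ≠ v → w ≠ c → f w = w := by
    intro w h1 h2
    rw [hf]
    simp [h1, h2]
  have hav : a ≠ v := hva.ne.symm
  have fa : f a = a := fo a hav hac
  have finv : ∀ w u, f w = u → (u = a ∧ (w = a ∨ w = v ∨ w = c)) ∨ (u = w ∧ w ≠ v ∧ w ≠ c) := by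
    intro w u h
    by_cases h1 : w = v
    · subst h1
      rw [fv] at h
      exact Or.inl ⟨h.symm, Or.inr (Or.inl rfl)⟩
    · by_cases h2 : w = c
      · subst h2
        rw [fc] at h
        exact Or.inl ⟨h.symm, Or.inr (Or.inr rfl)⟩
      · rw [fo w h1 h2] at h
        exact Or.inr ⟨h.symm, h1, h2⟩
  refine ⟨rlb L f, ⟨?_, ?_, ?_, ?_⟩, hct.1, ?_⟩
  · intro j hj
    unfold rlb
    rw [M.col j hj, Option.map_some, fo r (Ne.symm hvr) (Ne.symm hcr)]
  · intro i h1 h2
    unfold rlb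
    rw [M.row i h1 h2, Option.map_none]
  · intro u p q hp hq lp lq
    change Relation.ReflTransGen (stp K R (rlb L f) u) p q
    obtain ⟨w₁, l1, e1⟩ := rlb_some lp
    obtain ⟨w₂, l2, e2⟩ := rlb_some lq
    by_cases hu : u = a
    · subst hu
      -- a point of the class of `v`
      obtain ⟨pa, qa, g1, g2, g3, g4, g5⟩ := M.edge v u hva
      obtain ⟨pc, qc, k1, k2, k3, k4, k5⟩ := M.edge v c hvc
      have toV : ∀ (w : V) (x : ℕ × ℕ), f w = u → inR K R x → L x.1 x.2 = some w →
          Relation.ReflTransGen (stp K R (rlb L f) u) pa x := by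
        intro w x hw hx lx
        have hw' : w = u ∨ w = v ∨ w = c := by
          rcases finv w u hw with ⟨-, h⟩ | ⟨h, -, -⟩
          · exact h
          · exact Or.inl h.symm
        rcases hw' with rfl | rfl | rfl
        · exact conn_two M fv hw g1 g2 g3 g4 g5 g2 hx g4 lx
        · exact stp_rlb hw (M.conn w pa x g2 hx g4 lx)
        · exact conn_two M fv hw k1 k2 k3 k4 k5 g2 hx g4 lx
      exact (stp_rt_symm (toV w₁ p e1 hp l1)).trans (toV w₂ q e2 hq l2)
    · have h1 : w₁ = u := by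
        rcases finv w₁ u e1 with ⟨h, -⟩ | ⟨h, -, -⟩
        · exact absurd h hu
        · exact h.symm
      have h2 : w₂ = u := by
        rcases finv w₂ u e2 with ⟨h, -⟩ | ⟨h, -, -⟩
        · exact absurd h hu
        · exact h.symm
      subst h1
      subst h2
      exact stp_rlb e1 (M.conn _ p q hp hq l1 l2)
  · rintro x y ⟨hne, hx, hy, h⟩
    have tr : ∀ u w, G.Adj u w → ∃ p q : ℕ × ℕ, gadj p q ∧ inR K R p ∧ inR K R q ∧
        rlb L f p.1 p.2 = some (f u) ∧ rlb L f q.1 q.2 = some (f w) := by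
      intro u w huw
      obtain ⟨p, q, h1, h2, h3, h4, h5⟩ := M.edge u w huw
      refine ⟨p, q, h1, h2, h3, ?_, ?_⟩
      · unfold rlb
        rw [h4, Option.map_some]
      · unfold rlb
        rw [h5, Option.map_some]
    rcases h with ⟨h1, h2, h3⟩ | ⟨h0, h1, h2, h3⟩ | ⟨h0, h1, h2, h3⟩
    · have := tr x y h1
      rw [fo x h2 hx, fo y h3 hy] at this
      exact this
    · have := tr c y h1
      rw [fc, fo y h3 hy] at this
      rw [h0]
      exact this
    · have := tr x c h1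
      rw [fc, fo x h2 hx] at this
      rw [h0]
      exact this
  · intro htr
    obtain ⟨h1, h2, h3⟩ := hct.2 htr
    refine ⟨h1, h2, ?_⟩
    unfold rlb
    rw [h3, Option.map_some, fo t (Ne.symm hvt) (Ne.symm hctt)]

/-- Merging the two special vertices. -/
theorem LG.mergeST {V : Type} {G : SimpleGraph V} {r t : V} {K R : ℕ} {L : ℕ → ℕ → Option V}
    (M : LG G r K R L) {j₀ : ℕ} (hct : Contact r t K R L j₀) (hrt : r ≠ t) :
    ∃ L' : ℕ → ℕ → Option V, LG (mergeV G r t) r K R L' ∧ Contact r r K R L' j₀ := by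
  classical
  obtain ⟨f, hf⟩ : ∃ f : V → V, f = fun w => if w = t then r else w := ⟨_, rfl⟩
  have ft : f t = r := by rw [hf]; simp
  have fo : ∀ w, w ≠ t → f w = w := by
    intro w h1
    rw [hf]
    simp [h1]
  obtain ⟨hK, hc⟩ := hct
  obtain ⟨c1, c2, c3⟩ := hc (Ne.symm hrt)
  refine ⟨rlb L f, ⟨?_, ?_, ?_, ?_⟩, hK, ?_⟩
  · intro j hj
    unfold rlb
    rw [M.col j hj, Option.map_some, fo r hrt]
  · intro i h1 h2
    unfold rlb
    rw [M.row i h1 h2, Option.map_none]
  · intro u p q hp hq lp lq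
    change Relation.ReflTransGen (stp K R (rlb L f) u) p q
    obtain ⟨w₁, l1, e1⟩ := rlb_some lp
    obtain ⟨w₂, l2, e2⟩ := rlb_some lq
    by_cases hw : w₁ = w₂
    · subst hw
      exact stp_rlb e1 (M.conn _ p q hp hq l1 l2)
    · have hg : gadj (0, j₀) (1, j₀) := Or.inr ⟨rfl, Or.inl rfl⟩
      have r0 : inR K R (0, j₀) := ⟨Nat.zero_le _, c2⟩
      have r1 : inR K R (1, j₀) := ⟨hK, c2⟩
      have l0 : L (0, j₀).1 (0, j₀).2 = some r := M.col j₀ c2
      have l1' : L (1, j₀).1 (1, j₀).2 = some t := c3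
      by_cases h1 : w₁ = t
      · have h2 : w₂ = r := by
          subst h1
          have h3 : w₂ ≠ w₁ := fun h => hw h.symm
          rw [fo w₂ h3] at e2
          rw [ft] at e1
          rw [e2, ← e1]
        subst h1
        subst h2
        exact conn_two M e1 e2 (gadj_symm' hg) r1 r0 l1' l0 hp hq l1 l2
      · have h2 : w₂ = t := by
          by_contra h2
          rw [fo w₁ h1] at e1
          rw [fo w₂ h2] at e2
          exact hw (e1.trans e2.symm)
        have h3 : w₁ = r := by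
          subst h2
          rw [fo w₁ h1] at e1
          rw [ft] at e2
          rw [e1, ← e2]
        subst h3
        subst h2
        exact conn_two M e1 e2 hg r0 r1 l0 l1' hp hq l1 l2
  · rintro x y ⟨hne, hx, hy, h⟩
    have tr : ∀ u w, G.Adj u w → ∃ p q : ℕ × ℕ, gadj p q ∧ inR K R p ∧ inR K R q ∧
        rlb L f p.1 p.2 = some (f u) ∧ rlb L f q.1 q.2 = some (f w) := by
      intro u w huw
      obtain ⟨p, q, h1, h2, h3, h4, h5⟩ := M.edge u w huw
      refine ⟨p, q, h1, h2, h3, ?_, ?_⟩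
      · unfold rlb
        rw [h4, Option.map_some]
      · unfold rlb
        rw [h5, Option.map_some]
    rcases h with h1 | ⟨h0, h1⟩ | ⟨h0, h1⟩
    · have := tr x y h1
      rw [fo x hx, fo y hy] at this
      exact this
    · have := tr t y h1
      rw [ft, fo y hy] at this
      rw [h0]
      exact this
    · have := tr x t h1
      rw [ft, fo x hx] at this
      rw [h0]
      exact this
  · intro h
    exact absurd rfl h

end Pool.Agent.Helper55.BLD
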