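import Mathlib
import Pool.Agent.Helper55.BLD.LGOps
import Pool.Agent.Helper36.BL.Main

/-!
Counting identities for colourings.
-/

set_option autoImplicit false

namespace Pool.Agent.Helper55.BLD

open Pool.Agent.Helper36.BL (cols cnt mem_cols natCard_coloring exists_cp)

/-- Number of proper colourings with `N` colours. -/
noncomputable def nc {V : Type} (G : SimpleGraph V) (N : ℕ) : ℝ :=
  (Nat.card (G.Coloring (Fin N)) : ℝ)

variable {V : Type} [Fintype V]

lemma nc_eq (G : SimpleGraph V) (N : ℕ) : nc G N = ((cols G N).card : ℝ) := by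
  unfold nc
  rw [natCard_coloring]
  rfl

/-- Existence of the chromatic polynomial. -/
theorem exists_chrom (G : SimpleGraph V) :
    ∃ p : Polynomial ℝ, ∀ N : ℕ, p.eval (N : ℝ) = nc G N := by
  obtain ⟨p, hp⟩ := exists_cp _ V G rfl
  exact ⟨p, fun N => by rw [hp, nc_eq]; rfl⟩

open Classical in
lemma merge_count {H : SimpleGraph V} {a c : V} (hac : a ≠ c) (hn : ¬ H.Adj a c) (N : ℕ) :
    nc (mergeV H a c) N = (N : ℝ) * (((cols H N).filter (fun f => f a = f c)).card : ℝ) := by
  have h : (((cols H N).filter (fun f => f a = f c)) ×ˢ (Finset.univ : Finset (Fin N))).card =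
      (cols (mergeV H a c) N).card := by
    refine Finset.card_nbij' (fun z => Function.update z.1 c z.2)
      (fun g => (Function.update g c (g a), g c)) ?_ ?_ ?_ ?_
    · rintro ⟨f, x⟩ hf
      simp only [Finset.coe_product, Finset.coe_filter, Finset.coe_univ, Set.mem_prod,
        Set.mem_ofPred_eq, Set.mem_univ, and_true] at hf
      obtain ⟨hf, hfa⟩ := hf
      rw [mem_cols] at hf
      rw [Finset.mem_coe, mem_cols]
      rintro u w ⟨huw, huc, hwc, h1⟩
      simp only [Function.update_of_ne huc, Function.update_of_ne hwc]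
      rcases h1 with h1 | ⟨rfl, h1⟩ | ⟨rfl, h1⟩
      · exact hf u w h1
      · rw [hfa]; exact hf c w h1
      · rw [hfa]; exact hf u c h1
    · intro g hg
      rw [Finset.mem_coe, mem_cols] at hg
      simp only [Finset.coe_product, Finset.coe_filter, Finset.coe_univ, Set.mem_prod,
        Set.mem_ofPred_eq, Set.mem_univ, and_true]
      refine ⟨?_, by rw [Function.update_of_ne hac, Function.update_self]⟩
      rw [mem_cols]
      intro u w huw
      by_cases hu : u = c
      · subst hu
        have hwu : w ≠ u := huw.ne'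
        have haw : a ≠ w := by
          rintro rfl; exact hn huw.symm
        rw [Function.update_self, Function.update_of_ne hwu]
        exact hg a w ⟨haw, hac, hwu, Or.inr (Or.inl ⟨rfl, huw⟩)⟩
      · by_cases hw : w = c
        · subst hw
          have hau : u ≠ a := by
            rintro rfl; exact hn huw
          rw [Function.update_self, Function.update_of_ne hu]
          exact hg u a ⟨hau, hu, hac, Or.inr (Or.inr ⟨rfl, huw⟩)⟩
        · rw [Function.update_of_ne hu, Function.update_of_ne hw]
          exact hg u w ⟨huw.ne, hu, hw, Or.inl huw⟩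
    · rintro ⟨f, x⟩ hf
      simp only [Finset.coe_product, Finset.coe_filter, Finset.coe_univ, Set.mem_prod,
        Set.mem_ofPred_eq, Set.mem_univ, and_true] at hf
      simp only [Function.update_self, Function.update_of_ne hac, Function.update_idem,
        Prod.mk.injEq, and_true]
      rw [hf.2, Function.update_eq_self]
    · intro g _
      simp only [Function.update_idem, Function.update_eq_self]
  rw [nc_eq, ← h, Finset.card_product, Finset.card_univ, Fintype.card_fin]
  push_cast
  ring

lemma iso_adj {G : SimpleGraph V} {v x y : V} (hx : x ≠ v) (hy : y ≠ v) :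
    (isoV G v).Adj x y ↔ G.Adj x y := ⟨fun h => h.1, fun h => ⟨h, hx, hy⟩⟩

open Classical in
/-- The hub identity: `v` has the neighbours `a, b, c, d` (a closed walk of length four, not
necessarily distinct). -/
theorem nc_hub {G : SimpleGraph V} {v a b c d : V}
    (hN : ∀ w, G.Adj v w ↔ (w = a ∨ w = b ∨ w = c ∨ w = d))
    (hab : G.Adj a b) (hbc : G.Adj b c) (hcd : G.Adj c d) (hda : G.Adj d a) (N : ℕ) :
    (N : ℝ) ^ 2 * nc G N = (N : ℝ) * (N - 4) * nc (isoV G v) N +
      (if a = c then (N : ℝ) * nc (isoV G v) N else
        if G.Adj a c then 0 else nc (mergeV (isoV G v) a c) N) +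
      (if b = d then (N : ℝ) * nc (isoV G v) N else
        if G.Adj b d then 0 else nc (mergeV (isoV G v) b d) N) := by
  have hva : a ≠ v := ((hN a).2 (Or.inl rfl)).ne'
  have hvb : b ≠ v := ((hN b).2 (Or.inr (Or.inl rfl))).ne'
  have hvc : c ≠ v := ((hN c).2 (Or.inr (Or.inr (Or.inl rfl)))).ne'
  have hvd : d ≠ v := ((hN d).2 (Or.inr (Or.inr (Or.inr rfl)))).ne'
  -- double counting
  have h1 : ((cols G N) ×ˢ (Finset.univ : Finset (Fin N))).card =
      ((cols (isoV G v) N).sigma
        (fun f => (Finset.univ : Finset (Fin N)).filter (fun x => x ∉ ({f a, f b, f c, f d} :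
          Finset (Fin N))))).card := by
    refine Finset.card_nbij' (fun z => ⟨Function.update z.1 v z.2, z.1 v⟩)
      (fun z => (Function.update z.1 v z.2, z.1 v)) ?_ ?_ ?_ ?_
    · rintro ⟨g, y⟩ hg
      simp only [Finset.coe_product, Finset.coe_univ, Set.mem_prod, Finset.mem_coe, Set.mem_univ,
        and_true] at hg
      rw [mem_cols] at hg
      simp only [Finset.coe_sigma, Finset.coe_filter, Finset.mem_univ, true_and, Set.mem_sigma_iff,
        Finset.mem_coe, Set.mem_ofPred_eq]
      refine ⟨?_, ?_⟩
      · rw [mem_cols]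
        rintro u w ⟨huw, hu, hw⟩
        rw [Function.update_of_ne hu, Function.update_of_ne hw]
        exact hg u w huw
      · rw [Function.update_of_ne hva, Function.update_of_ne hvb, Function.update_of_ne hvc,
          Function.update_of_ne hvd]
        simp only [Finset.mem_insert, Finset.mem_singleton, not_or]
        exact ⟨hg v a ((hN a).2 (Or.inl rfl)), hg v b ((hN b).2 (Or.inr (Or.inl rfl))),
          hg v c ((hN c).2 (Or.inr (Or.inr (Or.inl rfl)))),
          hg v d ((hN d).2 (Or.inr (Or.inr (Or.inr rfl))))⟩
    · rintro ⟨f, x⟩ hf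
      simp only [Finset.coe_sigma, Finset.coe_filter, Finset.mem_univ, true_and, Set.mem_sigma_iff,
        Finset.mem_coe, Set.mem_ofPred_eq, Finset.mem_insert, Finset.mem_singleton, not_or] at hf
      obtain ⟨hf, h2, h3, h4, h5⟩ := hf
      rw [mem_cols] at hf
      simp only [Finset.coe_product, Finset.coe_univ, Set.mem_prod, Finset.mem_coe, Set.mem_univ,
        and_true]
      rw [mem_cols]
      have hnb : ∀ w, G.Adj v w → x ≠ f w := by
        intro w hw
        rcases (hN w).1 hw with rfl | rfl | rfl | rfl
        · exact h2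
        · exact h3
        · exact h4
        · exact h5
      intro u w huw
      by_cases hu : u = v
      · subst hu
        rw [Function.update_self, Function.update_of_ne huw.ne']
        exact hnb w huw
      · by_cases hw : w = v
        · subst hw
          rw [Function.update_self, Function.update_of_ne hu]
          exact (hnb u huw.symm).symm
        · rw [Function.update_of_ne hu, Function.update_of_ne hw]
          exact hf u w ⟨huw, hu, hw⟩
    · rintro ⟨g, y⟩ _
      simp only [Function.update_idem, Function.update_eq_self, Function.update_self]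
    · rintro ⟨f, x⟩ _
      simp only [Function.update_idem, Function.update_eq_self, Function.update_self]
  have h2 : ∀ f ∈ cols (isoV G v) N,
      ((((Finset.univ : Finset (Fin N)).filter (fun x => x ∉ ({f a, f b, f c, f d} :
          Finset (Fin N)))).card : ℕ) : ℝ) = (N : ℝ) - 4 + (if f a = f c then 1 else 0) +
        (if f b = f d then 1 else 0) := by
    intro f hf
    rw [mem_cols] at hf
    have n1 : f a ≠ f b := hf a b ⟨hab, hva, hvb⟩
    have n2 : f b ≠ f c := hf b c ⟨hbc, hvb, hvc⟩
    have n3 : f c ≠ f d := hf c d ⟨hcd, hvc, hvd⟩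
    have n4 : f d ≠ f a := hf d a ⟨hda, hvd, hva⟩
    have h3 : ((Finset.univ : Finset (Fin N)).filter (fun x => x ∉ ({f a, f b, f c, f d} :
        Finset (Fin N)))).card + ({f a, f b, f c, f d} : Finset (Fin N)).card = N := by
      have h4 := Finset.card_filter_add_card_filter_not (s := (Finset.univ : Finset (Fin N)))
        (fun x => x ∈ ({f a, f b, f c, f d} : Finset (Fin N)))
      rw [Finset.card_univ, Fintype.card_fin] at h4
      have h5 : (Finset.univ : Finset (Fin N)).filter (fun x => x ∈ ({f a, f b, f c, f d} :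
        Finset (Fin N))) = ({f a, f b, f c, f d} : Finset (Fin N)) := by
        ext x; simp
      rw [h5] at h4
      omega
    have h4 : ({f a, f b, f c, f d} : Finset (Fin N)).card + (if f a = f c then 1 else 0) +
        (if f b = f d then 1 else 0) = 4 := by
      by_cases c1 : f a = f c <;> by_cases c2 : f b = f d
      · rw [if_pos c1, if_pos c2]
        have : ({f a, f b, f c, f d} : Finset (Fin N)) = {f a, f b} := by
          rw [← c1, ← c2]; ext x; simp only [Finset.mem_insert, Finset.mem_singleton]; tauto
        rw [this, Finset.card_pair n1]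
      · rw [if_pos c1, if_neg c2]
        have : ({f a, f b, f c, f d} : Finset (Fin N)) = {f a, f b, f d} := by
          rw [← c1]; ext x; simp only [Finset.mem_insert, Finset.mem_singleton]; tauto
        rw [this, Finset.card_eq_three.2 ⟨f a, f b, f d, n1, n4.symm, c2, rfl⟩]
      · rw [if_neg c1, if_pos c2]
        have : ({f a, f b, f c, f d} : Finset (Fin N)) = {f a, f b, f c} := by
          rw [← c2]; ext x; simp only [Finset.mem_insert, Finset.mem_singleton]; tauto
        rw [this, Finset.card_eq_three.2 ⟨f a, f b, f c, n1, c1, n2, rfl⟩]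
      · rw [if_neg c1, if_neg c2]
        rw [Finset.card_insert_of_notMem, Finset.card_eq_three.2 ⟨f b, f c, f d, n2, c2, n3, rfl⟩]
        simp only [Finset.mem_insert, Finset.mem_singleton, not_or]
        exact ⟨n1, c1, n4.symm⟩
    have h3' : ((((Finset.univ : Finset (Fin N)).filter (fun x => x ∉ ({f a, f b, f c, f d} :
        Finset (Fin N)))).card : ℕ) : ℝ) + (({f a, f b, f c, f d} : Finset (Fin N)).card : ℝ) =
        N := by exact_mod_cast h3
    have h4' : (({f a, f b, f c, f d} : Finset (Fin N)).card : ℝ) + (if f a = f c then 1 else 0) +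
        (if f b = f d then 1 else 0) = 4 := by
      have := congrArg (fun n : ℕ => (n : ℝ)) h4
      push_cast at this
      exact this
    linarith
  have h3 : (N : ℝ) * nc G N = (N - 4) * nc (isoV G v) N +
      (((cols (isoV G v) N).filter (fun f => f a = f c)).card : ℝ) +
      (((cols (isoV G v) N).filter (fun f => f b = f d)).card : ℝ) := by
    have h4 : (((cols G N) ×ˢ (Finset.univ : Finset (Fin N))).card : ℝ) = N * nc G N := by
      rw [Finset.card_product, Finset.card_univ, Fintype.card_fin, nc_eq]
      push_cast; ring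
    rw [← h4, h1, Finset.card_sigma]
    push_cast
    rw [Finset.sum_congr rfl h2, Finset.sum_add_distrib, Finset.sum_add_distrib,
      Finset.sum_const, nsmul_eq_mul, nc_eq, Finset.card_filter, Finset.card_filter]
    push_cast
    ring
  have key : ∀ x y : V, x ≠ v → y ≠ v →
      (N : ℝ) * (((cols (isoV G v) N).filter (fun f => f x = f y)).card : ℝ) =
      (if x = y then (N : ℝ) * nc (isoV G v) N else
        if G.Adj x y then 0 else nc (mergeV (isoV G v) x y) N) := by
    intro x y hx hy
    by_cases hxy : x = y
    · subst hxy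
      rw [if_pos rfl, nc_eq, Finset.filter_true_of_mem (fun f _ => rfl)]
    · rw [if_neg hxy]
      by_cases hadj : G.Adj x y
      · rw [if_pos hadj, Finset.filter_false_of_mem]
        · simp
        · intro f hf
          rw [mem_cols] at hf
          exact hf x y ⟨hadj, hx, hy⟩
      · have hna : ¬ (isoV G v).Adj x y := fun h => hadj h.1
        rw [if_neg hadj, merge_count hxy hna]
  rw [← key a c hva hvc, ← key b d hvb hvd, pow_two, mul_assoc, h3]
  ring

open Classical in
/-- Addition-contraction for two non-adjacent vertices. -/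
theorem nc_add {G : SimpleGraph V} {s t : V} (hst : s ≠ t) (hn : ¬ G.Adj s t) (N : ℕ) :
    (N : ℝ) * nc G N = (N : ℝ) * nc (G ⊔ SimpleGraph.edge s t) N + nc (mergeV G s t) N := by
  rw [merge_count hst hn, nc_eq, nc_eq]
  have h1 : (cols (G ⊔ SimpleGraph.edge s t) N) = (cols G N).filter (fun f => ¬ f s = f t) := by
    ext f
    rw [Finset.mem_filter, mem_cols, mem_cols]
    constructor
    · intro h
      refine ⟨fun x y hxy => h x y (Or.inl hxy), h s t (Or.inr ?_)⟩
      rw [SimpleGraph.edge_adj]
      exact ⟨Or.inl ⟨rfl, rfl⟩, hst⟩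
    · rintro ⟨h1, h2⟩ x y hxy
      rcases hxy with hxy | hxy
      · exact h1 x y hxy
      · rw [SimpleGraph.edge_adj] at hxy
        rcases hxy.1 with ⟨rfl, rfl⟩ | ⟨rfl, rfl⟩
        · exact h2
        · exact fun h3 => h2 h3.symm
  have h2 := Finset.card_filter_add_card_filter_not (s := cols G N) (fun f => f s = f t)
  rw [h1]
  have h3 : ((cols G N).card : ℝ) = (((cols G N).filter (fun f => f s = f t)).card : ℝ) +
      (((cols G N).filter (fun f => ¬ f s = f t)).card : ℝ) := by
    exact_mod_cast h2.symm
  rw [h3]; ring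

/-- recolouring -/
noncomputable def recol (G : SimpleGraph V) {N : ℕ} (π : Equiv.Perm (Fin N)) :
    G.Coloring (Fin N) ≃ G.Coloring (Fin N) where
  toFun f := SimpleGraph.Coloring.mk (fun v => π (f v)) (fun h h' => f.valid h (π.injective h'))
  invFun f := SimpleGraph.Coloring.mk (fun v => π.symm (f v))
    (fun h h' => f.valid h (π.symm.injective h'))
  left_inv f := by
    ext v
    show ((π.symm (π (f v)) : Fin N) : ℕ) = _
    rw [π.symm_apply_apply]
  right_inv f := by
    ext v
    show ((π (π.symm (f v)) : Fin N) : ℕ) = _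
    rw [π.apply_symm_apply]

lemma recol_apply (G : SimpleGraph V) {N : ℕ} (π : Equiv.Perm (Fin N)) (f : G.Coloring (Fin N))
    (v : V) : recol G π f v = π (f v) := rfl

/-- Colourings by the colours of the special vertices. -/
theorem nc_fix_one {G : SimpleGraph V} (r : V) (n : ℕ) (ρ : Fin (n + 2)) :
    nc G (n + 2) = (n + 2 : ℝ) * (Nat.card {f : G.Coloring (Fin (n + 2)) // f r = ρ} : ℝ) := by
  classical
  have hfin : Finite (G.Coloring (Fin (n + 2))) :=
    Finite.of_injective (fun f : G.Coloring (Fin (n + 2)) => (f : V → Fin (n + 2)))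
      DFunLike.coe_injective
  have e : G.Coloring (Fin (n + 2)) ≃ Fin (n + 2) × {f : G.Coloring (Fin (n + 2)) // f r = ρ} := {
    toFun := fun f => (f r, ⟨recol G (Equiv.swap (f r) ρ) f, by
      rw [recol_apply, Equiv.swap_apply_left]⟩)
    invFun := fun z => recol G (Equiv.swap z.1 ρ) z.2.1
    left_inv := by
      intro f
      ext v
      simp only [recol_apply, Equiv.swap_apply_self]
    right_inv := by
      rintro ⟨x, f, hf⟩
      have h1 : recol G (Equiv.swap x ρ) f r = x := by
        rw [recol_apply, hf, Equiv.swap_apply_right]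
      rw [Prod.mk.injEq]
      refine ⟨h1, Subtype.ext ?_⟩
      ext v
      simp only [h1]
      simp only [recol_apply, Equiv.swap_apply_self] }
  unfold nc
  rw [Nat.card_congr e, Nat.card_prod, Nat.card_eq_fintype_card (α := Fin (n + 2)),
    Fintype.card_fin]
  push_cast
  ring

theorem nc_fix_two {G : SimpleGraph V} {r t : V} (hrt : G.Adj r t) (n : ℕ)
    (ρ σ : Fin (n + 2)) (hρσ : ρ ≠ σ) :
    nc G (n + 2) = (n + 2 : ℝ) * (n + 1) *
      (Nat.card {f : G.Coloring (Fin (n + 2)) // f r = ρ ∧ f t = σ} : ℝ) := by
  classical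
  have hfin : Finite (G.Coloring (Fin (n + 2))) :=
    Finite.of_injective (fun f : G.Coloring (Fin (n + 2)) => (f : V → Fin (n + 2)))
      DFunLike.coe_injective
  -- first fix the colour of `r`
  rw [nc_fix_one (G := G) r n ρ]
  have e : {f : G.Coloring (Fin (n + 2)) // f r = ρ} ≃
      {x : Fin (n + 2) // x ≠ ρ} × {f : G.Coloring (Fin (n + 2)) // f r = ρ ∧ f t = σ} := {
    toFun := fun f => (⟨f.1 t, fun h => f.1.valid hrt (f.2.trans h.symm)⟩,
      ⟨recol G (Equiv.swap (f.1 t) σ) f.1, by
        have h1 : f.1 t ≠ ρ := fun h => f.1.valid hrt (f.2.trans h.symm)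
        rw [recol_apply, recol_apply, Equiv.swap_apply_left, f.2,
          Equiv.swap_apply_of_ne_of_ne h1.symm hρσ]
        exact ⟨rfl, rfl⟩⟩)
    invFun := fun z => ⟨recol G (Equiv.swap z.1.1 σ) z.2.1, by
      rw [recol_apply, z.2.2.1, Equiv.swap_apply_of_ne_of_ne z.1.2.symm hρσ]⟩
    left_inv := by
      rintro ⟨f, hf⟩
      apply Subtype.ext
      ext v
      simp only [recol_apply, Equiv.swap_apply_self]
    right_inv := by
      rintro ⟨⟨x, hx⟩, f, hf⟩
      have h1 : recol G (Equiv.swap x σ) f t = x := by
        rw [recol_apply, hf.2, Equiv.swap_apply_right]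
      rw [Prod.mk.injEq]
      refine ⟨Subtype.ext h1, Subtype.ext ?_⟩
      ext v
      simp only [h1]
      simp only [recol_apply, Equiv.swap_apply_self] }
  have hc : Nat.card {x : Fin (n + 2) // x ≠ ρ} = n + 1 := by
    rw [Nat.card_eq_fintype_card, Fintype.card_subtype_compl, Fintype.card_fin,
      Fintype.card_subtype_eq]
    omega
  rw [Nat.card_congr e, Nat.card_prod, hc]
  push_cast
  ring

end Pool.Agent.Helper55.BLD
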