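import Mathlib
import Pool.Agent.Helper55.BLD.Defs

/-!
The path representation on a graph with a positive eigenvector.
-/

set_option autoImplicit false

namespace Pool.Agent.Helper55.BLD

open Pool.Agent.Helper70.BLB

variable {A : Type} [DecidableEq A]

section General

variable {nb : A → Finset A} {S : A → ℝ} {δ : ℝ} {o : A}

theorem IsP.update (H : Eig nb S δ) {h : ℕ → A} (hp : IsP nb o h) {k : ℕ} {x : A} (hk : 1 ≤ k)
    (he : h (k - 1) = h (k + 1)) (hx : x ∈ nb (h (k - 1))) :
    IsP nb o (Function.update h k x) := by
  refine ⟨?_, ?_⟩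
  · have h0 : (0 : ℕ) ≠ k := by omega
    rw [Function.update_of_ne h0]
    exact hp.1
  · intro i
    by_cases h1 : i = k
    · subst h1
      have h2 : i + 1 ≠ i := by omega
      rw [Function.update_self, Function.update_of_ne h2, ← he]
      exact H.symm _ _ hx
    · by_cases h2 : i + 1 = k
      · subst h2
        rw [Function.update_self, Function.update_of_ne h1]
        have h3 : i + 1 - 1 = i := by omega
        rw [h3] at hx
        exact hx
      · rw [Function.update_of_ne h1, Function.update_of_ne h2]
        exact hp.2 i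

open Classical in
theorem gE_pos (nb : A → Finset A) (S : A → ℝ) (o : A) (k : ℕ) (φ : (ℕ → A) → ℝ) {h : ℕ → A}
    (hp : IsP nb o h) (he : h (k - 1) = h (k + 1)) :
    gE nb S o k φ h =
      (∑ x ∈ nb (h (k - 1)), S x * φ (Function.update h k x)) / S (h (k - 1)) := by
  have : gE nb S o k φ h = if IsP nb o h ∧ h (k - 1) = h (k + 1) then
      (∑ x ∈ nb (h (k - 1)), S x * φ (Function.update h k x)) / S (h (k - 1)) else 0 := rfl
  rw [this, if_pos ⟨hp, he⟩]

open Classical in
theorem gE_neg (nb : A → Finset A) (S : A → ℝ) (o : A) (k : ℕ) (φ : (ℕ → A) → ℝ) {h : ℕ → A}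
    (hn : ¬ (IsP nb o h ∧ h (k - 1) = h (k + 1))) : gE nb S o k φ h = 0 := by
  have : gE nb S o k φ h = if IsP nb o h ∧ h (k - 1) = h (k + 1) then
      (∑ x ∈ nb (h (k - 1)), S x * φ (Function.update h k x)) / S (h (k - 1)) else 0 := rfl
  rw [this, if_neg hn]

/-- Evaluation after an update at the same place gives the same value. -/
theorem gE_update_same (H : Eig nb S δ) {k : ℕ} (hk : 1 ≤ k) (φ : (ℕ → A) → ℝ) {h : ℕ → A}
    (hp : IsP nb o h) (he : h (k - 1) = h (k + 1)) {x : A} (hx : x ∈ nb (h (k - 1))) :
    gE nb S o k φ (Function.update h k x) = gE nb S o k φ h := by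
  have h1 : k - 1 ≠ k := by omega
  have h2 : k + 1 ≠ k := by omega
  rw [gE_pos nb S o k φ hp he, gE_pos nb S o k φ (hp.update H hk he hx)]
  · rw [Function.update_of_ne h1]
    simp only [Function.update_idem]
  · rw [Function.update_of_ne h1, Function.update_of_ne h2, he]

theorem gE_sq (H : Eig nb S δ) {k : ℕ} (hk : 1 ≤ k) :
    gE nb S o k * gE nb S o k = (δ • 1) * gE nb S o k := by
  ext φ h
  simp only [Module.End.mul_apply, LinearMap.smul_apply, Module.End.one_apply, Pi.smul_apply,
    smul_eq_mul]
  by_cases hc : IsP nb o h ∧ h (k - 1) = h (k + 1)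
  · obtain ⟨hp, he⟩ := hc
    have hSa := H.pos (h (k - 1))
    have hrec := H.eig (h (k - 1))
    rw [gE_pos nb S o k (gE nb S o k φ) hp he]
    have h1 : ∑ x ∈ nb (h (k - 1)), S x * gE nb S o k φ (Function.update h k x) =
        ∑ x ∈ nb (h (k - 1)), S x * gE nb S o k φ h :=
      Finset.sum_congr rfl (fun x hx => by rw [gE_update_same H hk φ hp he hx])
    rw [h1, ← Finset.sum_mul, hrec]
    field_simp
  · rw [gE_neg nb S o k _ hc, gE_neg nb S o k _ hc, mul_zero]

theorem gE_up (H : Eig nb S δ) {k : ℕ} (hk : 1 ≤ k) :
    gE nb S o k * gE nb S o (k + 1) * gE nb S o k = gE nb S o k := by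
  ext φ h
  simp only [Module.End.mul_apply]
  by_cases hc : IsP nb o h ∧ h (k - 1) = h (k + 1)
  swap
  · rw [gE_neg nb S o k _ hc, gE_neg nb S o k _ hc]
  obtain ⟨hp, he⟩ := hc
  have hk1 : k - 1 ≠ k := by omega
  have hk2 : k + 1 ≠ k := by omega
  have hk3 : k + 1 + 1 ≠ k := by omega
  have hk4 : k - 1 ≠ k + 1 := by omega
  have hk5 : k + 1 - 1 = k := by omega
  have hSa := H.pos (h (k - 1))
  -- value of the middle term at the allowed height
  have key : ∀ x ∈ nb (h (k - 1)),
      gE nb S o (k + 1) (gE nb S o k φ) (Function.update h k x) =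
        if x = h (k + 1 + 1) then S (h (k - 1)) / S x * gE nb S o k φ h else 0 := by
    intro x hx
    have hpx := hp.update H hk he hx
    split_ifs with hxc
    · have hSx := H.pos x
      rw [gE_pos nb S o (k + 1) _ hpx (by
        rw [hk5, Function.update_self, Function.update_of_ne hk3]; exact hxc)]
      rw [hk5, Function.update_self]
      -- the updated configurations
      have hval : ∀ y ∈ nb x,
          S y * gE nb S o k φ (Function.update (Function.update h k x) (k + 1) y) =
            if y = h (k - 1) then S (h (k - 1)) * gE nb S o k φ h else 0 := by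
        intro y hy
        split_ifs with hya
        · subst hya
          have h3 : Function.update (Function.update h k x) (k + 1) (h (k - 1)) =
              Function.update h k x := by
            rw [Function.update_eq_self_iff, Function.update_of_ne hk2]
            exact he
          rw [h3, gE_update_same H hk φ hp he hx]
        · rw [gE_neg, mul_zero]
          rintro ⟨_, h5⟩
          rw [Function.update_of_ne hk4, Function.update_of_ne hk1, Function.update_self] at h5
          exact hya h5.symm
      rw [Finset.sum_congr rfl hval, Finset.sum_ite_eq', if_pos (H.symm _ _ hx)]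
      ring
    · apply gE_neg
      rintro ⟨_, h5⟩
      rw [hk5, Function.update_self, Function.update_of_ne hk3] at h5
      exact hxc h5
  rw [gE_pos nb S o k (gE nb S o (k + 1) (gE nb S o k φ)) hp he]
  have hmem : h (k + 1 + 1) ∈ nb (h (k - 1)) := by
    rw [he]
    exact hp.2 (k + 1)
  have hSc := H.pos (h (k + 1 + 1))
  have key2 : ∀ x ∈ nb (h (k - 1)),
      S x * gE nb S o (k + 1) (gE nb S o k φ) (Function.update h k x) =
        if x = h (k + 1 + 1) then S (h (k - 1)) * gE nb S o k φ h else 0 := by
    intro x hx
    rw [key x hx]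
    split_ifs with hxc
    · have hSx := H.pos x
      field_simp
    · rw [mul_zero]
  rw [Finset.sum_congr rfl key2, Finset.sum_ite_eq', if_pos hmem]
  field_simp

theorem gE_down (H : Eig nb S δ) {k : ℕ} (hk : 1 ≤ k) :
    gE nb S o (k + 1) * gE nb S o k * gE nb S o (k + 1) = gE nb S o (k + 1) := by
  ext φ h
  simp only [Module.End.mul_apply]
  by_cases hc : IsP nb o h ∧ h (k + 1 - 1) = h (k + 1 + 1)
  swap
  · rw [gE_neg nb S o (k + 1) _ hc, gE_neg nb S o (k + 1) _ hc]
  obtain ⟨hp, he⟩ := hc
  have hk1 : k - 1 ≠ k := by omega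
  have hk2 : k + 1 ≠ k := by omega
  have hk3 : k + 1 + 1 ≠ k := by omega
  have hk4 : k - 1 ≠ k + 1 := by omega
  have hk5 : k + 1 - 1 = k := by omega
  have hk6 : k ≠ k + 1 := by omega
  have hk7 : k + 1 + 1 ≠ k + 1 := by omega
  have hK : 1 ≤ k + 1 := by omega
  have hSa := H.pos (h k)
  have hadj : h k ∈ nb (h (k - 1)) := by
    have := hp.2 (k - 1)
    rwa [show k - 1 + 1 = k by omega] at this
  have key : ∀ x ∈ nb (h k),
      gE nb S o k (gE nb S o (k + 1) φ) (Function.update h (k + 1) x) =
        if x = h (k - 1) then S (h k) / S x * gE nb S o (k + 1) φ h else 0 := by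
    intro x hx
    have hx' : x ∈ nb (h (k + 1 - 1)) := by rwa [hk5]
    have hpx := hp.update H hK he hx'
    split_ifs with hxc
    · have hSx := H.pos x
      rw [gE_pos nb S o k _ hpx (by
        rw [Function.update_of_ne hk4, Function.update_self]; exact hxc.symm)]
      rw [Function.update_of_ne hk4, ← hxc]
      have hval : ∀ y ∈ nb x,
          S y * gE nb S o (k + 1) φ (Function.update (Function.update h (k + 1) x) k y) =
            if y = h k then S (h k) * gE nb S o (k + 1) φ h else 0 := by
        intro y hy
        split_ifs with hya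
        · subst hya
          have h3 : Function.update (Function.update h (k + 1) x) k (h k) =
              Function.update h (k + 1) x := by
            rw [Function.update_eq_self_iff, Function.update_of_ne hk6]
          rw [h3, gE_update_same H hK φ hp he hx']
        · rw [gE_neg, mul_zero]
          rintro ⟨_, h5⟩
          rw [hk5, Function.update_self, Function.update_of_ne hk3,
            Function.update_of_ne hk7] at h5
          rw [hk5] at he
          exact hya (h5.trans he.symm)
      rw [Finset.sum_congr rfl hval, Finset.sum_ite_eq', if_pos (H.symm _ _ hx)]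
      ring
    · apply gE_neg
      rintro ⟨_, h5⟩
      rw [Function.update_of_ne hk4, Function.update_self] at h5
      exact hxc h5.symm
  rw [gE_pos nb S o (k + 1) (gE nb S o k (gE nb S o (k + 1) φ)) hp he]
  rw [hk5]
  have hSc := H.pos (h (k - 1))
  have key2 : ∀ x ∈ nb (h k),
      S x * gE nb S o k (gE nb S o (k + 1) φ) (Function.update h (k + 1) x) =
        if x = h (k - 1) then S (h k) * gE nb S o (k + 1) φ h else 0 := by
    intro x hx
    rw [key x hx]
    split_ifs with hxc
    · have hSx := H.pos x
      field_simp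
    · rw [mul_zero]
  rw [Finset.sum_congr rfl key2, Finset.sum_ite_eq', if_pos (H.symm _ _ hadj)]
  field_simp

/-- Evaluation of a generator after an update at a distant allowed place. -/
theorem gE_update_far (H : Eig nb S δ) {i j : ℕ} (hi : 1 ≤ i) (hj : 1 ≤ j)
    (hij : i + 2 ≤ j ∨ j + 2 ≤ i) (φ : (ℕ → A) → ℝ) {h : ℕ → A}
    (hp : IsP nb o h) (he : h (i - 1) = h (i + 1)) {x : A} (hx : x ∈ nb (h (i - 1))) :
    gE nb S o j φ (Function.update h i x) = if h (j - 1) = h (j + 1) then
      (∑ y ∈ nb (h (j - 1)), S y * φ (Function.update (Function.update h j y) i x)) /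
        S (h (j - 1)) else 0 := by
  have h1 : j - 1 ≠ i := by omega
  have h2 : j + 1 ≠ i := by omega
  have h3 : j ≠ i := by omega
  split_ifs with hc
  · rw [gE_pos nb S o j φ (hp.update H hi he hx)]
    · rw [Function.update_of_ne h1]
      congr 1
      apply Finset.sum_congr rfl
      intro y _
      rw [Function.update_comm h3]
    · rw [Function.update_of_ne h1, Function.update_of_ne h2, hc]
  · apply gE_neg
    rintro ⟨_, h5⟩
    rw [Function.update_of_ne h1, Function.update_of_ne h2] at h5
    exact hc h5

theorem gE_comm (H : Eig nb S δ) {i j : ℕ} (hi : 1 ≤ i) (hij : i + 2 ≤ j) :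
    gE nb S o i * gE nb S o j = gE nb S o j * gE nb S o i := by
  have hj : 1 ≤ j := by omega
  have h3 : j ≠ i := by omega
  ext φ h
  simp only [Module.End.mul_apply]
  by_cases hp : IsP nb o h
  swap
  · rw [gE_neg nb S o i _ (fun hh => hp hh.1), gE_neg nb S o j _ (fun hh => hp hh.1)]
  by_cases hci : h (i - 1) = h (i + 1)
  · have Ai : ∀ x ∈ nb (h (i - 1)), S x * gE nb S o j φ (Function.update h i x) =
        S x * (if h (j - 1) = h (j + 1) then
      (∑ y ∈ nb (h (j - 1)), S y * φ (Function.update (Function.update h j y) i x)) /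
        S (h (j - 1)) else 0) := by
      intro x hx
      rw [gE_update_far H hi hj (Or.inl hij) φ hp hci hx]
    rw [gE_pos nb S o i _ hp hci, Finset.sum_congr rfl Ai]
    by_cases hcj : h (j - 1) = h (j + 1)
    · have Bj : ∀ y ∈ nb (h (j - 1)), S y * gE nb S o i φ (Function.update h j y) =
          S y * (if h (i - 1) = h (i + 1) then
        (∑ x ∈ nb (h (i - 1)), S x * φ (Function.update (Function.update h i x) j y)) /
          S (h (i - 1)) else 0) := by
        intro y hy
        rw [gE_update_far H hj hi (Or.inr hij) φ hp hcj hy]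
      rw [gE_pos nb S o j _ hp hcj, Finset.sum_congr rfl Bj]
      simp only [if_pos hci, if_pos hcj]
      simp only [Finset.sum_div, Finset.mul_sum]
      rw [Finset.sum_comm]
      apply Finset.sum_congr rfl
      intro y _
      apply Finset.sum_congr rfl
      intro x _
      rw [Function.update_comm h3]
      ring
    · rw [gE_neg nb S o j _ (fun hh => hcj hh.2)]
      simp only [if_neg hcj, mul_zero, Finset.sum_const_zero, zero_div]
  · rw [gE_neg nb S o i _ (fun hh => hci hh.2)]
    by_cases hcj : h (j - 1) = h (j + 1)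
    · have Bj : ∀ y ∈ nb (h (j - 1)), S y * gE nb S o i φ (Function.update h j y) =
          S y * (if h (i - 1) = h (i + 1) then
        (∑ x ∈ nb (h (i - 1)), S x * φ (Function.update (Function.update h i x) j y)) /
          S (h (i - 1)) else 0) := by
        intro y hy
        rw [gE_update_far H hj hi (Or.inr hij) φ hp hcj hy]
      rw [gE_pos nb S o j _ hp hcj, Finset.sum_congr rfl Bj]
      simp only [if_neg hci, mul_zero, Finset.sum_const_zero, zero_div]
    · rw [gE_neg nb S o j _ (fun hh => hcj hh.2)]

end General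

theorem gE_TLRel {nb : A → Finset A} {S : A → ℝ} {δ : ℝ} (H : Eig nb S δ) (o : A) :
    TLRel (M := Module.End ℝ ((ℕ → A) → ℝ)) (δ • 1) (gE nb S o) where
  dcomm i := by simp
  sq i hi := gE_sq H hi
  up i hi := gE_up H hi
  down i hi := gE_down H hi
  comm i j hi hij := gE_comm H hi hij

theorem gP_apply (o l : A) (b : Bool) (i : ℕ) (φ : (ℕ → A) → ℝ) (h : ℕ → A) :
    gP o l b i φ h = if h (2 * i) = (if b = true then l else o) then φ h else 0 := rfl

/-- A generator that does not touch the pinned position commutes with the pin. -/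
theorem gP_comm_gE (nb : A → Finset A) (S : A → ℝ) (o l : A) (b : Bool) (i k : ℕ)
    (hk : k ≠ 2 * i) :
    gP o l b i * gE nb S o k = gE nb S o k * gP o l b i := by
  ext φ h
  simp only [Module.End.mul_apply]
  rw [gP_apply]
  by_cases hc : IsP nb o h ∧ h (k - 1) = h (k + 1)
  · obtain ⟨hp, he⟩ := hc
    rw [gE_pos nb S o k _ hp he, gE_pos nb S o k _ hp he]
    have hk' : 2 * i ≠ k := fun e => hk e.symm
    have h1 : ∀ x ∈ nb (h (k - 1)), S x * gP o l b i φ (Function.update h k x) =
        if h (2 * i) = (if b = true then l else o) then S x * φ (Function.update h k x) else 0 := by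
      intro x _
      rw [gP_apply, Function.update_of_ne hk']
      split_ifs
      · rfl
      · exact mul_zero _
      · rfl
      · exact mul_zero _
    rw [Finset.sum_congr rfl h1]
    by_cases h2 : h (2 * i) = (if b = true then l else o)
    · simp only [if_pos h2]
    · simp only [if_neg h2, Finset.sum_const_zero, zero_div]
  · rw [gE_neg nb S o k _ hc, gE_neg nb S o k _ hc]
    simp

theorem gP_idem (o l : A) (b : Bool) (i : ℕ) : gP o l b i * gP o l b i = gP o l b i := by
  ext φ h
  simp only [Module.End.mul_apply]
  rw [gP_apply, gP_apply]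
  by_cases h2 : h (2 * i) = (if b = true then l else o)
  · simp only [if_pos h2]
  · simp only [if_neg h2]

theorem gP_rel {nb : A → Finset A} {S : A → ℝ} {δ : ℝ} {vt : A → Prop} {o l c g f : A}
    (H : HGood nb S δ vt o l c g f) :
    PinRel (R := Module.End ℝ ((ℕ → A) → ℝ)) (δ • 1) (δ⁻¹ • 1) (gE nb S o) (gP o l) where
  dc x := by simp
  dic x := by simp
  idem b i := gP_idem o l b i
  comm b i k _ hki := gP_comm_gE nb S o l b i k hki
  commP b i b' i' := by
    ext φ h
    simp only [Module.End.mul_apply, gP_apply]
    by_cases h1 : h (2 * i) = (if b = true then l else o)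
    · by_cases h2 : h (2 * i') = (if b' = true then l else o)
      · simp only [if_pos h1, if_pos h2]
      · simp only [if_pos h1, if_neg h2]
    · by_cases h2 : h (2 * i') = (if b' = true then l else o)
      · simp only [if_neg h1, if_pos h2]
      · simp only [if_neg h1, if_neg h2]
  move b i _ := by
    ext φ h
    simp only [Module.End.mul_apply, gP_apply]
    by_cases hc : IsP nb o h ∧ h (2 * i + 1 - 1) = h (2 * i + 1 + 1)
    · have h1 : h (2 * i) = h (2 * (i + 1)) := by
        have := hc.2
        rwa [show 2 * i + 1 - 1 = 2 * i by omega, show 2 * i + 1 + 1 = 2 * (i + 1) by ring] at this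
      rw [h1]
    · rw [gE_neg nb S o _ _ hc]
      simp
  move0 := by
    ext φ h
    simp only [Module.End.mul_apply, gP_apply]
    by_cases hc : IsP nb o h ∧ h (1 - 1) = h (1 + 1)
    · have h1 : h (2 * 1) = o := by
        have h2 := hc.2
        have h3 := hc.1.1
        rw [show 2 * 1 = 1 + 1 by rfl, ← h2]
        exact h3
      rw [h1]
      simp
    · rw [gE_neg nb S o _ _ hc]
      simp

theorem gB_rel {nb : A → Finset A} {S : A → ℝ} {δ : ℝ} {vt : A → Prop} {o l c g f : A}
    (H : HGood nb S δ vt o l c g f) :
    BRel (R := Module.End ℝ ((ℕ → A) → ℝ)) (δ • 1) (δ⁻¹ • 1) (gE nb S o) (gP o l true 1) where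
  tl := gE_TLRel H.toEig o
  dd := by
    have h0 : δ ≠ 0 := by linarith [H.hδ]
    rw [smul_mul_smul_comm, one_mul, mul_inv_cancel₀ h0, one_smul]
  dc x := by simp
  dic x := by simp
  bb := gP_idem o l true 1
  be := by
    ext φ h
    simp only [Module.End.mul_apply, gP_apply, LinearMap.zero_apply, Pi.zero_apply, if_true]
    by_cases hc : IsP nb o h ∧ h (1 - 1) = h (1 + 1)
    · have h1 : h (2 * 1) = o := by
        have h2 := hc.2
        have h3 := hc.1.1
        rw [show 2 * 1 = 1 + 1 by rfl, ← h2]
        exact h3
      rw [h1, if_neg (fun e => H.lo e.symm)]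
    · rw [gE_neg nb S o _ _ hc]
      simp
  eb := by
    ext φ h
    simp only [Module.End.mul_apply, LinearMap.zero_apply, Pi.zero_apply]
    by_cases hc : IsP nb o h ∧ h (1 - 1) = h (1 + 1)
    · have h1 : h (2 * 1) = o := by
        have h2 := hc.2
        have h3 := hc.1.1
        rw [show 2 * 1 = 1 + 1 by rfl, ← h2]
        exact h3
      rw [gE_pos nb S o 1 _ hc.1 hc.2]
      have h4 : ∀ x ∈ nb (h (1 - 1)), S x * gP o l true 1 φ (Function.update h 1 x) = 0 := by
        intro x _
        have h5 : 2 * 1 ≠ 1 := by norm_num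
        rw [gP_apply, Function.update_of_ne h5, h1, if_neg, mul_zero]
        simp only [if_true]
        exact fun e => H.lo e.symm
      rw [Finset.sum_congr rfl h4, Finset.sum_const_zero, zero_div]
    · rw [gE_neg nb S o _ _ hc]
  ebe := by
    have h0 : δ ≠ 0 := by linarith [H.hδ]
    ext φ h
    simp only [Module.End.mul_apply, LinearMap.smul_apply, Module.End.one_apply, Pi.smul_apply,
      smul_eq_mul]
    by_cases hc : IsP nb o h ∧ h (2 - 1) = h (2 + 1)
    · obtain ⟨hp, he⟩ := hc
      have h1 : h (2 - 1) = c := by
        have h2 := hp.2 0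
        rw [hp.1, H.no, Finset.mem_singleton] at h2
        exact h2
      have hlc : l ∈ nb c := by
        apply H.symm
        rw [H.nl]
        exact Finset.mem_singleton_self c
      have hSl : S c = δ * S l := by
        have := H.eig l
        rw [H.nl, Finset.sum_singleton] at this
        exact this
      have hSl0 := H.pos l
      have hlc' : l ∈ nb (h (2 - 1)) := by rw [h1]; exact hlc
      rw [gE_pos nb S o 2 _ hp he]
      have h4 : ∀ x ∈ nb (h (2 - 1)), S x * gP o l true 1 (gE nb S o 2 φ)
          (Function.update h 2 x) = if x = l then S l * gE nb S o 2 φ h else 0 := by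
        intro x hx
        have h5 : Function.update h 2 x (2 * 1) = x := by
          rw [show 2 * 1 = 2 by rfl, Function.update_self]
        rw [gP_apply, h5]
        simp only [if_true]
        by_cases h6 : x = l
        · rw [if_pos h6, if_pos h6, gE_update_same H.toEig (by norm_num) φ hp he hx, h6]
        · rw [if_neg h6, if_neg h6, mul_zero]
      rw [Finset.sum_congr rfl h4, Finset.sum_ite_eq', if_pos hlc', h1, hSl]
      field_simp
    · rw [gE_neg nb S o 2 _ hc, gE_neg nb S o 2 _ hc, mul_zero]
  bc j hj := gP_comm_gE nb S o l true 1 j (by omega)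

end Pool.Agent.Helper55.BLD
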