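import Mathlib
import Pool.Agent.Helper55.BLD.Defs

/-!
From grid models with the root on the frame to labelled grids with contact in column one.
-/

set_option autoImplicit false

namespace Pool.Agent.Helper55.BLD

open Pool.Agent.Helper70.BLB

theorem rtg_map {α β : Type} {r : α → α → Prop} {p : β → β → Prop} (f : α → β)
    (h : ∀ a b, r a b → p (f a) (f b)) {a b : α} (hab : Relation.ReflTransGen r a b) :
    Relation.ReflTransGen p (f a) (f b) := by
  induction hab with
  | refl => exact Relation.ReflTransGen.refl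
  | tail _ h2 ih => exact ih.tail (h _ _ h2)

theorem rtg_symm {α : Type} {r : α → α → Prop} (h : ∀ a b, r a b → r b a) {a b : α}
    (hab : Relation.ReflTransGen r a b) : Relation.ReflTransGen r b a := by
  induction hab with
  | refl => exact Relation.ReflTransGen.refl
  | tail _ h2 ih => exact ih.head (h _ _ h2)

section Symm

variable {V : Type} {G : SimpleGraph V} {s : V} {k T : ℕ} {L : ℕ → ℕ → Option V}

theorem gm_interior (M : GridModel G s k T L) {v : V} (hv : v ≠ s) {i j : ℕ}
    (h : L i j = some v) : 1 ≤ i ∧ i ≤ k ∧ 1 ≤ j ∧ j ≤ T := by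
  by_contra hc
  have h1 : L i j = some s := (M.frame i j).2 (by omega)
  rw [h1] at h
  exact hv (Option.some.inj h).symm

/-- Two adjacent points realising an edge lie in the closed rectangle. -/
theorem gm_edge (M : GridModel G s k T L) {u v : V} (huv : G.Adj u v) :
    ∃ i j i' j' : ℕ, gadj (i, j) (i', j') ∧ L i j = some u ∧ L i' j' = some v ∧
      i ≤ k + 1 ∧ j ≤ T + 1 ∧ i' ≤ k + 1 ∧ j' ≤ T + 1 := by
  obtain ⟨⟨i, j⟩, ⟨i', j'⟩, hg, hp, hq⟩ := M.edge u v huv
  refine ⟨i, j, i', j', hg, hp, hq, ?_⟩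
  simp only [gadj] at hg
  by_cases hu : u = s
  · have hv : v ≠ s := by
      intro h
      exact huv.ne (hu.trans h.symm)
    have := gm_interior M hv hq
    omega
  · have := gm_interior M hu hp
    omega

theorem gm_refl (M : GridModel G s k T L) :
    GridModel G s k T (fun i j => L (k + 1 - i) j) where
  frame i j := by
    rw [M.frame]
    omega
  conn v hv p q hp hq := by
    have h := M.conn v hv (k + 1 - p.1, p.2) (k + 1 - q.1, q.2) hp hq
    have ip := gm_interior M hv hp
    have iq := gm_interior M hv hq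
    have h2 := rtg_map
      (p := fun a b : ℕ × ℕ => gadj a b ∧ L (k + 1 - a.1) a.2 = some v ∧
        L (k + 1 - b.1) b.2 = some v)
      (fun a : ℕ × ℕ => (k + 1 - a.1, a.2)) (fun a b hab => by
        obtain ⟨h1, h3, h4⟩ := hab
        have ia := gm_interior M hv h3
        have ib := gm_interior M hv h4
        refine ⟨?_, ?_, ?_⟩
        · simp only [gadj] at h1 ⊢
          omega
        · show L (k + 1 - (k + 1 - a.1)) a.2 = some v
          rw [show k + 1 - (k + 1 - a.1) = a.1 by omega]
          exact h3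
        · show L (k + 1 - (k + 1 - b.1)) b.2 = some v
          rw [show k + 1 - (k + 1 - b.1) = b.1 by omega]
          exact h4) h
    have ep : ((k + 1 - (k + 1 - p.1), p.2) : ℕ × ℕ) = p := by
      ext
      · show k + 1 - (k + 1 - p.1) = p.1
        omega
      · rfl
    have eq : ((k + 1 - (k + 1 - q.1), q.2) : ℕ × ℕ) = q := by
      ext
      · show k + 1 - (k + 1 - q.1) = q.1
        omega
      · rfl
    simp only at h2
    rw [ep, eq] at h2
    exact h2
  nonempty v := by
    by_cases hv : v = s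
    · subst hv
      exact ⟨(0, 0), (M.frame _ _).2 (by omega)⟩
    · obtain ⟨⟨i, j⟩, hp⟩ := M.nonempty v
      have := gm_interior M hv hp
      refine ⟨(k + 1 - i, j), ?_⟩
      show L (k + 1 - (k + 1 - i)) j = some v
      rw [show k + 1 - (k + 1 - i) = i by omega]
      exact hp
  edge u v huv := by
    obtain ⟨i, j, i', j', hg, hp, hq, b1, b2, b3, b4⟩ := gm_edge M huv
    refine ⟨(k + 1 - i, j), (k + 1 - i', j'), ?_, ?_, ?_⟩
    · simp only [gadj] at hg ⊢
      omega
    · show L (k + 1 - (k + 1 - i)) j = some u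
      rw [show k + 1 - (k + 1 - i) = i by omega]
      exact hp
    · show L (k + 1 - (k + 1 - i')) j' = some v
      rw [show k + 1 - (k + 1 - i') = i' by omega]
      exact hq

theorem gm_transp (M : GridModel G s k T L) :
    GridModel G s T k (fun i j => L j i) where
  frame i j := by
    rw [M.frame]
    tauto
  conn v hv p q hp hq := by
    have h := M.conn v hv (p.2, p.1) (q.2, q.1) hp hq
    exact rtg_map
      (p := fun a b : ℕ × ℕ => gadj a b ∧ L a.2 a.1 = some v ∧ L b.2 b.1 = some v)
      (fun a : ℕ × ℕ => (a.2, a.1)) (fun a b hab => by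
        obtain ⟨h1, h3, h4⟩ := hab
        refine ⟨?_, h3, h4⟩
        simp only [gadj] at h1 ⊢
        tauto) h
  nonempty v := by
    obtain ⟨⟨i, j⟩, hp⟩ := M.nonempty v
    exact ⟨(j, i), hp⟩
  edge u v huv := by
    obtain ⟨⟨i, j⟩, ⟨i', j'⟩, hg, hp, hq⟩ := M.edge u v huv
    refine ⟨(j, i), (j', i'), ?_, hp, hq⟩
    simp only [gadj] at hg ⊢
    tauto

/-- After a symmetry of the rectangle, a neighbour of the root labels a point of column one. -/
theorem gm_symm (M : GridModel G s k T L) (hk : 1 ≤ k) (hT : 1 ≤ T) {t : V} (hst : G.Adj s t) :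
    ∃ (k' T' : ℕ) (L' : ℕ → ℕ → Option V), GridModel G s k' T' L' ∧
      ∃ j, 1 ≤ j ∧ j ≤ T' ∧ L' 1 j = some t := by
  obtain ⟨i, j, i', j', hg, hp, hq, b1, b2, b3, b4⟩ := gm_edge M hst
  have h1 := (M.frame i j).1 hp
  have ht : t ≠ s := hst.ne'
  have h2 := gm_interior M ht hq
  simp only [gadj] at hg
  have h3 : i' = 1 ∨ i' = k ∨ j' = 1 ∨ j' = T := by omega
  rcases h3 with rfl | rfl | rfl | rfl
  · exact ⟨k, T, L, M, j', h2.2.2.1, h2.2.2.2, hq⟩
  · refine ⟨i', T, _, gm_refl M, j', h2.2.2.1, h2.2.2.2, ?_⟩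
    show L (i' + 1 - 1) j' = some t
    rw [show i' + 1 - 1 = i' by omega]
    exact hq
  · exact ⟨T, k, _, gm_transp M, i', h2.1, h2.2.1, hq⟩
  · refine ⟨j', k, _, gm_refl (gm_transp M), i', h2.1, h2.2.1, ?_⟩
    show L i' (j' + 1 - 1) = some t
    rw [show j' + 1 - 1 = j' by omega]
    exact hq

end Symm

open Classical in
/-- The shifted labelling. -/
noncomputable def shL {V : Type} (s : V) (L : ℕ → ℕ → Option V) (i j : ℕ) : Option V :=
  if i = 0 then some s else if j = 0 then none else L i (j - 1)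

theorem shL_zero {V : Type} (s : V) (L : ℕ → ℕ → Option V) (j : ℕ) : shL s L 0 j = some s := by
  simp [shL]

theorem shL_succ {V : Type} (s : V) (L : ℕ → ℕ → Option V) {i : ℕ} (hi : i ≠ 0) (j : ℕ) :
    shL s L i (j + 1) = L i j := by
  simp [shL, hi]

theorem shL_frame {V : Type} {G : SimpleGraph V} {s : V} {k T : ℕ} {L : ℕ → ℕ → Option V}
    (M : GridModel G s k T L) {i j : ℕ} :
    shL s L i j = some s ↔ (i = 0 ∨ (1 ≤ j ∧ (k < i ∨ j = 1 ∨ T + 1 < j))) := by
  unfold shL
  by_cases h1 : i = 0
  · simp [h1]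
  · rw [if_neg h1]
    by_cases h2 : j = 0
    · rw [if_pos h2]
      constructor
      · intro h; exact absurd h (by simp)
      · intro h; omega
    · rw [if_neg h2, M.frame]
      omega

section Paths

variable {V : Type} {s : V} {k T : ℕ} {L' : ℕ → ℕ → Option V}

/-- The step relation of the class of `s` in the rectangle. -/
def stpT (s : V) (K R : ℕ) (L' : ℕ → ℕ → Option V) (a b : ℕ × ℕ) : Prop :=
  gadj a b ∧ inR K R a ∧ inR K R b ∧ L' a.1 a.2 = some s ∧ L' b.1 b.2 = some s

theorem stpT_symm {K R : ℕ} {a b : ℕ × ℕ} (h : stpT s K R L' a b) : stpT s K R L' b a := by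
  obtain ⟨h1, h2, h3, h4, h5⟩ := h
  refine ⟨?_, h3, h2, h5, h4⟩
  simp only [gadj] at h1 ⊢
  omega

theorem stpT_row {K R : ℕ} (j : ℕ) (hj : j ≤ R) (h : ∀ i, i ≤ K → L' i j = some s) :
    ∀ i, i ≤ K → Relation.ReflTransGen (stpT s K R L') (i, j) (0, j)
  | 0, _ => Relation.ReflTransGen.refl
  | i + 1, hi => by
    refine Relation.ReflTransGen.head ?_ (stpT_row j hj h i (by omega))
    refine ⟨?_, ⟨hi, hj⟩, ⟨by show i ≤ K; omega, hj⟩, h _ hi, h _ (by omega)⟩
    simp [gadj]

theorem stpT_col {K R : ℕ} (i : ℕ) (hi : i ≤ K) (j0 : ℕ)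
    (h : ∀ j, j0 ≤ j → j ≤ R → L' i j = some s) :
    ∀ d, j0 + d ≤ R → Relation.ReflTransGen (stpT s K R L') (i, j0 + d) (i, j0)
  | 0, _ => Relation.ReflTransGen.refl
  | d + 1, hd => by
    refine Relation.ReflTransGen.head ?_ (stpT_col i hi j0 h d (by omega))
    refine ⟨?_, ⟨hi, hd⟩, ⟨hi, by show j0 + d ≤ R; omega⟩, h _ (by omega) hd,
      h _ (by omega) (by omega)⟩
    simp [gadj]
    omega

end Paths

theorem stpT_to_origin {V : Type} {G : SimpleGraph V} {s : V} {k T : ℕ}
    {L : ℕ → ℕ → Option V} (M : GridModel G s k T L) {i j : ℕ} (hi : i ≤ k + 1)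
    (hj : j ≤ T + 2) (h : shL s L i j = some s) :
    Relation.ReflTransGen (stpT s (k + 1) (T + 2) (shL s L)) (i, j) (0, 0) := by
  have hcol : ∀ j, j ≤ T + 2 →
      Relation.ReflTransGen (stpT s (k + 1) (T + 2) (shL s L)) (0, j) (0, 0) := by
    intro j hj
    have := stpT_col (s := s) (K := k + 1) (R := T + 2) (L' := shL s L) 0 (by omega) 0
      (fun j _ _ => shL_zero s L j) j (by omega)
    rwa [zero_add] at this
  have hrow : ∀ j, (j = 1 ∨ j = T + 2) → ∀ i, i ≤ k + 1 →
      Relation.ReflTransGen (stpT s (k + 1) (T + 2) (shL s L)) (i, j) (0, 0) := by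
    intro j hj i hi
    refine (stpT_row (s := s) (K := k + 1) (R := T + 2) (L' := shL s L) j (by omega) ?_ i hi).trans
      (hcol j (by omega))
    intro i hi
    exact (shL_frame M).2 (by omega)
  rcases (shL_frame M).1 h with rfl | ⟨h1, h2⟩
  · exact hcol j hj
  · by_cases h3 : j = 1 ∨ j = T + 2
    · exact hrow j h3 i hi
    · have h4 : i = k + 1 := by omega
      subst h4
      have := stpT_col (s := s) (K := k + 1) (R := T + 2) (L' := shL s L) (k + 1) le_rfl 1
        (fun j hj1 hj2 => (shL_frame M).2 (by omega)) (j - 1) (by omega)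
      rw [show 1 + (j - 1) = j by omega] at this
      exact this.trans (hrow 1 (Or.inl rfl) (k + 1) le_rfl)

theorem LG_of_model {V : Type} {G G' : SimpleGraph V} (hG : G ≤ G') {s : V}
    {k T : ℕ} {L : ℕ → ℕ → Option V} (M : GridModel G' s k T L) :
    LG G s (k + 1) (T + 2) (shL s L) where
  col j _ := shL_zero s L j
  row i h1 _ := by
    unfold shL
    rw [if_neg (by omega), if_pos rfl]
  conn v p q hp hq hvp hvq := by
    by_cases hv : v = s
    · subst hv
      have h1 := stpT_to_origin M hp.1 hp.2 hvp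
      have h2 := stpT_to_origin M hq.1 hq.2 hvq
      have h3 := rtg_symm (fun a b h => stpT_symm h) h2
      exact h1.trans h3
    · obtain ⟨i, j⟩ := p
      obtain ⟨i', j'⟩ := q
      simp only at hvp hvq
      have aux : ∀ i j, shL s L i j = some v → i ≠ 0 ∧ j ≠ 0 ∧ L i (j - 1) = some v := by
        intro i j h
        unfold shL at h
        by_cases h1 : i = 0
        · rw [if_pos h1] at h
          exact absurd (Option.some.inj h).symm hv
        · rw [if_neg h1] at h
          by_cases h2 : j = 0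
          · rw [if_pos h2] at h
            exact absurd h (by simp)
          · rw [if_neg h2] at h
            exact ⟨h1, h2, h⟩
      obtain ⟨a1, a2, a3⟩ := aux i j hvp
      obtain ⟨b1, b2, b3⟩ := aux i' j' hvq
      have h := M.conn v hv (i, j - 1) (i', j' - 1) a3 b3
      have h2 := rtg_map
        (p := fun a b : ℕ × ℕ => gadj a b ∧ inR (k + 1) (T + 2) a ∧ inR (k + 1) (T + 2) b ∧
          shL s L a.1 a.2 = some v ∧ shL s L b.1 b.2 = some v)
        (fun a : ℕ × ℕ => (a.1, a.2 + 1)) (fun a b hab => by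
          obtain ⟨c1, c2, c3⟩ := hab
          have ia := gm_interior M hv c2
          have ib := gm_interior M hv c3
          refine ⟨?_, ⟨?_, ?_⟩, ⟨?_, ?_⟩, ?_, ?_⟩
          · simp only [gadj] at c1 ⊢
            omega
          · show a.1 ≤ k + 1
            omega
          · show a.2 + 1 ≤ T + 2
            omega
          · show b.1 ≤ k + 1
            omega
          · show b.2 + 1 ≤ T + 2
            omega
          · exact (shL_succ s L (by omega) a.2).trans c2
          · exact (shL_succ s L (by omega) b.2).trans c3) h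
      simp only at h2
      rw [show j - 1 + 1 = j by omega, show j' - 1 + 1 = j' by omega] at h2
      exact h2
  edge u v huv := by
    obtain ⟨i, j, i', j', hg, hp, hq, b1, b2, b3, b4⟩ := gm_edge M (hG huv)
    have key : ∀ i j, ∀ w : V, L i j = some w → shL s L i (j + 1) = some w := by
      intro i j w h
      by_cases hi : i = 0
      · subst hi
        rw [shL_zero, ← (M.frame 0 j).2 (Or.inl rfl)]
        exact h
      · rw [shL_succ s L hi]
        exact h
    refine ⟨(i, j + 1), (i', j' + 1), ?_, ⟨b1, ?_⟩, ⟨b3, ?_⟩, key _ _ _ hp, key _ _ _ hq⟩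
    · simp only [gadj] at hg ⊢
      omega
    · show j + 1 ≤ T + 2
      omega
    · show j' + 1 ≤ T + 2
      omega

/-- If `s ≠ t` and the graph `G` with the additional edge `s t` has a grid model with root `s`,
then `G` has a labelled grid with contact of `t`. -/
theorem exists_LG {V : Type} {G G' : SimpleGraph V} (hG : G ≤ G') {s t : V}
    (hst : s ≠ t → G'.Adj s t) {k T : ℕ} {L : ℕ → ℕ → Option V} (hk : 1 ≤ k) (hT : 1 ≤ T)
    (M : GridModel G' s k T L) :
    ∃ (K R : ℕ) (L' : ℕ → ℕ → Option V) (j₀ : ℕ), LG G s K R L' ∧ Contact s t K R L' j₀ := by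
  by_cases h : s = t
  · exact ⟨k + 1, T + 2, shL s L, 0, LG_of_model hG M, by omega, fun h' => absurd h.symm h'⟩
  · obtain ⟨k', T', L', M', j, h1, h2, h3⟩ := gm_symm M hk hT (hst h)
    refine ⟨k' + 1, T' + 2, shL s L', j + 1, LG_of_model hG M', by omega, fun _ =>
      ⟨by omega, by omega, ?_⟩⟩
    rw [shL_succ s L' (by omega)]
    exact h3

end Pool.Agent.Helper55.BLD
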