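import Mathlib
import Pool.Agent.Helper55.BLD.Defs

/-!
The graph `D_∞` and its positive eigenvector.
-/

set_option autoImplicit false

namespace Pool.Agent.Helper55.BLD

namespace Inst

/-- The eigenvector on the tail. -/
noncomputable def s (δ : ℝ) : ℕ → ℝ
  | 0 => δ
  | 1 => δ ^ 2 - 2
  | (k + 2) => δ * s δ (k + 1) - s δ k

theorem s_pos_le {δ : ℝ} (hδ : 2 ≤ δ) (k : ℕ) : 0 < s δ k ∧ s δ k ≤ s δ (k + 1) := by
  induction k with
  | zero =>
    refine ⟨by simp only [s]; linarith, ?_⟩
    simp only [s]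
    nlinarith
  | succ k ih =>
    obtain ⟨h0, h1⟩ := ih
    have h2 : 0 < s δ (k + 1) := lt_of_lt_of_le h0 h1
    refine ⟨h2, ?_⟩
    have h3 : s δ (k + 1 + 1) = δ * s δ (k + 1) - s δ k := rfl
    rw [h3]
    nlinarith

/-- The eigenvector. -/
noncomputable def S (δ : ℝ) : Bool ⊕ ℕ → ℝ
  | .inl _ => 1
  | .inr k => s δ k

/-- The neighbours. -/
def nb : Bool ⊕ ℕ → Finset (Bool ⊕ ℕ)
  | .inl _ => {.inr 0}
  | .inr 0 => {.inl false, .inl true, .inr 1}
  | .inr (k + 1) => {.inr k, .inr (k + 2)}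

/-- The vertex heights. -/
def vt : Bool ⊕ ℕ → Prop
  | .inl _ => True
  | .inr k => k % 2 = 1

end Inst

open Inst in
theorem exists_HGood {δ : ℝ} (hδ : 2 ≤ δ) : ∃ (A : Type) (_ : DecidableEq A) (nb : A → Finset A)
    (S : A → ℝ) (vt : A → Prop) (o l c g f : A), HGood nb S δ vt o l c g f := by
  refine ⟨Bool ⊕ ℕ, inferInstance, nb, S δ, vt, .inl false, .inl true, .inr 0, .inr 1, .inr 2, ?_⟩
  refine
    { symm := ?_
      pos := ?_
      eig := ?_
      hδ := hδ
      no := rfl
      nl := rfl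
      lo := by simp
      vo := trivial
      vnb := ?_
      fnb := ?_
      card := ?_
      ng := rfl
      cf := by simp
      go := by simp
      gl := by simp }
  · rintro (a | _ | a) (b | _ | b) h
    all_goals first
      | (simp [nb] at h ⊢; done)
      | (simp [nb] at h ⊢; try omega)
      | (cases b <;> simp [nb] at h ⊢)
      | (cases a <;> simp [nb] at h ⊢)
  · rintro (a | k)
    · exact one_pos
    · exact (s_pos_le hδ k).1
  · rintro (a | _ | _ | k)
    · simp [nb, S, s]
    · simp [nb, S, s]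
      ring
    · simp [nb, S, s]
    · have : (Sum.inr (k + 1) : Bool ⊕ ℕ) ≠ Sum.inr (k + 3) := by simp
      have h3 : s δ (k + 3) = δ * s δ (k + 2) - s δ (k + 1) := rfl
      show ∑ b ∈ ({.inr (k + 1), .inr (k + 1 + 2)} : Finset (Bool ⊕ ℕ)), S δ b = _
      rw [Finset.sum_pair (by simp)]
      show s δ (k + 1) + s δ (k + 3) = δ * s δ (k + 2)
      rw [h3]
      ring
  · rintro (a | _ | a) ha (b | _ | b) h
    all_goals simp [nb, vt] at *
    all_goals omega
  · rintro (a | _ | a) ha (b | _ | b) h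
    all_goals simp [nb, vt] at *
    all_goals omega
  · rintro (a | _ | a) ha
    · simp [nb]
    · simp [vt] at ha
    · exact Finset.card_le_two

end Pool.Agent.Helper55.BLD
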