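import Mathlib
import Pool.Agent.Helper55.BLD.Defs

/-!
The evaluation of the network of a labelled grid in the colouring representation.
-/

set_option autoImplicit false

namespace Pool.Agent.Helper55.BLD

open Pool.Agent.Helper70.BLB

namespace PC

section Semantics

variable {C : Type} [Fintype C] [DecidableEq C] {τ : C → C}

theorem cWP_append (a b : List OpP) (ψ : (ℕ → C) → ℝ) :
    cWP C τ (a ++ b) ψ = cWP C τ a (cWP C τ b ψ) := by
  unfold cWP
  rw [List.map_append, List.prod_append]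
  rfl

theorem cWP_nil (ψ : (ℕ → C) → ℝ) : cWP C τ [] ψ = ψ := by simp [cWP]

theorem cWP_cons (o : OpP) (ops : List OpP) (ψ : (ℕ → C) → ℝ) :
    cWP C τ (o :: ops) ψ = cvalP C τ o (cWP C τ ops ψ) := by
  unfold cWP
  rw [List.map_cons, List.prod_cons]
  rfl

theorem cWP_J (i : ℕ) (ψ : (ℕ → C) → ℝ) (c : ℕ → C) :
    cWP C τ [OpP.J i] ψ c = if c i = c (i + 1) then ψ c else 0 := by
  rw [cWP_cons, cWP_nil]; rfl

theorem cWP_H (i : ℕ) (ψ : (ℕ → C) → ℝ) (c : ℕ → C) :
    cWP C τ [OpP.H i] ψ c = if c i ≠ c (i + 1) then ψ c else 0 := by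
  have h1 : cWP C τ [OpP.H i] ψ c = cW C [Op.H i] ψ c := by
    rw [cWP_cons, cWP_nil, cW_cons, cW_nil]; rfl
  rw [h1, cW_H]

theorem cWP_D (i : ℕ) (ψ : (ℕ → C) → ℝ) (c : ℕ → C) :
    cWP C τ [OpP.D i] ψ c = ∑ y, ψ (Function.update c i y) := by
  rw [cWP_cons, cWP_nil]; rfl

theorem cWP_V (i : ℕ) (ψ : (ℕ → C) → ℝ) (c : ℕ → C) :
    cWP C τ [OpP.V i] ψ c = ∑ y, if c i ≠ y then ψ (Function.update c i y) else 0 := by
  have h1 : cWP C τ [OpP.V i] ψ c = cW C [Op.V i] ψ c := by
    rw [cWP_cons, cWP_nil, cW_cons, cW_nil]; rfl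
  rw [h1, cW_V]

/-- The condition given by a pin on the colour `y` of a site, `y₀` being the colour of the root. -/
def pinOK (τ : C → C) (s : Option Bool) (y y₀ : C) : Prop :=
  ∀ b, s = some b → y = (if b = true then τ y₀ else y₀)

open Classical in
theorem cWP_pinP (i : ℕ) (s : Option Bool) (ψ : (ℕ → C) → ℝ) (c : ℕ → C) :
    cWP C τ (pinP i s) ψ c = if pinOK τ s (c i) (c 0) then ψ c else 0 := by
  cases s with
  | none =>
    have : pinP i none = [] := rfl
    rw [this, cWP_nil, if_pos]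
    intro b hb
    exact absurd hb (by simp)
  | some b =>
    have : pinP i (some b) = [OpP.P b i] := rfl
    rw [this, cWP_cons, cWP_nil]
    have h1 : cvalP C τ (OpP.P b i) ψ c =
      if c i = (if b = true then τ (c 0) else c 0) then ψ c else 0 := rfl
    rw [h1]
    by_cases h : c i = (if b = true then τ (c 0) else c 0)
    · rw [if_pos h, if_pos]
      intro b' hb'
      rw [Option.some_inj] at hb'
      subst hb'
      exact h
    · rw [if_neg h, if_neg]
      intro hh
      exact h (hh b rfl)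

variable {V : Type} {G : SimpleGraph V}

open Classical in
theorem cWP_vopP (i : ℕ) (a b : Option V) (ψ : (ℕ → C) → ℝ) (c : ℕ → C) :
    cWP C τ (vopP G i a b) ψ c =
      ∑ y, if vrel G a b (c i) y then ψ (Function.update c i y) else 0 := by
  unfold vopP
  split_ifs with h1 h2
  · simp_rw [vrel_same h1]
    rw [cWP_nil, Finset.sum_ite_eq Finset.univ (c i), if_pos (Finset.mem_univ _),
      Function.update_eq_self]
  · simp_rw [vrel_adj h2]
    rw [cWP_V]
  · simp_rw [vrel_other h1 h2]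
    rw [cWP_D]
    simp

open Classical in
theorem cWP_hopP (i : ℕ) (a b : Option V) (ψ : (ℕ → C) → ℝ) (c : ℕ → C) :
    cWP C τ (hopP G i a b) ψ c = if vrel G a b (c i) (c (i + 1)) then ψ c else 0 := by
  unfold hopP
  split_ifs with h1 h2 h3 h4 h5
  · rw [vrel_same h1] at h2
    rw [cWP_J, if_pos h2]
  · rw [vrel_same h1] at h2
    rw [cWP_J, if_neg h2]
  · rw [vrel_adj h3] at h4
    rw [cWP_H, if_pos h4]
  · rw [vrel_adj h3] at h4
    rw [cWP_H, if_neg h4]
  · rw [cWP_nil]
  · exact absurd ((vrel_other h1 h3 _ _).2 trivial) h5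

open Classical in
theorem cWP_stepW (L : ℕ → ℕ → Option V) (S : ℕ → ℕ → Option Bool) (j : ℕ) :
    ∀ (k : ℕ) (ψ : (ℕ → C) → ℝ) (c : ℕ → C),
    cWP C τ (stepW G L S j k) ψ c = ∑ x : Fin k → C,
      if ∀ i, 1 ≤ i → i ≤ k → (vrel G (L i j) (L i (j + 1)) (c i) (ov k c x i) ∧
        pinOK τ (S i (j + 1)) (ov k c x i) (c 0))
      then ψ (ov k c x) else 0
  | 0, ψ, c => by
    rw [Fintype.sum_unique, if_pos (by intro i h1 h2; omega)]
    have : stepW G L S j 0 = [] := rfl
    rw [this, cWP_nil]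
    congr 1
    funext i
    rw [ov_out]; omega
  | (k + 1), ψ, c => by
    have : stepW G L S j (k + 1) = stepW G L S j k ++
      (vopP G (k + 1) (L (k + 1) j) (L (k + 1) (j + 1)) ++ pinP (k + 1) (S (k + 1) (j + 1))) := rfl
    rw [this, cWP_append, cWP_stepW L S j k, sum_snoc]
    apply Finset.sum_congr rfl
    intro x _
    rw [cWP_append, cWP_vopP, ov_out k c x (i := k + 1) (by omega)]
    have h00 : ∀ y : C, (Function.update (ov k c x) (k + 1) y) 0 = c 0 := by
      intro y
      rw [Function.update_of_ne (by omega), ov_out _ _ _ (by omega)]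
    simp_rw [cWP_pinP, h00, Function.update_self]
    by_cases h1 : ∀ i, 1 ≤ i → i ≤ k → (vrel G (L i j) (L i (j + 1)) (c i) (ov k c x i) ∧
        pinOK τ (S i (j + 1)) (ov k c x i) (c 0))
    · rw [if_pos h1]
      apply Finset.sum_congr rfl
      intro y _
      rw [ov_snoc]
      by_cases h2 : vrel G (L (k + 1) j) (L (k + 1) (j + 1)) (c (k + 1)) y
      · rw [if_pos h2]
        by_cases h3 : pinOK τ (S (k + 1) (j + 1)) y (c 0)
        · rw [if_pos h3, if_pos]
          intro i hi1 hi2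
          by_cases hik : i = k + 1
          · subst hik; rw [Function.update_self]; exact ⟨h2, h3⟩
          · rw [Function.update_of_ne hik]; exact h1 i hi1 (by omega)
        · rw [if_neg h3, if_neg]
          intro hall
          have := (hall (k + 1) (by omega) le_rfl).2
          rw [Function.update_self] at this
          exact h3 this
      · rw [if_neg h2, if_neg]
        intro hall
        have := (hall (k + 1) (by omega) le_rfl).1
        rw [Function.update_self] at this
        exact h2 this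
    · rw [if_neg h1]
      symm
      apply Finset.sum_eq_zero
      intro y _
      rw [if_neg]
      intro hall
      apply h1
      intro i hi1 hi2
      have := hall i hi1 (by omega)
      rw [ov_snoc, Function.update_of_ne (by omega)] at this
      exact this

open Classical in
theorem cWP_horW (L : ℕ → ℕ → Option V) (j : ℕ) : ∀ (k : ℕ) (ψ : (ℕ → C) → ℝ) (c : ℕ → C),
    cWP C τ (horW G L j k) ψ c =
      if ∀ i, i < k → vrel G (L i j) (L (i + 1) j) (c i) (c (i + 1)) then ψ c else 0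
  | 0, ψ, c => by
    rw [if_pos (by intro i h; omega)]
    have : horW G L j 0 = [] := rfl
    rw [this, cWP_nil]
  | (k + 1), ψ, c => by
    have : horW G L j (k + 1) = horW G L j k ++ hopP G k (L k j) (L (k + 1) j) := rfl
    rw [this, cWP_append, cWP_horW L j k, cWP_hopP]
    by_cases h1 : ∀ i, i < k → vrel G (L i j) (L (i + 1) j) (c i) (c (i + 1))
    · rw [if_pos h1]
      by_cases h2 : vrel G (L k j) (L (k + 1) j) (c k) (c (k + 1))
      · rw [if_pos h2, if_pos]
        intro i hi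
        by_cases hik : i = k
        · subst hik; exact h2
        · exact h1 i (by omega)
      · rw [if_neg h2, if_neg]
        intro hall
        exact h2 (hall k (by omega))
    · rw [if_neg h1, if_neg]
      intro hall
      exact h1 (fun i hi => hall i (by omega))

/-- The constraints of the rows `1, ..., t`. -/
def bodyOKP (τ : C → C) (G : SimpleGraph V) (L : ℕ → ℕ → Option V) (S : ℕ → ℕ → Option Bool)
    (k : ℕ) {t : ℕ} (X : Fin t → Fin k → C) (c : ℕ → C) : Prop :=
  (∀ j, j < t → ∀ i, 1 ≤ i → i ≤ k →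
    (vrel G (L i j) (L i (j + 1)) (rowc k X c j i) (rowc k X c (j + 1) i) ∧
      pinOK τ (S i (j + 1)) (rowc k X c (j + 1) i) (c 0))) ∧
  (∀ j, 1 ≤ j → j ≤ t → ∀ i, i < k →
    vrel G (L i j) (L (i + 1) j) (rowc k X c j i) (rowc k X c j (i + 1)))

open Classical in
theorem cWP_bodyW (L : ℕ → ℕ → Option V) (S : ℕ → ℕ → Option Bool) (k : ℕ) :
    ∀ (t : ℕ) (ψ : (ℕ → C) → ℝ) (c : ℕ → C),
    cWP C τ (bodyW G L S k t) ψ c = ∑ X : Fin t → Fin k → C,
      if bodyOKP τ G L S k X c then ψ (rowc k X c t) else 0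
  | 0, ψ, c => by
    rw [Fintype.sum_unique, if_pos]
    · have : bodyW G L S k 0 = [] := rfl
      rw [this, cWP_nil]
      rfl
    · exact ⟨fun j hj => by omega, fun j h1 h2 => by omega⟩
  | (t + 1), ψ, c => by
    have : bodyW G L S k (t + 1) =
      bodyW G L S k t ++ (stepW G L S t k ++ horW G L (t + 1) k) := rfl
    rw [this, cWP_append, cWP_bodyW L S k t, sum_snoc]
    apply Finset.sum_congr rfl
    intro X _
    rw [cWP_append, cWP_stepW]
    simp_rw [cWP_horW]
    have hrow : ∀ x : Fin k → C, ov k (rowc k X c t) x = ov k c x := by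
      intro x
      unfold rowc
      split_ifs
      · rw [ov_ov]
      · rfl
    have hrow0 : rowc k X c t 0 = c 0 := by
      unfold rowc
      split_ifs
      · rw [ov_out _ _ _ (by omega)]
      · rfl
    simp_rw [hrow, hrow0]
    by_cases hX : bodyOKP τ G L S k X c
    · rw [if_pos hX]
      apply Finset.sum_congr rfl
      intro x _
      rw [rowc_snoc_last]
      by_cases h1 : ∀ i, 1 ≤ i → i ≤ k →
          (vrel G (L i t) (L i (t + 1)) (rowc k X c t i) (ov k c x i) ∧
            pinOK τ (S i (t + 1)) (ov k c x i) (c 0))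
      · rw [if_pos h1]
        by_cases h2 : ∀ i, i < k →
            vrel G (L i (t + 1)) (L (i + 1) (t + 1)) (ov k c x i) (ov k c x (i + 1))
        · rw [if_pos h2, if_pos]
          refine ⟨fun j hj i hi1 hi2 => ?_, fun j hj1 hj2 i hi => ?_⟩
          · by_cases hjt : j = t
            · subst hjt
              rw [rowc_snoc_lt k X x c le_rfl, rowc_snoc_last]
              exact h1 i hi1 hi2
            · rw [rowc_snoc_lt k X x c (by omega), rowc_snoc_lt k X x c (by omega)]
              exact hX.1 j (by omega) i hi1 hi2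
          · by_cases hjt : j = t + 1
            · subst hjt
              rw [rowc_snoc_last]
              exact h2 i hi
            · rw [rowc_snoc_lt k X x c (by omega)]
              exact hX.2 j hj1 (by omega) i hi
        · rw [if_neg h2, if_neg]
          intro hall
          apply h2
          intro i hi
          have := hall.2 (t + 1) (by omega) le_rfl i hi
          rw [rowc_snoc_last] at this
          exact this
      · rw [if_neg h1, if_neg]
        intro hall
        apply h1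
        intro i hi1 hi2
        have := hall.1 t (by omega) i hi1 hi2
        rw [rowc_snoc_lt k X x c le_rfl, rowc_snoc_last] at this
        exact this
    · rw [if_neg hX]
      symm
      apply Finset.sum_eq_zero
      intro x _
      rw [if_neg]
      intro hall
      apply hX
      refine ⟨fun j hj i hi1 hi2 => ?_, fun j hj1 hj2 i hi => ?_⟩
      · have := hall.1 j (by omega) i hi1 hi2
        rwa [rowc_snoc_lt k X x c (by omega), rowc_snoc_lt k X x c (by omega)] at this
      · have := hall.2 j hj1 (by omega) i hi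
        rwa [rowc_snoc_lt k X x c (by omega)] at this

end Semantics

section Grid

variable {V : Type} {G : SimpleGraph V} {r t : V} {K R : ℕ} {L : ℕ → ℕ → Option V}
variable {C : Type}

/-- The constraints of the rectangle, in terms of the colours of the points. -/
def lgOK (τ : C → C) (G : SimpleGraph V) (L : ℕ → ℕ → Option V) (S : ℕ → ℕ → Option Bool)
    {k t : ℕ} (X : Fin t → Fin k → C) (ρ : C) : Prop :=
  (∀ j, 1 ≤ j → j < t → ∀ i, 1 ≤ i → i ≤ k →
    vrel G (L i j) (L i (j + 1)) (colr X ρ i j) (colr X ρ i (j + 1))) ∧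
  (∀ j, 1 ≤ j → j ≤ t → ∀ i, 1 ≤ i → i ≤ k → pinOK τ (S i j) (colr X ρ i j) ρ) ∧
  (∀ j, 1 ≤ j → j ≤ t → ∀ i, i < k →
    vrel G (L i j) (L (i + 1) j) (colr X ρ i j) (colr X ρ (i + 1) j))

theorem rowc_colr {k t : ℕ} (X : Fin t → Fin k → C) (c : ℕ → C) (x : Fin k → C) {i j : ℕ}
    (hi : i ≤ k) (hj1 : 1 ≤ j) (hj2 : j ≤ t) :
    rowc k X (ov k c x) j i = colr X (c 0) i j := by
  unfold rowc colr
  rw [dif_pos ⟨hj1, hj2⟩, ov_ov]
  by_cases hi1 : 1 ≤ i
  · rw [dif_pos ⟨⟨hi1, hi⟩, ⟨hj1, hj2⟩⟩]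
    unfold ov
    rw [dif_pos ⟨hi1, hi⟩]
  · have : i = 0 := by omega
    subst this
    rw [dif_neg (by omega), ov_out _ _ _ (by omega)]

theorem bodyOKP_iff (M : LG G r K R L) (τ : C → C) (S : ℕ → ℕ → Option Bool)
    (X : Fin R → Fin K → C) (c : ℕ → C) (x : Fin K → C) :
    bodyOKP τ G L S K X (ov K c x) ↔ lgOK τ G L S X (c 0) := by
  have h0 : ov K c x 0 = c 0 := ov_out _ _ _ (by omega)
  unfold bodyOKP lgOK
  rw [h0]
  constructor
  · rintro ⟨h1, h2⟩
    refine ⟨fun j hj1 hj2 i hi1 hi2 => ?_, fun j hj1 hj2 i hi1 hi2 => ?_,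
      fun j hj1 hj2 i hi => ?_⟩
    · have := (h1 j hj2 i hi1 hi2).1
      rwa [rowc_colr X c x hi2 hj1 (by omega), rowc_colr X c x hi2 (by omega) (by omega)] at this
    · obtain ⟨j, rfl⟩ : ∃ m, j = m + 1 := ⟨j - 1, by omega⟩
      have := (h1 j (by omega) i hi1 hi2).2
      rwa [rowc_colr X c x hi2 (by omega) (by omega)] at this
    · have := h2 j hj1 hj2 i hi
      rwa [rowc_colr X c x (by omega) hj1 (by omega), rowc_colr X c x (by omega) hj1 (by omega)]
        at this
  · rintro ⟨h1, h2, h3⟩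
    refine ⟨fun j hj i hi1 hi2 => ⟨?_, ?_⟩, fun j hj1 hj2 i hi => ?_⟩
    · by_cases hj0 : j = 0
      · subst hj0
        rw [M.row i hi1 hi2]
        refine ⟨fun v hv => absurd hv (by simp), ?_⟩
        rintro ⟨u, v, hu, _⟩
        exact absurd hu (by simp)
      · rw [rowc_colr X c x hi2 (by omega) (by omega), rowc_colr X c x hi2 (by omega) (by omega)]
        exact h1 j (by omega) hj i hi1 hi2
    · rw [rowc_colr X c x hi2 (by omega) (by omega)]
      exact h2 (j + 1) (by omega) (by omega) i hi1 hi2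
    · rw [rowc_colr X c x (by omega) hj1 hj2, rowc_colr X c x (by omega) hj1 hj2]
      exact h3 j hj1 hj2 i hi

theorem colr_zero {k t : ℕ} (X : Fin t → Fin k → C) (ρ : C) (j : ℕ) : colr X ρ 0 j = ρ := by
  unfold colr
  rw [dif_neg (by omega)]

/-- The relation between neighbouring labelled points. -/
theorem rel_of_gadj (M : LG G r K R L) {τ : C → C} {S : ℕ → ℕ → Option Bool}
    {X : Fin R → Fin K → C} {ρ : C} (h : lgOK τ G L S X ρ) {p q : ℕ × ℕ}
    (hpq : gadj p q) (hp : inR K R p) (hq : inR K R q) {u v : V} (hu : L p.1 p.2 = some u)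
    (hv : L q.1 q.2 = some v) :
    (u = v → colr X ρ p.1 p.2 = colr X ρ q.1 q.2) ∧
    (G.Adj u v → colr X ρ p.1 p.2 ≠ colr X ρ q.1 q.2) := by
  -- both relations follow from `vrel` in one of the two directions
  have key : ∀ (a b : Option V) (x y : C), a = some u → b = some v → vrel G a b x y →
      (u = v → x = y) ∧ (G.Adj u v → x ≠ y) := by
    rintro a b x y rfl rfl ⟨h1, h2⟩
    exact ⟨fun e => h1 v (by rw [e]) rfl, fun e => h2 ⟨u, v, rfl, rfl, e⟩⟩
  have key' : ∀ (a b : Option V) (x y : C), a = some v → b = some u → vrel G a b x y →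
      (u = v → y = x) ∧ (G.Adj u v → y ≠ x) := by
    rintro a b x y rfl rfl ⟨h1, h2⟩
    exact ⟨fun e => (h1 v rfl (by rw [e])).symm, fun e => (h2 ⟨v, u, rfl, rfl, e.symm⟩).symm⟩
  -- vertical neighbours
  have vert : ∀ i j, i ≤ K → j + 1 ≤ R → (∃ a, L i j = some a) →
      vrel G (L i j) (L i (j + 1)) (colr X ρ i j) (colr X ρ i (j + 1)) := by
    intro i j hi hj ha
    by_cases hi0 : i = 0
    · subst hi0
      rw [colr_zero, colr_zero, M.col j (by omega), M.col (j + 1) hj]
      exact (vrel_same ⟨rfl, by simp⟩ _ _).2 rfl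
    · by_cases hj0 : j = 0
      · subst hj0
        obtain ⟨a, ha⟩ := ha
        rw [M.row i (by omega) hi] at ha
        exact absurd ha (by simp)
      · exact h.1 j (by omega) (by omega) i (by omega) hi
  -- horizontal neighbours
  have horz : ∀ i j, i + 1 ≤ K → j ≤ R → (∃ a, L (i + 1) j = some a) →
      vrel G (L i j) (L (i + 1) j) (colr X ρ i j) (colr X ρ (i + 1) j) := by
    intro i j hi hj ha
    by_cases hj0 : j = 0
    · subst hj0
      obtain ⟨a, ha⟩ := ha
      rw [M.row (i + 1) (by omega) hi] at ha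
      exact absurd ha (by simp)
    · exact h.2.2 j (by omega) hj i (by omega)
  obtain ⟨i, j⟩ := p
  obtain ⟨i', j'⟩ := q
  simp only [gadj, inR] at hpq hp hq hu hv ⊢
  rcases hpq with ⟨rfl, rfl | rfl⟩ | ⟨rfl, rfl | rfl⟩
  · exact key _ _ _ _ hu hv (vert i j hp.1 hq.2 ⟨u, hu⟩)
  · exact key' _ _ _ _ hv hu (vert i j' hq.1 hp.2 ⟨v, hv⟩)
  · exact key _ _ _ _ hu hv (horz i j hq.1 hp.2 ⟨v, hv⟩)
  · exact key' _ _ _ _ hv hu (horz i' j hp.1 hq.2 ⟨u, hu⟩)

theorem colr_const (M : LG G r K R L) {τ : C → C} {S : ℕ → ℕ → Option Bool}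
    {X : Fin R → Fin K → C} {ρ : C} (h : lgOK τ G L S X ρ) {v : V} {p q : ℕ × ℕ}
    (hp : inR K R p) (hq : inR K R q) (hpv : L p.1 p.2 = some v) (hqv : L q.1 q.2 = some v) :
    colr X ρ p.1 p.2 = colr X ρ q.1 q.2 := by
  have hc := M.conn v p q hp hq hpv hqv
  induction hc with
  | refl => rfl
  | tail _ hbc ih =>
    rw [ih hbc.2.1 hbc.2.2.2.1]
    exact (rel_of_gadj M h hbc.1 hbc.2.1 hbc.2.2.1 hbc.2.2.2.1 hbc.2.2.2.2).1 rfl

/-- The vertex `v` has a point. -/
def HasPt (K R : ℕ) (L : ℕ → ℕ → Option V) (v : V) : Prop :=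
  ∃ p : ℕ × ℕ, inR K R p ∧ L p.1 p.2 = some v

theorem hasPt_root (M : LG G r K R L) : HasPt K R L r :=
  ⟨(0, 0), ⟨Nat.zero_le _, Nat.zero_le _⟩, M.col 0 (Nat.zero_le _)⟩

theorem hasPt_left (M : LG G r K R L) {u v : V} (h : G.Adj u v) : HasPt K R L u := by
  obtain ⟨p, q, _, hp, _, hu, _⟩ := M.edge u v h
  exact ⟨p, hp, hu⟩

theorem colr_mkX (M : LG G r K R L) (f : V → C) (g : NonePt K R L → C) {i j : ℕ} (hi : i ≤ K)
    (hj : j ≤ R) {v : V} (h : L i j = some v) : colr (mkX K R L f g) (f r) i j = f v := by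
  unfold colr
  by_cases hin : (1 ≤ i ∧ i ≤ K) ∧ (1 ≤ j ∧ j ≤ R)
  · rw [dif_pos hin]
    apply mkX_some
    simp only
    rw [show i - 1 + 1 = i by omega, show j - 1 + 1 = j by omega]
    exact h
  · rw [dif_neg hin]
    by_cases hi0 : i = 0
    · subst hi0
      rw [M.col j hj, Option.some_inj] at h
      rw [h]
    · have hj0 : j = 0 := by omega
      subst hj0
      rw [M.row i (by omega) hi] at h
      exact absurd h (by simp)

open Classical in
/-- The colours of the vertices. -/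
noncomputable def vcol (K R : ℕ) (L : ℕ → ℕ → Option V) (X : Fin R → Fin K → C) (ρ : C)
    (g : {v : V // ¬ HasPt K R L v} → C) (v : V) : C :=
  if h : HasPt K R L v then colr X ρ h.choose.1 h.choose.2 else g ⟨v, h⟩

theorem vcol_of (M : LG G r K R L) {τ : C → C} {S : ℕ → ℕ → Option Bool}
    {X : Fin R → Fin K → C} {ρ : C} (h : lgOK τ G L S X ρ)
    (g : {v : V // ¬ HasPt K R L v} → C) {v : V} {p : ℕ × ℕ} (hp : inR K R p)
    (hpv : L p.1 p.2 = some v) : vcol K R L X ρ g v = colr X ρ p.1 p.2 := by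
  have hv : HasPt K R L v := ⟨p, hp, hpv⟩
  unfold vcol
  rw [dif_pos hv]
  exact colr_const M h hv.choose_spec.1 hp hv.choose_spec.2 hpv

theorem mkX_ok (M : LG G r K R L) {j₀ : ℕ} (hct : Contact r t K R L j₀) {τ : C → C}
    {ρ : C} (f : G.Coloring C) (hf : f r = ρ ∧ (t ≠ r → f t = τ ρ)) (g : NonePt K R L → C) :
    lgOK τ G L (S0 r t j₀) (mkX K R L f g) ρ := by
  have hr : f r = ρ := hf.1
  have key : ∀ i j i' j', i ≤ K → j ≤ R → i' ≤ K → j' ≤ R →
      vrel G (L i j) (L i' j') (colr (mkX K R L f g) ρ i j)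
      (colr (mkX K R L f g) ρ i' j') := by
    intro i j i' j' hi hj hi' hj'
    rw [← hr]
    refine ⟨fun v h1 h2 => ?_, ?_⟩
    · rw [colr_mkX M _ _ hi hj h1, colr_mkX M _ _ hi' hj' h2]
    · rintro ⟨u, v, h1, h2, h3⟩
      rw [colr_mkX M _ _ hi hj h1, colr_mkX M _ _ hi' hj' h2]
      exact f.valid h3
  refine ⟨fun j hj1 hj2 i hi1 hi2 => key _ _ _ _ hi2 (by omega) hi2 (by omega),
    fun j hj1 hj2 i hi1 hi2 b hb => ?_,
    fun j hj1 hj2 i hi => key _ _ _ _ (by omega) hj2 (by omega) hj2⟩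
  unfold S0 at hb
  split_ifs at hb with hc
  · obtain ⟨htr, rfl, rfl⟩ := hc
    rw [Option.some_inj] at hb
    subst hb
    rw [if_pos rfl]
    have h3 := (hct.2 htr).2.2
    have h4 : colr (mkX K R L f g) (f r) 1 j = f t := colr_mkX M _ _ hi2 hj2 h3
    rw [hr] at h4
    rw [h4]
    exact hf.2 htr

/-- Colourings of the grid correspond to colourings of the graph and free colours. -/
noncomputable def equiv (M : LG G r K R L) {j₀ : ℕ} (hct : Contact r t K R L j₀) (τ : C → C)
    (ρ : C) :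
    {X : Fin R → Fin K → C // lgOK τ G L (S0 r t j₀) X ρ} × ({v : V // ¬ HasPt K R L v} → C) ≃
      {f : G.Coloring C // f r = ρ ∧ (t ≠ r → f t = τ ρ)} × (NonePt K R L → C) where
  toFun z := (⟨SimpleGraph.Coloring.mk (vcol K R L z.1.1 ρ z.2) (by
      intro u v huv
      obtain ⟨p, q, hpq, hp, hq, hu, hv⟩ := M.edge u v huv
      rw [vcol_of M z.1.2 z.2 hp hu, vcol_of M z.1.2 z.2 hq hv]
      exact (rel_of_gadj M z.1.2 hpq hp hq hu hv).2 huv), by
      constructor
      · change vcol K R L z.1.1 ρ z.2 r = ρ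
        rw [vcol_of M z.1.2 z.2 (p := (0, 0)) ⟨Nat.zero_le _, Nat.zero_le _⟩
          (M.col 0 (Nat.zero_le _))]
        exact colr_zero _ _ _
      · intro htr
        obtain ⟨h1, h2, h3⟩ := hct.2 htr
        change vcol K R L z.1.1 ρ z.2 t = τ ρ
        rw [vcol_of M z.1.2 z.2 (p := (1, j₀)) ⟨hct.1, h2⟩ h3]
        have hpin := z.1.2.2.1 j₀ h1 h2 1 le_rfl hct.1 true (by
          unfold S0
          rw [if_pos ⟨htr, rfl, rfl⟩])
        rw [if_pos rfl] at hpin
        exact hpin⟩, fun p => z.1.1 p.1.1 p.1.2)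
  invFun w := (⟨mkX K R L w.1.1 w.2, mkX_ok M hct w.1.1 w.1.2 w.2⟩, fun v => w.1.1 v.1)
  left_inv z := by
    obtain ⟨⟨X, hX⟩, g⟩ := z
    refine Prod.ext ?_ ?_
    · apply Subtype.ext
      funext j i
      change mkX K R L (vcol K R L X ρ g) (fun p => X p.1.1 p.1.2) j i = X j i
      by_cases h : L (i.1 + 1) (j.1 + 1) = none
      · unfold mkX
        rw [dif_pos h]
      · obtain ⟨v, hv⟩ := Option.ne_none_iff_exists'.1 h
        rw [mkX_some _ _ hv]
        have h2 := vcol_of M hX g (p := (i.1 + 1, j.1 + 1))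
          ⟨by simp only; omega, by simp only; omega⟩ hv
        rw [h2]
        unfold colr
        rw [dif_pos ⟨⟨by omega, by omega⟩, ⟨by omega, by omega⟩⟩]
        simp
    · funext v
      change vcol K R L X ρ g v.1 = g v
      unfold vcol
      rw [dif_neg v.2]
  right_inv w := by
    obtain ⟨⟨f, hf⟩, g⟩ := w
    have hX : lgOK τ G L (S0 r t j₀) (mkX K R L f g) ρ := mkX_ok M hct f hf g
    refine Prod.ext ?_ ?_
    · apply Subtype.ext
      apply RelHom.ext
      intro v
      change vcol K R L (mkX K R L f g) ρ (fun v => f v.1) v = f v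
      by_cases hv : HasPt K R L v
      · obtain ⟨p, hp, hpv⟩ := hv
        rw [vcol_of M hX _ hp hpv]
        have h4 : colr (mkX K R L f g) (f r) p.1 p.2 = f v := colr_mkX M _ _ hp.1 hp.2 hpv
        rw [hf.1] at h4
        exact h4
      · unfold vcol
        rw [dif_neg hv]
    · funext p
      change mkX K R L f g p.1.1 p.1.2 = g p
      unfold mkX
      rw [dif_pos p.2]

end Grid

end PC

open PC in
theorem count_LG {V : Type} [Fintype V] {G : SimpleGraph V} {r t : V} {K R : ℕ}
    {L : ℕ → ℕ → Option V} (M : LG G r K R L) {j₀ : ℕ} (hct : Contact r t K R L j₀) :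
    ∃ a b : ℕ, ∀ (C : Type) [Fintype C] [DecidableEq C] (τ : C → C) (c : ℕ → C),
      (Fintype.card C : ℝ) ^ b * cS C K (cWP C τ (bodyW G L (S0 r t j₀) K R) (fun _ => 1)) c =
      (Fintype.card C : ℝ) ^ a *
        (Nat.card {f : G.Coloring C // f r = c 0 ∧ (t ≠ r → f t = τ (c 0))} : ℝ) := by
  classical
  refine ⟨K + Fintype.card (NonePt K R L), Fintype.card {v : V // ¬ HasPt K R L v}, ?_⟩
  intro C _ _ τ c
  have h1 : cS C K (cWP C τ (bodyW G L (S0 r t j₀) K R) (fun _ => 1)) c =
      (Fintype.card C : ℝ) ^ K *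
        (Nat.card {X : Fin R → Fin K → C // lgOK τ G L (S0 r t j₀) X (c 0)} : ℝ) := by
    rw [cS_apply]
    have h2 : ∀ x : Fin K → C, cWP C τ (bodyW G L (S0 r t j₀) K R) (fun _ => 1) (ov K c x) =
        (Nat.card {X : Fin R → Fin K → C // lgOK τ G L (S0 r t j₀) X (c 0)} : ℝ) := by
      intro x
      rw [cWP_bodyW, Nat.card_eq_fintype_card, Fintype.card_subtype, ← Finset.sum_boole]
      apply Finset.sum_congr rfl
      intro X _
      by_cases hX : lgOK τ G L (S0 r t j₀) X (c 0)
      · rw [if_pos hX, if_pos ((bodyOKP_iff M τ _ X c x).2 hX)]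
      · rw [if_neg hX, if_neg (fun h => hX ((bodyOKP_iff M τ _ X c x).1 h))]
    rw [Finset.sum_congr rfl (fun x _ => h2 x), Finset.sum_const, Finset.card_univ,
      Fintype.card_fun, Fintype.card_fin, nsmul_eq_mul]
    push_cast
    rfl
  have h3 := Nat.card_congr (equiv M hct τ (c 0))
  rw [Nat.card_prod, Nat.card_prod, Nat.card_eq_fintype_card (α := {v : V // ¬ HasPt K R L v} → C),
    Nat.card_eq_fintype_card (α := NonePt K R L → C), Fintype.card_fun, Fintype.card_fun] at h3
  have h4 : (Nat.card {X : Fin R → Fin K → C // lgOK τ G L (S0 r t j₀) X (c 0)} : ℝ) *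
      (Fintype.card C : ℝ) ^ Fintype.card {v : V // ¬ HasPt K R L v} =
      (Nat.card {f : G.Coloring C // f r = c 0 ∧ (t ≠ r → f t = τ (c 0))} : ℝ) *
      (Fintype.card C : ℝ) ^ Fintype.card (NonePt K R L) := by
    exact_mod_cast h3
  rw [h1, pow_add]
  linear_combination (Fintype.card C : ℝ) ^ K * h4

end Pool.Agent.Helper55.BLD
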