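import Mathlib
import Pool.Agent.Helper55.BLD.BAlg
import Pool.Agent.Helper55.BLD.GHeight
import Pool.Agent.Helper55.BLD.ColPin

/-!
The evaluation of a network with pins is one polynomial in all representations.
-/

set_option autoImplicit false

namespace Pool.Agent.Helper55.BLD

open Pool.Agent.Helper70.BLB Polynomial

/-- The colouring algebra with `n + 2` colours. -/
abbrev CAlP (n : ℕ) : Type := Module.End ℝ ((ℕ → Fin (n + 2)) → ℝ)

/-- The height algebra. -/
abbrev HAlP (A : Type) : Type := Module.End ℝ ((ℕ → A) → ℝ)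

/-- All colouring algebras and the height algebra together. -/
abbrev BigP (A : Type) : Type := (∀ n : ℕ, CAlP n) × HAlP A

section General

theorem OpP.map_val {R S : Type*} [Ring R] [Ring S] (φ : R →+* S) (d dinv : R) (e : ℕ → R)
    (P : Bool → ℕ → R) (o : OpP) : φ (o.val d dinv e P) =
      o.val (φ d) (φ dinv) (fun k => φ (e k)) (fun b i => φ (P b i)) := by
  cases o <;> simp [OpP.val]

theorem map_WP {R S : Type*} [Ring R] [Ring S] (φ : R →+* S) (d dinv : R) (e : ℕ → R)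
    (P : Bool → ℕ → R) (ops : List OpP) : φ (WP d dinv e P ops) =
      WP (φ d) (φ dinv) (fun k => φ (e k)) (fun b i => φ (P b i)) ops := by
  unfold WP
  rw [map_list_prod, List.map_map]
  congr 1
  apply List.map_congr_left
  intro o _
  exact OpP.map_val φ d dinv e P o

end General

section Big

variable {A : Type} (nb : A → Finset A) (S : A → ℝ) (δ : ℝ) (o l : A)

noncomputable def bD (A : Type) (δ : ℝ) : BigP A := (fun n => cδ (n + 1) • 1, δ • 1)
noncomputable def bDinv (A : Type) (δ : ℝ) : BigP A := (fun n => (cδ (n + 1))⁻¹ • 1, δ⁻¹ • 1)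
noncomputable def bE [DecidableEq A] (k : ℕ) : BigP A :=
  (fun n => cE (Fin (n + 2)) (cδ (n + 1)) k, gE nb S o k)
noncomputable def bP [DecidableEq A] (b : Bool) (i : ℕ) : BigP A :=
  (fun n => cPn (Fin (n + 2)) (fun x => x + 1) b i, gP o l b i)

end Big

variable {A : Type} [DecidableEq A]

theorem cδ_sq' (n : ℕ) : cδ (n + 1) ^ 2 = (Fintype.card (Fin (n + 2)) : ℝ) := by
  rw [cδ_sq]
  simp
  ring

theorem big_BRel {nb : A → Finset A} {S : A → ℝ} {δ : ℝ} {vt : A → Prop} {o l c g f : A}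
    (H : HGood nb S δ vt o l c g f) :
    BRel (bD A δ) (bDinv A δ) (bE nb S o) (bP o l true 1) := by
  have hC : ∀ n : ℕ, BRel (R := CAlP n) (cδ (n + 1) • 1) ((cδ (n + 1))⁻¹ • 1)
      (cE (Fin (n + 2)) (cδ (n + 1))) (cPn (Fin (n + 2)) (fun x => x + 1) true 1) := fun n =>
    cB_rel (fun x h => by
      have h2 := congrArg (fun y => y - x) h
      simp at h2) (cδ_pos _) (cδ_sq' n)
  have hH := gB_rel H
  exact
    { tl :=
        { dcomm := fun i => Prod.ext (funext fun n => (hC n).tl.dcomm i) (hH.tl.dcomm i)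
          sq := fun i hi => Prod.ext (funext fun n => (hC n).tl.sq i hi) (hH.tl.sq i hi)
          up := fun i hi => Prod.ext (funext fun n => (hC n).tl.up i hi) (hH.tl.up i hi)
          down := fun i hi => Prod.ext (funext fun n => (hC n).tl.down i hi) (hH.tl.down i hi)
          comm := fun i j hi hij => Prod.ext (funext fun n => (hC n).tl.comm i j hi hij)
            (hH.tl.comm i j hi hij) }
      dd := Prod.ext (funext fun n => (hC n).dd) hH.dd
      dc := fun x => Prod.ext (funext fun n => (hC n).dc (x.1 n)) (hH.dc x.2)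
      dic := fun x => Prod.ext (funext fun n => (hC n).dic (x.1 n)) (hH.dic x.2)
      bb := Prod.ext (funext fun n => (hC n).bb) hH.bb
      be := Prod.ext (funext fun n => (hC n).be) hH.be
      eb := Prod.ext (funext fun n => (hC n).eb) hH.eb
      ebe := Prod.ext (funext fun n => (hC n).ebe) hH.ebe
      bc := fun j hj => Prod.ext (funext fun n => (hC n).bc j hj) (hH.bc j hj) }

/-- The sandwich of `x` is given by one polynomial in all representations. -/
def GoodP (nb : A → Finset A) (S : A → ℝ) (δ : ℝ) (o : A) (m : ℕ) (x : BigP A) : Prop :=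
  ∃ (Q : ℝ[X]) (K : ℕ),
    (∀ n, cδ (n + 1) ^ K • (TLX (cE (Fin (n + 2)) (cδ (n + 1))) (2 * m) * x.1 n *
        TLX (cE (Fin (n + 2)) (cδ (n + 1))) (2 * m)) =
      Q.eval (cδ (n + 1)) • TLX (cE (Fin (n + 2)) (cδ (n + 1))) (2 * m)) ∧
    δ ^ K • (TLX (gE nb S o) (2 * m) * x.2 * TLX (gE nb S o) (2 * m)) =
      Q.eval δ • TLX (gE nb S o) (2 * m)

section

variable {nb : A → Finset A} {S : A → ℝ} {δ : ℝ} {o l : A}

theorem bE_TLX_fst (m n : ℕ) :
    (TLX (bE nb S o) m).1 n = TLX (cE (Fin (n + 2)) (cδ (n + 1))) m :=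
  map_TLX ((Pi.evalMonoidHom (fun n : ℕ => CAlP n) n).comp (MonoidHom.fst _ _)) (bE nb S o) m

theorem bE_TLX_snd (m : ℕ) : (TLX (bE nb S o) m).2 = TLX (gE nb S o) m :=
  map_TLX (MonoidHom.snd (∀ n : ℕ, CAlP n) (HAlP A)) (bE nb S o) m

theorem GoodP.of_mem {vt : A → Prop} {c g f : A} (H : HGood nb S δ vt o l c g f) {m : ℕ}
    (hm : 1 ≤ m) {w : BigP A} (hw : w ∈ TLB (bD A δ) (bDinv A δ) (bE nb S o) (bP o l true 1)
      (2 * m)) : GoodP nb S δ o m w := by
  rcases (big_BRel H).sandwich_X m hm w hw with h0 | ⟨i, j, hj⟩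
  · refine ⟨0, 0, fun n => ?_, ?_⟩
    · have h1 : (TLX (bE nb S o) (2 * m)).1 n * w.1 n * (TLX (bE nb S o) (2 * m)).1 n = 0 :=
        congrArg (fun z : BigP A => z.1 n) h0
      rw [bE_TLX_fst] at h1
      rw [h1, eval_zero, zero_smul, smul_zero]
    · have h1 : (TLX (bE nb S o) (2 * m)).2 * w.2 * (TLX (bE nb S o) (2 * m)).2 = 0 :=
        congrArg (fun z : BigP A => z.2) h0
      rw [bE_TLX_snd] at h1
      rw [h1, eval_zero, zero_smul, smul_zero]
  · have hδ := H.hδ
    have hne : δ ≠ 0 := by linarith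
    refine ⟨X ^ i, j, fun n => ?_, ?_⟩
    · have h1 : (TLX (bE nb S o) (2 * m)).1 n * w.1 n * (TLX (bE nb S o) (2 * m)).1 n =
          (cδ (n + 1) • (1 : CAlP n)) ^ i * ((cδ (n + 1))⁻¹ • (1 : CAlP n)) ^ j *
            (TLX (bE nb S o) (2 * m)).1 n := congrArg (fun z : BigP A => z.1 n) hj
      rw [bE_TLX_fst] at h1
      have hcne := (cδ_pos (n + 1)).ne'
      rw [h1, eval_pow, eval_X, _root_.smul_pow, _root_.smul_pow, one_pow, one_pow,
        smul_mul_smul_comm, one_mul, smul_mul_assoc, one_mul, smul_smul]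
      congr 1
      rw [inv_pow]
      field_simp
    · have h1 : (TLX (bE nb S o) (2 * m)).2 * w.2 * (TLX (bE nb S o) (2 * m)).2 =
          (δ • (1 : HAlP A)) ^ i * (δ⁻¹ • (1 : HAlP A)) ^ j *
            (TLX (bE nb S o) (2 * m)).2 := congrArg (fun z : BigP A => z.2) hj
      rw [bE_TLX_snd] at h1
      rw [h1, eval_pow, eval_X, _root_.smul_pow, _root_.smul_pow, one_pow, one_pow,
        smul_mul_smul_comm, one_mul, smul_mul_assoc, one_mul, smul_smul]
      congr 1
      rw [inv_pow]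
      field_simp

theorem GoodP.d_mul {m : ℕ} {x : BigP A} (hx : GoodP nb S δ o m x) :
    GoodP nb S δ o m (bD A δ * x) := by
  obtain ⟨Q, K, h1, h2⟩ := hx
  refine ⟨X * Q, K, fun n => ?_, ?_⟩
  · have : (bD A δ * x).1 n = cδ (n + 1) • x.1 n := by
      change (cδ (n + 1) • (1 : CAlP n)) * x.1 n = _
      rw [smul_mul_assoc, one_mul]
    rw [this, mul_smul_comm, smul_mul_assoc, smul_comm, h1, eval_mul, eval_X, mul_smul]
  · have : (bD A δ * x).2 = δ • x.2 := by
      change (δ • (1 : HAlP A)) * x.2 = _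
      rw [smul_mul_assoc, one_mul]
    rw [this, mul_smul_comm, smul_mul_assoc, smul_comm, h2, eval_mul, eval_X, mul_smul]

theorem GoodP.dinv_mul (hδ : 2 ≤ δ) {m : ℕ} {x : BigP A} (hx : GoodP nb S δ o m x) :
    GoodP nb S δ o m (bDinv A δ * x) := by
  obtain ⟨Q, K, h1, h2⟩ := hx
  refine ⟨Q, K + 1, fun n => ?_, ?_⟩
  · have : (bDinv A δ * x).1 n = (cδ (n + 1))⁻¹ • x.1 n := by
      change ((cδ (n + 1))⁻¹ • (1 : CAlP n)) * x.1 n = _
      rw [smul_mul_assoc, one_mul]
    have hne := (cδ_pos (n + 1)).ne'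
    rw [this, mul_smul_comm, smul_mul_assoc, smul_smul, pow_succ, mul_assoc,
      mul_inv_cancel₀ hne, mul_one, h1]
  · have : (bDinv A δ * x).2 = δ⁻¹ • x.2 := by
      change (δ⁻¹ • (1 : HAlP A)) * x.2 = _
      rw [smul_mul_assoc, one_mul]
    have hne : δ ≠ 0 := by linarith
    rw [this, mul_smul_comm, smul_mul_assoc, smul_smul, pow_succ, mul_assoc,
      mul_inv_cancel₀ hne, mul_one, h2]

theorem GoodP.sub {m : ℕ} {x y : BigP A} (hx : GoodP nb S δ o m x) (hy : GoodP nb S δ o m y) :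
    GoodP nb S δ o m (x - y) := by
  obtain ⟨Q, K, h1, h2⟩ := hx
  obtain ⟨Q', K', h1', h2'⟩ := hy
  refine ⟨X ^ K' * Q - X ^ K * Q', K + K', fun n => ?_, ?_⟩
  · have h0 : (x - y).1 n = x.1 n - y.1 n := rfl
    have e1 := congrArg (fun z => cδ (n + 1) ^ K' • z) (h1 n)
    have e2 := congrArg (fun z => cδ (n + 1) ^ K • z) (h1' n)
    simp only [smul_smul] at e1 e2
    have e3 : (X ^ K' * Q - X ^ K * Q').eval (cδ (n + 1)) =
        cδ (n + 1) ^ K' * Q.eval (cδ (n + 1)) - cδ (n + 1) ^ K * Q'.eval (cδ (n + 1)) := by simp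
    rw [h0, mul_sub, sub_mul, smul_sub, e3]
    have e4 := sub_smul (cδ (n + 1) ^ K' * Q.eval (cδ (n + 1)))
      (cδ (n + 1) ^ K * Q'.eval (cδ (n + 1)))
      (TLX (cE (Fin (n + 2)) (cδ (n + 1))) (2 * m))
    rw [e4, ← e1, ← e2, pow_add, mul_comm (cδ (n + 1) ^ K) (cδ (n + 1) ^ K')]
  · have h0 : (x - y).2 = x.2 - y.2 := rfl
    have e1 := congrArg (fun z => δ ^ K' • z) h2
    have e2 := congrArg (fun z => δ ^ K • z) h2'
    simp only [smul_smul] at e1 e2
    have e3 : (X ^ K' * Q - X ^ K * Q').eval δ =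
        δ ^ K' * Q.eval δ - δ ^ K * Q'.eval δ := by simp
    rw [h0, mul_sub, sub_mul, smul_sub, e3]
    have e4 := sub_smul (δ ^ K' * Q.eval δ) (δ ^ K * Q'.eval δ)
      (TLX (gE nb S o) (2 * m))
    rw [e4, ← e1, ← e2, pow_add, mul_comm (δ ^ K) (δ ^ K')]

theorem GoodP.ops {vt : A → Prop} {c g f : A} (H : HGood nb S δ vt o l c g f) (m : ℕ)
    (hm : 1 ≤ m) : ∀ (ops : List OpP), (∀ x ∈ ops, OpP.ok m x) →
    ∀ w ∈ TLB (bD A δ) (bDinv A δ) (bE nb S o) (bP o l true 1) (2 * m),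
      GoodP nb S δ o m (w * WP (bD A δ) (bDinv A δ) (bE nb S o) (bP o l) ops)
  | [], _, w, hw => by
    rw [WP_nil, mul_one]
    exact GoodP.of_mem H hm hw
  | (x :: ops), hok, w, hw => by
    have IH := GoodP.ops H m hm ops (fun o ho => hok o (List.mem_cons_of_mem _ ho))
    have ho := hok x List.mem_cons_self
    have hB := big_BRel H
    have hδ := H.hδ
    rw [WP_cons]
    set W := WP (bD A δ) (bDinv A δ) (bE nb S o) (bP o l) ops with hWdef
    cases x with
    | J i =>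
      have hi : i + 1 ≤ m := ho
      have h1 := IH (w * bE nb S o (2 * i + 1)) (mul_mem hw (e_mem_TLB (by omega) (by omega)))
      have h2 := h1.dinv_mul hδ
      have h3 : w * (OpP.val (bD A δ) (bDinv A δ) (bE nb S o) (bP o l) (OpP.J i) * W) =
          bDinv A δ * (w * bE nb S o (2 * i + 1) * W) := by
        simp only [OpP.val]
        rw [← mul_assoc, ← mul_assoc w, ← hB.dic w, mul_assoc, mul_assoc, mul_assoc]
      rw [h3]; exact h2
    | H i =>
      have hi : i + 1 ≤ m := ho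
      have h1 := IH (w * bE nb S o (2 * i + 1)) (mul_mem hw (e_mem_TLB (by omega) (by omega)))
      have h2 := h1.dinv_mul hδ
      have h4 := (IH w hw).sub h2
      have h3 : w * (OpP.val (bD A δ) (bDinv A δ) (bE nb S o) (bP o l) (OpP.H i) * W) =
          w * W - bDinv A δ * (w * bE nb S o (2 * i + 1) * W) := by
        simp only [OpP.val]
        rw [sub_mul, one_mul, mul_sub, ← mul_assoc, ← mul_assoc w, ← hB.dic w, mul_assoc,
          mul_assoc, mul_assoc]
      rw [h3]; exact h4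
    | D i =>
      obtain ⟨hi1, hi2⟩ : 1 ≤ i ∧ i ≤ m := ho
      have h1 := IH (w * bE nb S o (2 * i)) (mul_mem hw (e_mem_TLB (by omega) (by omega)))
      have h2 := h1.d_mul
      have h3 : w * (OpP.val (bD A δ) (bDinv A δ) (bE nb S o) (bP o l) (OpP.D i) * W) =
          bD A δ * (w * bE nb S o (2 * i) * W) := by
        simp only [OpP.val]
        rw [← mul_assoc, ← mul_assoc w, ← hB.dc w, mul_assoc, mul_assoc, mul_assoc]
      rw [h3]; exact h2
    | V i =>
      obtain ⟨hi1, hi2⟩ : 1 ≤ i ∧ i ≤ m := ho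
      have h1 := IH (w * bE nb S o (2 * i)) (mul_mem hw (e_mem_TLB (by omega) (by omega)))
      have h2 := h1.d_mul
      have h4 := h2.sub (IH w hw)
      have h3 : w * (OpP.val (bD A δ) (bDinv A δ) (bE nb S o) (bP o l) (OpP.V i) * W) =
          bD A δ * (w * bE nb S o (2 * i) * W) - w * W := by
        simp only [OpP.val]
        rw [sub_mul, one_mul, mul_sub, ← mul_assoc, ← mul_assoc w, ← hB.dc w, mul_assoc,
          mul_assoc, mul_assoc]
      rw [h3]; exact h4
    | P b i =>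
      obtain ⟨rfl, rfl⟩ : b = true ∧ i = 1 := ho
      have h1 := IH (w * bP o l true 1) (mul_mem hw (b_mem_TLB _))
      have h3 : w * (OpP.val (bD A δ) (bDinv A δ) (bE nb S o) (bP o l) (OpP.P true 1) * W) =
          w * bP o l true 1 * W := by
        simp only [OpP.val]
        rw [mul_assoc]
      rw [h3]; exact h1

end

theorem transferP {nb : A → Finset A} {S : A → ℝ} {δ : ℝ} {vt : A → Prop} {o l c g f : A}
    (H : HGood nb S δ vt o l c g f) (m : ℕ) (hm : 1 ≤ m) (ops : List OpP)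
    (hok : ∀ x ∈ ops, OpP.ok m x) :
    ∃ (Q : ℝ[X]) (K : ℕ),
    (∀ n : ℕ, cδ (n + 1) ^ K • (TLX (cE (Fin (n + 2)) (cδ (n + 1))) (2 * m) *
        WP (cδ (n + 1) • 1) ((cδ (n + 1))⁻¹ • 1) (cE (Fin (n + 2)) (cδ (n + 1)))
          (cPn (Fin (n + 2)) (fun x => x + 1)) ops *
        TLX (cE (Fin (n + 2)) (cδ (n + 1))) (2 * m)) =
      Q.eval (cδ (n + 1)) • TLX (cE (Fin (n + 2)) (cδ (n + 1))) (2 * m)) ∧
    δ ^ K • (TLX (gE nb S o) (2 * m) * WP (δ • 1) (δ⁻¹ • 1) (gE nb S o) (gP o l) ops *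
        TLX (gE nb S o) (2 * m)) = Q.eval δ • TLX (gE nb S o) (2 * m) := by
  obtain ⟨Q, K, h1, h2⟩ := GoodP.ops H m hm ops hok 1 (one_mem _)
  rw [one_mul] at h1 h2
  refine ⟨Q, K, fun n => ?_, ?_⟩
  · have h := h1 n
    have h5 : (WP (bD A δ) (bDinv A δ) (bE nb S o) (bP o l) ops).1 n =
        WP (cδ (n + 1) • 1) ((cδ (n + 1))⁻¹ • 1) (cE (Fin (n + 2)) (cδ (n + 1)))
          (cPn (Fin (n + 2)) (fun x => x + 1)) ops :=
      map_WP ((Pi.evalRingHom (fun n : ℕ => CAlP n) n).comp (RingHom.fst _ _))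
        (bD A δ) (bDinv A δ) (bE nb S o) (bP o l) ops
    rw [h5] at h
    exact h
  · have h5 : (WP (bD A δ) (bDinv A δ) (bE nb S o) (bP o l) ops).2 =
        WP (δ • 1) (δ⁻¹ • 1) (gE nb S o) (gP o l) ops :=
      map_WP (RingHom.snd (∀ n : ℕ, CAlP n) (HAlP A))
        (bD A δ) (bDinv A δ) (bE nb S o) (bP o l) ops
    rw [h5] at h2
    exact h2

end Pool.Agent.Helper55.BLD
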