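import Mathlib
import Pool.Agent.Helper55.BLD.PTransfer
import Pool.Agent.Helper55.BLD.PinMove
import Pool.Agent.Helper55.BLD.PCount
import Pool.Agent.Helper55.BLD.HPos
import Pool.Agent.Helper55.BLD.Inst
import Pool.Agent.Helper55.BLD.ColCount

/-!
Positivity of the chromatic polynomial from a labelled grid with two special vertices.
-/

set_option autoImplicit false

namespace Pool.Agent.Helper55.BLD

open Pool.Agent.Helper70.BLB Polynomial

section

variable {V : Type} {G : SimpleGraph V} {r t : V} {K R : ℕ} {L : ℕ → ℕ → Option V} {j₀ : ℕ}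

theorem vopP_ok {m i : ℕ} (hi : 1 ≤ i) (him : i ≤ m) (a b : Option V) :
    ∀ x ∈ vopP G i a b, OpP.ok m x := by
  classical
  intro x hx
  unfold vopP at hx
  split_ifs at hx with h1 h2
  · simp at hx
  · rw [List.mem_singleton] at hx; subst hx; exact ⟨hi, him⟩
  · rw [List.mem_singleton] at hx; subst hx; exact ⟨hi, him⟩

theorem hopP_ok {m i : ℕ} (him : i + 1 ≤ m) (a b : Option V) :
    ∀ x ∈ hopP G i a b, OpP.ok m x := by
  classical
  intro x hx
  unfold hopP at hx
  split_ifs at hx with h1 h2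
  · rw [List.mem_singleton] at hx; subst hx; exact him
  · rw [List.mem_singleton] at hx; subst hx; exact him
  · simp at hx

theorem pinP_ok {m i j : ℕ} : ∀ x ∈ pinP i (S0 r t j₀ i j), OpP.ok m x := by
  classical
  intro x hx
  unfold S0 at hx
  split_ifs at hx with h1
  · have : pinP i (some true) = [OpP.P true i] := rfl
    rw [this, List.mem_singleton] at hx
    subst hx
    exact ⟨rfl, h1.2.1⟩
  · have : pinP i none = [] := rfl
    rw [this] at hx
    simp at hx

theorem stepW_ok {m j : ℕ} : ∀ k, k ≤ m → ∀ x ∈ stepW G L (S0 r t j₀) j k, OpP.ok m x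
  | 0, _, x, hx => by
    have : stepW G L (S0 r t j₀) j 0 = [] := rfl
    rw [this] at hx; simp at hx
  | (k + 1), hk, x, hx => by
    have e : stepW G L (S0 r t j₀) j (k + 1) = stepW G L (S0 r t j₀) j k ++
      (vopP G (k + 1) (L (k + 1) j) (L (k + 1) (j + 1)) ++
        pinP (k + 1) (S0 r t j₀ (k + 1) (j + 1))) := rfl
    rw [e, List.mem_append, List.mem_append] at hx
    rcases hx with hx | hx | hx
    · exact stepW_ok k (by omega) x hx
    · exact vopP_ok (by omega) hk _ _ x hx
    · exact pinP_ok x hx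

theorem horW_ok {m j : ℕ} : ∀ k, k ≤ m → ∀ x ∈ horW G L j k, OpP.ok m x
  | 0, _, x, hx => by
    have : horW G L j 0 = [] := rfl
    rw [this] at hx; simp at hx
  | (k + 1), hk, x, hx => by
    have e : horW G L j (k + 1) = horW G L j k ++ hopP G k (L k j) (L (k + 1) j) := rfl
    rw [e, List.mem_append] at hx
    rcases hx with hx | hx
    · exact horW_ok k (by omega) x hx
    · exact hopP_ok hk _ _ x hx

theorem bodyW_ok {m : ℕ} : ∀ n, ∀ x ∈ bodyW G L (S0 r t j₀) m n, OpP.ok m x
  | 0, x, hx => by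
    have : bodyW G L (S0 r t j₀) m 0 = [] := rfl
    rw [this] at hx; simp at hx
  | (n + 1), x, hx => by
    have e : bodyW G L (S0 r t j₀) m (n + 1) = bodyW G L (S0 r t j₀) m n ++
      (stepW G L (S0 r t j₀) n m ++ horW G L (n + 1) m) := rfl
    rw [e, List.mem_append, List.mem_append] at hx
    rcases hx with hx | hx | hx
    · exact bodyW_ok n x hx
    · exact stepW_ok m le_rfl x hx
    · exact horW_ok m le_rfl x hx

end

theorem cδ_inj' : Function.Injective (fun n : ℕ => cδ (n + 1)) := by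
  intro a b h
  have := congrArg (fun x => x ^ 2) h
  simp only [cδ_sq] at this
  push_cast at this
  have h2 : (a : ℝ) = b := by linarith
  exact_mod_cast h2

theorem add_one_ne (n : ℕ) (x : Fin (n + 2)) : x + 1 ≠ x := by
  intro h
  have h1 : (1 : Fin (n + 2)) = 0 := by
    have h2 := congrArg (fun z => z - x) h
    simp at h2
  exact absurd h1 (by simp)

/-- Positivity from a labelled grid: the root and `t` are special (`t = r` allowed), and if
`t ≠ r` they are adjacent. -/
theorem base_pos {V : Type} [Fintype V] {G : SimpleGraph V} {r t : V} {K R : ℕ}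
    {L : ℕ → ℕ → Option V} (M : LG G r K R L) {j₀ : ℕ} (hct : Contact r t K R L j₀)
    (hrt : t ≠ r → G.Adj r t) {cl : V → Bool} (hcl : Cl2 G r t cl) (p : ℝ[X])
    (hp : ∀ n : ℕ, p.eval (n : ℝ) = nc G n) {q : ℝ} (hq : 4 ≤ q) : 0 < p.eval q := by
  classical
  set δ : ℝ := Real.sqrt q with hδdef
  have hδ : 2 ≤ δ := by
    rw [hδdef]
    apply Real.le_sqrt_of_sq_le
    linarith
  have hδ2 : δ ^ 2 = q := by
    rw [hδdef]
    exact Real.sq_sqrt (by linarith)
  have hδ0 : 0 < δ := by linarith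
  obtain ⟨A, hdec, nb, S, vt, o, l, c, g, f, H⟩ := exists_HGood hδ
  obtain ⟨Q, K', hcolr, hhe⟩ := transferP H K hct.1 (bodyW G L (S0 r t j₀) K R)
    (bodyW_ok R)
  rw [body_pins (gP_rel H) M hct] at hhe
  have hQ : 0 < Q.eval δ := height_posP H M.col M.row hcl hhe
  obtain ⟨a, b, hcount⟩ := count_LG M hct
  -- the number of colourings with fixed colours of the special vertices
  have hfix : ∀ n : ℕ, ∃ N0 : ℝ, nc G (n + 2) = (if t = r then (n + 2 : ℝ) else
      (n + 2 : ℝ) * (n + 1)) * N0 ∧ (Nat.card {f : G.Coloring (Fin (n + 2)) //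
        f r = (0 : Fin (n + 2)) ∧ (t ≠ r → f t = (0 : Fin (n + 2)) + 1)} : ℝ) = N0 := by
    intro n
    refine ⟨_, ?_, rfl⟩
    by_cases h : t = r
    · rw [if_pos h, nc_fix_one (G := G) r n 0]
      congr 2
      have : ∀ f : G.Coloring (Fin (n + 2)), (f r = (0 : Fin (n + 2))) ↔
          (f r = (0 : Fin (n + 2)) ∧ (t ≠ r → f t = (0 : Fin (n + 2)) + 1)) := by
        intro f
        exact ⟨fun h1 => ⟨h1, fun h2 => absurd h h2⟩, fun h1 => h1.1⟩
      exact Nat.card_congr (Equiv.subtypeEquivRight this)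
    · rw [if_neg h, nc_fix_two (hrt h) n 0 (0 + 1) (add_one_ne n 0).symm]
      congr 2
      have : ∀ f : G.Coloring (Fin (n + 2)), (f r = (0 : Fin (n + 2)) ∧
          f t = (0 : Fin (n + 2)) + 1) ↔
          (f r = (0 : Fin (n + 2)) ∧ (t ≠ r → f t = (0 : Fin (n + 2)) + 1)) := by
        intro f
        exact ⟨fun h1 => ⟨h1.1, fun _ => h1.2⟩, fun h1 => ⟨h1.1, h1.2 h⟩⟩
      exact Nat.card_congr (Equiv.subtypeEquivRight this)
  have key : (X ^ (K' + 2 * a) * p.comp (X ^ 2) : ℝ[X]) =
      (if t = r then X ^ 2 else X ^ 2 * (X ^ 2 - 1)) * Q * X ^ (2 * b + K) := by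
    apply Polynomial.eq_of_infinite_eval_eq
    apply Set.Infinite.mono _ (Set.infinite_range_of_injective cδ_inj')
    rintro _ ⟨n, rfl⟩
    show eval (cδ (n + 1)) (X ^ (K' + 2 * a) * p.comp (X ^ 2)) = eval (cδ (n + 1)) _
    have hsq : cδ (n + 1) ^ 2 = (n : ℝ) + 2 := by
      rw [cδ_sq]; push_cast; ring
    have hcard : (Fintype.card (Fin (n + 2)) : ℝ) = cδ (n + 1) ^ 2 := by
      rw [Fintype.card_fin, hsq]; push_cast; ring
    have h2 := color_evalP (C := Fin (n + 2)) (τ := fun x => x + 1) (cδ_pos (n + 1))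
      hcard.symm (hcolr n) (fun _ => 0)
    have h3 := hcount (Fin (n + 2)) (fun x => x + 1) (fun _ => 0)
    obtain ⟨N0, h4, h5⟩ := hfix n
    rw [h5, hcard] at h3
    have h6 := hp (n + 2)
    push_cast at h6
    rw [h4] at h6
    have h7 : eval (cδ (n + 1)) (if t = r then (X ^ 2 : ℝ[X]) else X ^ 2 * (X ^ 2 - 1)) =
        if t = r then (n + 2 : ℝ) else (n + 2 : ℝ) * (n + 1) := by
      split_ifs
      · rw [eval_pow, eval_X, hsq]
      · rw [eval_mul, eval_sub, eval_pow, eval_X, eval_one, hsq]; ring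
    rw [eval_mul, eval_mul, eval_mul, eval_comp, eval_pow, eval_pow, eval_pow, eval_X, h7, hsq,
      h6]
    set y : ℝ := cδ (n + 1) with hy
    set F : ℝ := cS (Fin (n + 2)) K (cWP (Fin (n + 2)) (fun x => x + 1)
      (bodyW G L (S0 r t j₀) K R) fun _ => 1) fun _ => 0 with hF
    set z : ℝ := (if t = r then (n + 2 : ℝ) else (n + 2 : ℝ) * (n + 1)) with hz
    -- h2 : y ^ K' * F = Q y * y ^ K,  h3 : (y^2)^b * F = (y^2)^a * N0
    have h8 : y ^ (K' + 2 * a) * (z * N0) = z * (y ^ K' * ((y ^ 2) ^ a * N0)) := by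
      rw [pow_add, pow_mul]; ring
    rw [h8, ← h3]
    have h9 : y ^ K' * ((y ^ 2) ^ b * F) = (y ^ 2) ^ b * (y ^ K' * F) := by ring
    rw [h9, h2, pow_add, pow_mul]
    ring
  have h6 := congrArg (fun P : ℝ[X] => P.eval δ) key
  simp only [eval_mul, eval_pow, eval_X, eval_comp, hδ2] at h6
  have h7 : 0 < eval δ (if t = r then (X ^ 2 : ℝ[X]) else X ^ 2 * (X ^ 2 - 1)) := by
    split_ifs
    · rw [eval_pow, eval_X]; positivity
    · rw [eval_mul, eval_sub, eval_pow, eval_X, eval_one, hδ2]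
      have : 0 < q - 1 := by linarith
      have : 0 < q := by linarith
      positivity
  have h8 : 0 < δ ^ (K' + 2 * a) * p.eval q := by
    rw [h6]; positivity
  exact (pos_iff_pos_of_mul_pos h8).1 (by positivity)

end Pool.Agent.Helper55.BLD
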