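import Mathlib
import Pool.Agent.Helper55.BLD.Base
import Pool.Agent.Helper55.BLD.LGOps

/-!
Elimination of hubs.
-/

set_option autoImplicit false

namespace Pool.Agent.Helper55.BLD

open Pool.Agent.Helper70.BLB Polynomial

/-- `C` is a set of hubs: every `v ∈ C` is not special and its neighbours `x v 0, …, x v 3` form a
closed walk of length four outside `C`; the graph without `C` and the special vertices is two-coloured
by `cl`, and opposite neighbours of a hub have the same colour. -/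
structure Hubs {V : Type} (G : SimpleGraph V) (r t : V) (C : Finset V) (cl : V → Bool)
    (x : V → Fin 4 → V) : Prop where
  ns : ∀ v ∈ C, v ≠ r ∧ v ≠ t
  nC : ∀ v ∈ C, ∀ i, x v i ∉ C
  nbr : ∀ v ∈ C, ∀ w, G.Adj v w ↔ ∃ i, w = x v i
  cyc : ∀ v ∈ C, ∀ i, G.Adj (x v i) (x v (i + 1))
  opp : ∀ v ∈ C, ∀ i, x v i ≠ r → x v i ≠ t → x v (i + 2) ≠ r → x v (i + 2) ≠ t →
    cl (x v i) = cl (x v (i + 2))
  cl2 : ∀ u w, u ∉ C → w ∉ C → u ≠ r → u ≠ t → w ≠ r → w ≠ t → G.Adj u w → cl u ≠ cl w

variable {V : Type} [DecidableEq V] {G : SimpleGraph V} {r t : V} {C : Finset V} {cl : V → Bool}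
  {x : V → Fin 4 → V}

theorem Hubs.iso (H : Hubs G r t C cl x) {v : V} (hv : v ∈ C) :
    Hubs (isoV G v) r t (C.erase v) cl x where
  ns w hw := H.ns w (Finset.mem_of_mem_erase hw)
  nC w hw i hi := H.nC w (Finset.mem_of_mem_erase hw) i (Finset.mem_of_mem_erase hi)
  nbr w hw z := by
    have hwC := Finset.mem_of_mem_erase hw
    have hwv := Finset.ne_of_mem_erase hw
    show (G.Adj w z ∧ w ≠ v ∧ z ≠ v) ↔ _
    rw [H.nbr w hwC z]
    constructor
    · exact fun h => h.1
    · intro h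
      refine ⟨h, hwv, ?_⟩
      obtain ⟨i, rfl⟩ := h
      intro hh
      exact H.nC w hwC i (hh ▸ hv)
  cyc w hw i := by
    have hwC := Finset.mem_of_mem_erase hw
    refine ⟨H.cyc w hwC i, ?_, ?_⟩
    · intro hh; exact H.nC w hwC i (hh ▸ hv)
    · intro hh; exact H.nC w hwC (i + 1) (hh ▸ hv)
  opp w hw := H.opp w (Finset.mem_of_mem_erase hw)
  cl2 u w hu hw h1 h2 h3 h4 h5 := by
    have hu' : u ∉ C := fun hh => hu (Finset.mem_erase.2 ⟨h5.2.1, hh⟩)
    have hw' : w ∉ C := fun hh => hw (Finset.mem_erase.2 ⟨h5.2.2, hh⟩)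
    exact H.cl2 u w hu' hw' h1 h2 h3 h4 h5.1

/-- Merging `c` into `a`, both outside `C`. -/
theorem Hubs.merge (H : Hubs G r t C cl x) {a c : V} (haC : a ∉ C) (hcC : c ∉ C) (hac : a ≠ c)
    (hnadj : ¬ G.Adj a c) (hcr : c ≠ r) (hct : c ≠ t)
    (hcl : a ≠ r → a ≠ t → cl a = cl c) :
    Hubs (mergeV G a c) r t C cl (fun v i => if x v i = c then a else x v i) where
  ns := H.ns
  nC v hv i := by
    split_ifs
    · exact haC
    · exact H.nC v hv i
  nbr v hv w := by
    have hvc : v ≠ c := fun hh => hcC (hh ▸ hv)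
    have hva : v ≠ a := fun hh => haC (hh ▸ hv)
    show (v ≠ w ∧ v ≠ c ∧ w ≠ c ∧ (G.Adj v w ∨ (v = a ∧ G.Adj c w) ∨ (w = a ∧ G.Adj v c))) ↔ _
    constructor
    · rintro ⟨_, _, h3, h4 | ⟨h4, _⟩ | ⟨h4, h5⟩⟩
      · obtain ⟨i, hi⟩ := (H.nbr v hv w).1 h4
        exact ⟨i, by rw [if_neg (by rw [← hi]; exact h3)]; exact hi⟩
      · exact absurd h4 hva
      · obtain ⟨i, hi⟩ := (H.nbr v hv c).1 h5
        exact ⟨i, by rw [if_pos hi.symm]; exact h4⟩
    · rintro ⟨i, hi⟩
      by_cases h : x v i = c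
      · rw [if_pos h] at hi
        subst hi
        exact ⟨hva, hvc, hac, Or.inr (Or.inr ⟨rfl, (H.nbr v hv c).2 ⟨i, h.symm⟩⟩)⟩
      · rw [if_neg h] at hi
        have h5 := (H.nbr v hv w).2 ⟨i, hi⟩
        exact ⟨h5.ne, hvc, by rw [hi]; exact h, Or.inl h5⟩
  cyc v hv i := by
    have hadj := H.cyc v hv i
    set y := x v i with hy
    set z := x v (i + 1) with hz
    show (if y = c then a else y) ≠ (if z = c then a else z) ∧ (if y = c then a else y) ≠ c ∧
      (if z = c then a else z) ≠ c ∧ (G.Adj (if y = c then a else y) (if z = c then a else z) ∨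
        ((if y = c then a else y) = a ∧ G.Adj c (if z = c then a else z)) ∨
        ((if z = c then a else z) = a ∧ G.Adj (if y = c then a else y) c))
    by_cases h1 : y = c
    · have h2 : z ≠ c := fun hh => hadj.ne (by rw [h1, hh])
      have h3 : z ≠ a := fun hh => hnadj (by rw [← h1, ← hh]; exact hadj.symm)
      rw [if_pos h1, if_neg h2]
      exact ⟨h3.symm, hac, h2, Or.inr (Or.inl ⟨rfl, by rw [← h1]; exact hadj⟩)⟩
    · by_cases h2 : z = c
      · have h3 : y ≠ a := fun hh => hnadj (by rw [← h2, ← hh]; exact hadj)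
        rw [if_neg h1, if_pos h2]
        exact ⟨h3, h1, hac, Or.inr (Or.inr ⟨rfl, by rw [← h2]; exact hadj⟩)⟩
      · rw [if_neg h1, if_neg h2]
        exact ⟨hadj.ne, h1, h2, Or.inl hadj⟩
  opp v hv i h1 h2 h3 h4 := by
    have key : ∀ j, (if x v j = c then a else x v j) ≠ r → (if x v j = c then a else x v j) ≠ t →
        x v j ≠ r ∧ x v j ≠ t ∧ cl (if x v j = c then a else x v j) = cl (x v j) := by
      intro j h5 h6
      by_cases h : x v j = c
      · rw [if_pos h] at h5 h6 ⊢
        rw [h]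
        exact ⟨hcr, hct, hcl h5 h6⟩
      · rw [if_neg h] at h5 h6 ⊢
        exact ⟨h5, h6, rfl⟩
    obtain ⟨a1, a2, a3⟩ := key i h1 h2
    obtain ⟨b1, b2, b3⟩ := key (i + 2) h3 h4
    show cl (if x v i = c then a else x v i) = cl (if x v (i + 2) = c then a else x v (i + 2))
    rw [a3, b3]
    exact H.opp v hv i a1 a2 b1 b2
  cl2 u w hu hw h1 h2 h3 h4 h5 := by
    obtain ⟨_, _, _, h6 | ⟨h6, h7⟩ | ⟨h6, h7⟩⟩ := h5
    · exact H.cl2 u w hu hw h1 h2 h3 h4 h6
    · subst h6
      rw [hcl h1 h2]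
      exact H.cl2 c w hcC hw hcr hct h3 h4 h7
    · subst h6
      rw [hcl h3 h4]
      exact H.cl2 u c hu hcC h1 h2 hcr hct h7

/-- A hub can be described such that mergers have a non-special second vertex. -/
theorem Hubs.orient (H : Hubs G r t C cl x) (hrt : t ≠ r → G.Adj r t) {v : V} (hv : v ∈ C) :
    ∃ a b c d : V, (∀ w, G.Adj v w ↔ (w = a ∨ w = b ∨ w = c ∨ w = d)) ∧
      G.Adj a b ∧ G.Adj b c ∧ G.Adj c d ∧ G.Adj d a ∧
      (a = c ∨ G.Adj a c ∨ (c ≠ r ∧ c ≠ t ∧ (a ≠ r → a ≠ t → cl a = cl c))) ∧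
      (b = d ∨ G.Adj b d ∨ (d ≠ r ∧ d ≠ t ∧ (b ≠ r → b ≠ t → cl b = cl d))) ∧
      a ∉ C ∧ b ∉ C ∧ c ∉ C ∧ d ∉ C := by
  have hN : ∀ w, G.Adj v w ↔ (w = x v 0 ∨ w = x v 1 ∨ w = x v 2 ∨ w = x v 3) := by
    intro w
    rw [H.nbr v hv w]
    constructor
    · rintro ⟨i, hi⟩
      fin_cases i
      · exact Or.inl hi
      · exact Or.inr (Or.inl hi)
      · exact Or.inr (Or.inr (Or.inl hi))
      · exact Or.inr (Or.inr (Or.inr hi))
    · rintro (h | h | h | h)
      · exact ⟨0, h⟩
      · exact ⟨1, h⟩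
      · exact ⟨2, h⟩
      · exact ⟨3, h⟩
  have c01 : G.Adj (x v 0) (x v 1) := H.cyc v hv 0
  have c12 : G.Adj (x v 1) (x v 2) := H.cyc v hv 1
  have c23 : G.Adj (x v 2) (x v 3) := H.cyc v hv 2
  have c30 : G.Adj (x v 3) (x v 0) := H.cyc v hv 3
  have n0 := H.nC v hv 0
  have n1 := H.nC v hv 1
  have n2 := H.nC v hv 2
  have n3 := H.nC v hv 3
  have o02 : x v 0 ≠ r → x v 0 ≠ t → x v 2 ≠ r → x v 2 ≠ t → cl (x v 0) = cl (x v 2) :=
    H.opp v hv 0
  have o13 : x v 1 ≠ r → x v 1 ≠ t → x v 3 ≠ r → x v 3 ≠ t → cl (x v 1) = cl (x v 3) :=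
    H.opp v hv 1
  -- general statement about a pair
  have pair : ∀ a c : V, (a ≠ r → a ≠ t → c ≠ r → c ≠ t → cl a = cl c) →
      (a = c ∨ G.Adj a c ∨ (c ≠ r ∧ c ≠ t ∧ (a ≠ r → a ≠ t → cl a = cl c))) ∨
      (c = a ∨ G.Adj c a ∨ (a ≠ r ∧ a ≠ t ∧ (c ≠ r → c ≠ t → cl c = cl a))) := by
    intro a c hac
    by_cases h1 : c = r ∨ c = t
    · by_cases h2 : a = r ∨ a = t
      · left
        by_cases h3 : a = c
        · exact Or.inl h3
        · right; left
          rcases h1 with h1 | h1 <;> rcases h2 with h2 | h2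
          · exact absurd (h2.trans h1.symm) h3
          · rw [h1, h2]
            exact (hrt (fun hh => h3 (by rw [h1, h2, hh]))).symm
          · rw [h1, h2]
            exact hrt (fun hh => h3 (by rw [h1, h2, hh]))
          · exact absurd (h2.trans h1.symm) h3
      · right; right; right
        push Not at h2
        refine ⟨h2.1, h2.2, fun h3 h4 => ?_⟩
        rcases h1 with h1 | h1
        · exact absurd h1 h3
        · exact absurd h1 h4
    · left; right; right
      push Not at h1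
      exact ⟨h1.1, h1.2, fun h2 h3 => hac h2 h3 h1.1 h1.2⟩
  rcases pair _ _ o02 with p | p <;> rcases pair _ _ o13 with q | q
  · exact ⟨x v 0, x v 1, x v 2, x v 3, hN, c01, c12, c23, c30, p, q, n0, n1, n2, n3⟩
  · refine ⟨x v 0, x v 3, x v 2, x v 1, fun w => ?_, c30.symm, c23.symm, c12.symm, c01.symm, p, q,
      n0, n3, n2, n1⟩
    rw [hN w]
    constructor
    · rintro (h | h | h | h)
      exacts [Or.inl h, Or.inr (Or.inr (Or.inr h)), Or.inr (Or.inr (Or.inl h)), Or.inr (Or.inl h)]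
    · rintro (h | h | h | h)
      exacts [Or.inl h, Or.inr (Or.inr (Or.inr h)), Or.inr (Or.inr (Or.inl h)), Or.inr (Or.inl h)]
  · refine ⟨x v 2, x v 1, x v 0, x v 3, fun w => ?_, c12.symm, c01.symm, c30.symm, c23.symm, p, q,
      n2, n1, n0, n3⟩
    rw [hN w]
    constructor
    · rintro (h | h | h | h)
      exacts [Or.inr (Or.inr (Or.inl h)), Or.inr (Or.inl h), Or.inl h, Or.inr (Or.inr (Or.inr h))]
    · rintro (h | h | h | h)
      exacts [Or.inr (Or.inr (Or.inl h)), Or.inr (Or.inl h), Or.inl h, Or.inr (Or.inr (Or.inr h))]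
  · refine ⟨x v 2, x v 3, x v 0, x v 1, fun w => ?_, c23, c30, c01, c12, p, q, n2, n3, n0, n1⟩
    rw [hN w]
    constructor
    · rintro (h | h | h | h)
      exacts [Or.inr (Or.inr (Or.inl h)), Or.inr (Or.inr (Or.inr h)), Or.inl h, Or.inr (Or.inl h)]
    · rintro (h | h | h | h)
      exacts [Or.inr (Or.inr (Or.inl h)), Or.inr (Or.inr (Or.inr h)), Or.inl h, Or.inr (Or.inl h)]

/-- Positivity with hubs, special vertices equal or adjacent. -/
theorem hub_pos [Fintype V] {q : ℝ} (hq : 4 < q) {r t : V} (cl : V → Bool) :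
    ∀ (n : ℕ) (C : Finset V), C.card = n → ∀ (G : SimpleGraph V) (x : V → Fin 4 → V)
      (K R : ℕ) (L : ℕ → ℕ → Option V) (j₀ : ℕ), LG G r K R L → Contact r t K R L j₀ →
      (t ≠ r → G.Adj r t) → Hubs G r t C cl x →
      ∀ p : ℝ[X], (∀ N : ℕ, p.eval (N : ℝ) = nc G N) → 0 < p.eval q := by
  intro n
  induction n with
  | zero =>
    intro C hC G x K R L j₀ M hct hrt H p hp
    rw [Finset.card_eq_zero] at hC
    subst hC
    exact base_pos M hct hrt (fun u v h1 h2 h3 h4 h5 =>
      H.cl2 u v (Finset.notMem_empty _) (Finset.notMem_empty _) h1 h2 h3 h4 h5) p hp hq.le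
  | succ n IH =>
    intro C hC G x K R L j₀ M hct hrt H p hp
    obtain ⟨v, hv⟩ : C.Nonempty := by
      rw [← Finset.card_pos]; omega
    have hcard : (C.erase v).card = n := by
      rw [Finset.card_erase_of_mem hv, hC]; omega
    obtain ⟨a, b, c, d, hN, hab, hbc, hcd, hda, hp1, hp2, haC, hbC, hcC, hdC⟩ := H.orient hrt hv
    obtain ⟨hvr, hvt⟩ := H.ns v hv
    have H1 := H.iso hv
    obtain ⟨L1, M1, hct1⟩ := M.iso hct hvr hvt
    have hrt1 : t ≠ r → (isoV G v).Adj r t := fun h => ⟨hrt h, hvr.symm, hvt.symm⟩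
    obtain ⟨p1, hpp1⟩ := exists_chrom (isoV G v)
    have q1 := IH (C.erase v) hcard (isoV G v) x K R L1 j₀ M1 hct1 hrt1 H1 p1 hpp1
    -- one pair
    have pair : ∀ a c : V, G.Adj v a → G.Adj v c → a ∉ C → c ∉ C →
        (a = c ∨ G.Adj a c ∨ (c ≠ r ∧ c ≠ t ∧ (a ≠ r → a ≠ t → cl a = cl c))) →
        ∃ p2 : ℝ[X], (∀ N : ℕ, p2.eval (N : ℝ) = (open Classical in
          if a = c then (N : ℝ) * nc (isoV G v) N else
            if G.Adj a c then 0 else nc (mergeV (isoV G v) a c) N)) ∧ 0 ≤ p2.eval q := by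
      intro a c hva hvc haC hcC hcase
      classical
      by_cases h1 : a = c
      · refine ⟨X * p1, fun N => ?_, ?_⟩
        · rw [if_pos h1, eval_mul, eval_X, hpp1]
        · rw [eval_mul, eval_X]
          have : 0 < q := by linarith
          positivity
      · by_cases h2 : G.Adj a c
        · refine ⟨0, fun N => ?_, ?_⟩
          · rw [if_neg h1, if_pos h2, eval_zero]
          · rw [eval_zero]
        · rcases hcase with h3 | h3 | ⟨h3, h4, h5⟩
          · exact absurd h3 h1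
          · exact absurd h3 h2
          · obtain ⟨p2, hpp2⟩ := exists_chrom (mergeV (isoV G v) a c)
            refine ⟨p2, fun N => ?_, ?_⟩
            · rw [if_neg h1, if_neg h2]
              exact hpp2 N
            · obtain ⟨L2, M2, hct2⟩ := M.merge hct hvr hvt h3 h4 h1 hva hvc
              have haC' : a ∉ C.erase v := fun hh => haC (Finset.mem_of_mem_erase hh)
              have hcC' : c ∉ C.erase v := fun hh => hcC (Finset.mem_of_mem_erase hh)
              have H2 := H1.merge haC' hcC' h1 (fun hh => h2 hh.1) h3 h4 h5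
              have hrt2 : t ≠ r → (mergeV (isoV G v) a c).Adj r t := fun h =>
                ⟨h.symm, h3.symm, h4.symm, Or.inl (hrt1 h)⟩
              exact (IH (C.erase v) hcard _ _ K R L2 j₀ M2 hct2 hrt2 H2 p2 hpp2).le
    obtain ⟨p2, hpp2, q2⟩ := pair a c ((hN a).2 (Or.inl rfl))
      ((hN c).2 (Or.inr (Or.inr (Or.inl rfl)))) haC hcC hp1
    obtain ⟨p3, hpp3, q3⟩ := pair b d ((hN b).2 (Or.inr (Or.inl rfl)))
      ((hN d).2 (Or.inr (Or.inr (Or.inr rfl)))) hbC hdC hp2
    have key : X ^ 2 * p = X * (X - Polynomial.C 4) * p1 + p2 + p3 := by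
      apply Polynomial.eq_of_infinite_eval_eq
      apply Set.Infinite.mono (s := Set.range (fun n : ℕ => (n : ℝ)))
      · rintro _ ⟨N, rfl⟩
        show eval (N : ℝ) _ = eval (N : ℝ) _
        have h := nc_hub hN hab hbc hcd hda N
        rw [eval_mul, eval_pow, eval_X, hp N, eval_add, eval_add, eval_mul, eval_mul, eval_sub,
          eval_X, eval_C, hpp1, hpp2, hpp3]
        convert h
      · exact Set.infinite_range_of_injective Nat.cast_injective
    have h6 := congrArg (fun P : ℝ[X] => P.eval q) key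
    simp only [eval_mul, eval_pow, eval_X, eval_add, eval_sub, eval_C] at h6
    have hq0 : 0 < q := by linarith
    have hq4 : 0 < q - 4 := by linarith
    have h7 : 0 < q * (q - 4) * p1.eval q := by positivity
    have h8 : 0 < q ^ 2 * p.eval q := by rw [h6]; linarith
    exact (pos_iff_pos_of_mul_pos h8).1 (by positivity)

/-- Positivity with hubs, two special vertices joined by an edge of a larger planar graph. -/
theorem hub_pos' [Fintype V] {q : ℝ} (hq : 4 < q) {s t : V} {cl : V → Bool} {C : Finset V}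
    {x : V → Fin 4 → V} {G : SimpleGraph V} {K R : ℕ} {L : ℕ → ℕ → Option V} {j₀ : ℕ}
    (M : LG (G ⊔ SimpleGraph.edge s t) s K R L) (hct : Contact s t K R L j₀)
    (H : Hubs G s t C cl x) (p : ℝ[X]) (hp : ∀ N : ℕ, p.eval (N : ℝ) = nc G N) :
    0 < p.eval q := by
  have hM : ∀ G' : SimpleGraph V, G' ≤ G ⊔ SimpleGraph.edge s t → LG G' s K R L := fun G' hG' =>
    ⟨M.col, M.row, M.conn, fun u v huv => M.edge u v (hG' huv)⟩
  by_cases h1 : t ≠ s → G.Adj s t
  · exact hub_pos hq cl _ C rfl G x K R L j₀ (hM G le_sup_left) hct h1 H p hp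
  · push Not at h1
    obtain ⟨hts, hnadj⟩ := h1
    -- the graph with the edge
    have Hp : Hubs (G ⊔ SimpleGraph.edge s t) s t C cl x := by
      have hedge : ∀ u w, (SimpleGraph.edge s t).Adj u w → (u = s ∧ w = t) ∨ (u = t ∧ w = s) := by
        intro u w h
        rw [SimpleGraph.edge_adj] at h
        tauto
      refine ⟨H.ns, H.nC, fun v hv w => ?_, fun v hv i => Or.inl (H.cyc v hv i), H.opp,
        fun u w hu hw a1 a2 a3 a4 a5 => ?_⟩
      · rw [← H.nbr v hv w]
        constructor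
        · rintro (h | h)
          · exact h
          · exfalso
            rcases hedge _ _ h with h | h
            · exact (H.ns v hv).1 h.1
            · exact (H.ns v hv).2 h.1
        · exact fun h => Or.inl h
      · rcases a5 with h | h
        · exact H.cl2 u w hu hw a1 a2 a3 a4 h
        · exfalso
          rcases hedge _ _ h with h | h
          · exact a1 h.1
          · exact a2 h.1
    obtain ⟨p1, hp1⟩ := exists_chrom (G ⊔ SimpleGraph.edge s t)
    have q1 := hub_pos hq cl _ C rfl _ x K R L j₀ M hct (fun _ => Or.inr (by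
      rw [SimpleGraph.edge_adj]
      exact ⟨Or.inl ⟨rfl, rfl⟩, hts.symm⟩)) Hp p1 hp1
    -- the merged graph
    obtain ⟨p2, hp2⟩ := exists_chrom (mergeV G s t)
    have htC : t ∉ C := fun hh => (H.ns t hh).2 rfl
    have hsC : s ∉ C := fun hh => (H.ns s hh).1 rfl
    have Hm : Hubs (mergeV G s t) s s C cl (fun v i => if x v i = t then s else x v i) := by
      have H0 : Hubs G s t C cl x := H
      refine ⟨fun v hv => ⟨(H.ns v hv).1, (H.ns v hv).1⟩, fun v hv i => ?_, fun v hv w => ?_,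
        fun v hv i => ?_, fun v hv i b1 _ b3 _ => ?_, fun u w hu hw b1 _ b3 _ b5 => ?_⟩
      · show (if x v i = t then s else x v i) ∉ C
        split_ifs
        · exact hsC
        · exact H.nC v hv i
      · have hvt : v ≠ t := (H.ns v hv).2
        have hvs : v ≠ s := (H.ns v hv).1
        show (v ≠ w ∧ v ≠ t ∧ w ≠ t ∧ (G.Adj v w ∨ (v = s ∧ G.Adj t w) ∨
          (w = s ∧ G.Adj v t))) ↔ _
        constructor
        · rintro ⟨_, _, h3, h4 | ⟨h4, _⟩ | ⟨h4, h5⟩⟩
          · obtain ⟨i, hi⟩ := (H.nbr v hv w).1 h4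
            exact ⟨i, by rw [if_neg (by rw [← hi]; exact h3)]; exact hi⟩
          · exact absurd h4 hvs
          · obtain ⟨i, hi⟩ := (H.nbr v hv t).1 h5
            exact ⟨i, by rw [if_pos hi.symm]; exact h4⟩
        · rintro ⟨i, hi⟩
          by_cases h : x v i = t
          · rw [if_pos h] at hi
            subst hi
            exact ⟨hvs, hvt, hts.symm, Or.inr (Or.inr ⟨rfl, (H.nbr v hv t).2 ⟨i, h.symm⟩⟩)⟩
          · rw [if_neg h] at hi
            have h5 := (H.nbr v hv w).2 ⟨i, hi⟩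
            exact ⟨h5.ne, hvt, by rw [hi]; exact h, Or.inl h5⟩
      · have hadj := H.cyc v hv i
        show (mergeV G s t).Adj (if x v i = t then s else x v i)
          (if x v (i + 1) = t then s else x v (i + 1))
        by_cases h1 : x v i = t
        · have h2 : x v (i + 1) ≠ t := fun hh => hadj.ne (by rw [h1, hh])
          have h3 : x v (i + 1) ≠ s := fun hh => hnadj (by rw [← h1, ← hh]; exact hadj.symm)
          rw [if_pos h1, if_neg h2]
          exact ⟨h3.symm, hts.symm, h2, Or.inr (Or.inl ⟨rfl, by rw [← h1]; exact hadj⟩)⟩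
        · by_cases h2 : x v (i + 1) = t
          · have h3 : x v i ≠ s := fun hh => hnadj (by rw [← h2, ← hh]; exact hadj)
            rw [if_neg h1, if_pos h2]
            exact ⟨h3, h1, hts.symm, Or.inr (Or.inr ⟨rfl, by rw [← h2]; exact hadj⟩)⟩
          · rw [if_neg h1, if_neg h2]
            exact ⟨hadj.ne, h1, h2, Or.inl hadj⟩
      · have key : ∀ j, (if x v j = t then s else x v j) ≠ s →
            x v j ≠ s ∧ x v j ≠ t ∧ (if x v j = t then s else x v j) = x v j := by
          intro j h5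
          by_cases h : x v j = t
          · rw [if_pos h] at h5
            exact absurd rfl h5
          · rw [if_neg h] at h5 ⊢
            exact ⟨h5, h, rfl⟩
        obtain ⟨c1, c2, c3⟩ := key i b1
        obtain ⟨d1, d2, d3⟩ := key (i + 2) b3
        show cl (if x v i = t then s else x v i) =
          cl (if x v (i + 2) = t then s else x v (i + 2))
        rw [c3, d3]
        exact H.opp v hv i c1 c2 d1 d2
      · obtain ⟨_, c2, c3, c4 | ⟨c4, _⟩ | ⟨c4, _⟩⟩ := b5
        · exact H.cl2 u w hu hw b1 c2 b3 c3 c4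
        · exact absurd c4 b1
        · exact absurd c4 b3
    obtain ⟨L2, M2, hct2⟩ := (hM G le_sup_left).mergeST hct hts.symm
    have q2 := hub_pos hq cl _ C rfl _ _ K R L2 j₀ M2 hct2 (fun h => absurd rfl h) Hm p2 hp2
    have key : X * p = X * p1 + p2 := by
      apply Polynomial.eq_of_infinite_eval_eq
      apply Set.Infinite.mono (s := Set.range (fun n : ℕ => (n : ℝ)))
      · rintro _ ⟨N, rfl⟩
        show eval (N : ℝ) _ = eval (N : ℝ) _
        have h := nc_add hts.symm hnadj N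
        rw [eval_mul, eval_X, hp N, eval_add, eval_mul, eval_X, hp1, hp2]
        exact h
      · exact Set.infinite_range_of_injective Nat.cast_injective
    have h6 := congrArg (fun P : ℝ[X] => P.eval q) key
    simp only [eval_mul, eval_X, eval_add] at h6
    have hq0 : 0 < q := by linarith
    have h8 : 0 < q * p.eval q := by rw [h6]; positivity
    exact (pos_iff_pos_of_mul_pos h8).1 hq0

end Pool.Agent.Helper55.BLD
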