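import Mathlib
import Pool.Agent.Helper55.BLD.Hub
import Pool.Agent.Helper55.BLD.ToLG
import Pool.Agent.Helper70.BLB.DiscOfPlane
import Pool.Agent.Helper70.BLB.PlaneOfDrawing

/-!
Positivity of the chromatic polynomial for subgraphs of drawn graphs with a connected set of at most
two special vertices and a set of hubs.
-/

set_option autoImplicit false

namespace Pool.Agent.Helper55.BLD

open Pool.Agent.Helper70.BLB Polynomial

/-- Two special vertices `s` and `t`, equal or adjacent in the drawn graph. -/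
theorem two_special {V : Type} [Fintype V] {G H : SimpleGraph V} {f : V → ℝ × ℝ}
    {γ : V → V → ℝ → ℝ × ℝ} (D : Drawing H f γ) (hGH : G ≤ H) (s t : V)
    (hst : s ≠ t → H.Adj s t) (C : Set V) (κ : V → Bool)
    (hκ : ∀ u v : V, G.Adj u v → u ≠ s → u ≠ t → v ≠ s → v ≠ t → u ∉ C → v ∉ C → κ u ≠ κ v)
    (hC : ∀ v ∈ C, v ≠ s ∧ v ≠ t ∧ ∃ a b c d : V,
      (∀ w : V, G.Adj v w ↔ w = a ∨ w = b ∨ w = c ∨ w = d) ∧
      G.Adj a b ∧ G.Adj b c ∧ G.Adj c d ∧ G.Adj d a ∧
      (a ∉ C ∧ b ∉ C ∧ c ∉ C ∧ d ∉ C) ∧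
      (a ≠ s → a ≠ t → c ≠ s → c ≠ t → κ a = κ c) ∧
      (b ≠ s → b ≠ t → d ≠ s → d ≠ t → κ b = κ d))
    {q : ℝ} (hq : 4 < q) (p : ℝ[X])
    (hp : ∀ n : ℕ, p.eval (n : ℝ) = (Nat.card (G.Coloring (Fin n)) : ℝ)) : 0 < p.eval q := by
  classical
  obtain ⟨O, K, M, PM⟩ := D.planeModel s
  obtain ⟨k, T, L, hk, hT, GM⟩ := gridModel_of_planeModel PM
  have hle : G ⊔ SimpleGraph.edge s t ≤ H := by
    apply sup_le hGH
    intro u v huv
    rw [SimpleGraph.edge_adj] at huv
    obtain ⟨h1, h2⟩ := huv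
    rcases h1 with ⟨rfl, rfl⟩ | ⟨rfl, rfl⟩
    · exact hst h2
    · exact (hst h2.symm).symm
  obtain ⟨K', R, L', j₀, M', hct⟩ := exists_LG hle hst hk hT GM
  -- the neighbours of the hubs
  have hx : ∀ v : V, ∃ y : Fin 4 → V, v ∈ C →
      (∀ w : V, G.Adj v w ↔ ∃ i, w = y i) ∧ (∀ i, G.Adj (y i) (y (i + 1))) ∧
      (∀ i, y i ∉ C) ∧ (∀ i, y i ≠ s → y i ≠ t → y (i + 2) ≠ s → y (i + 2) ≠ t →
        κ (y i) = κ (y (i + 2))) := by
    intro v
    by_cases hv : v ∈ C
    · obtain ⟨_, _, a, b, c, d, h1, h2, h3, h4, h5, ⟨h6, h7, h8, h9⟩, h10, h11⟩ := hC v hv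
      refine ⟨![a, b, c, d], fun _ => ⟨fun w => ?_, fun i => ?_, fun i => ?_, fun i => ?_⟩⟩
      · rw [h1 w]
        constructor
        · rintro (h | h | h | h)
          · exact ⟨0, h⟩
          · exact ⟨1, h⟩
          · exact ⟨2, h⟩
          · exact ⟨3, h⟩
        · rintro ⟨i, hi⟩
          fin_cases i
          · exact Or.inl hi
          · exact Or.inr (Or.inl hi)
          · exact Or.inr (Or.inr (Or.inl hi))
          · exact Or.inr (Or.inr (Or.inr hi))
      · fin_cases i
        · exact h2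
        · exact h3
        · exact h4
        · exact h5
      · fin_cases i
        · exact h6
        · exact h7
        · exact h8
        · exact h9
      · fin_cases i
        · exact h10
        · exact h11
        · exact fun e1 e2 e3 e4 => (h10 e3 e4 e1 e2).symm
        · exact fun e1 e2 e3 e4 => (h11 e3 e4 e1 e2).symm
    · exact ⟨fun _ => v, fun h => absurd h hv⟩
  choose x hx using hx
  refine hub_pos' (cl := κ) (C := C.toFinset) (x := x) hq M' hct ⟨fun v hv => ?_, fun v hv i => ?_,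
    fun v hv w => ?_, fun v hv i => ?_, fun v hv i => ?_, fun u w hu hw h1 h2 h3 h4 h5 => ?_⟩ p hp
  · rw [Set.mem_toFinset] at hv
    exact ⟨(hC v hv).1, (hC v hv).2.1⟩
  · rw [Set.mem_toFinset] at hv ⊢
    exact (hx v hv).2.2.1 i
  · rw [Set.mem_toFinset] at hv
    exact (hx v hv).1 w
  · rw [Set.mem_toFinset] at hv
    exact (hx v hv).2.1 i
  · rw [Set.mem_toFinset] at hv
    exact (hx v hv).2.2.2 i
  · rw [Set.mem_toFinset] at hu hw
    exact hκ u w h5 h1 h2 h3 h4 hu hw

/-- A connected set `T` of at most two special vertices. -/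
theorem hubs_pos {V : Type} [Fintype V] {G H : SimpleGraph V} {f : V → ℝ × ℝ}
    {γ : V → V → ℝ → ℝ × ℝ} (D : Drawing H f γ) (hGH : G ≤ H) (T : Finset V)
    (hT : (H.induce (T : Set V)).Preconnected) (hcard : T.card ≤ 2) (C : Set V) (κ : V → Bool)
    (hκ : ∀ u v : V, G.Adj u v → u ∉ T → v ∉ T → u ∉ C → v ∉ C → κ u ≠ κ v)
    (hC : ∀ v ∈ C, v ∉ T ∧ ∃ a b c d : V,
      (∀ w : V, G.Adj v w ↔ w = a ∨ w = b ∨ w = c ∨ w = d) ∧
      G.Adj a b ∧ G.Adj b c ∧ G.Adj c d ∧ G.Adj d a ∧
      (a ∉ C ∧ b ∉ C ∧ c ∉ C ∧ d ∉ C) ∧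
      (a ∉ T → c ∉ T → κ a = κ c) ∧ (b ∉ T → d ∉ T → κ b = κ d))
    {q : ℝ} (hq : 4 < q) (p : ℝ[X])
    (hp : ∀ n : ℕ, p.eval (n : ℝ) = (Nat.card (G.Coloring (Fin n)) : ℝ)) : 0 < p.eval q := by
  classical
  -- it suffices to find the special vertices
  have main : ∀ s t : V, s ∉ C → t ∉ C → (s ≠ t → H.Adj s t) →
      (∀ v, v ∈ T → v = s ∨ v = t) → 0 < p.eval q := by
    intro s t hsC htC hst hTs
    have hn : ∀ v, v ≠ s → v ≠ t → v ∉ T := fun v h1 h2 h3 => by
      rcases hTs v h3 with h | h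
      exacts [h1 h, h2 h]
    refine two_special D hGH s t hst C κ
      (fun u v h h1 h2 h3 h4 h5 h6 => hκ u v h (hn u h1 h2) (hn v h3 h4) h5 h6) ?_ hq p hp
    intro v hv
    obtain ⟨h1, a, b, c, d, h2, h3, h4, h5, h6, h7, h8, h9⟩ := hC v hv
    exact ⟨fun h => hsC (h ▸ hv), fun h => htC (h ▸ hv), a, b, c, d, h2, h3, h4, h5, h6, h7,
      fun e1 e2 e3 e4 => h8 (hn a e1 e2) (hn c e3 e4),
      fun e1 e2 e3 e4 => h9 (hn b e1 e2) (hn d e3 e4)⟩
  rcases T.eq_empty_or_nonempty with h0 | ⟨s, hs⟩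
  · -- no special vertex
    by_cases hV : ∃ s : V, s ∉ C
    · obtain ⟨s, hs⟩ := hV
      refine main s s hs hs (fun h => absurd rfl h) (fun v hv => ?_)
      rw [h0] at hv
      exact absurd hv (Finset.notMem_empty v)
    · push Not at hV
      -- then the graph is empty
      have hemp : IsEmpty V := by
        constructor
        intro v
        obtain ⟨_, a, b, c, d, _, _, _, _, _, ⟨h7, _⟩, _⟩ := hC v (hV v)
        exact h7 (hV a)
      have h1 : p = 1 := by
        apply Polynomial.eq_of_infinite_eval_eq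
        apply Set.Infinite.mono (s := Set.range (fun n : ℕ => (n : ℝ)))
        · rintro _ ⟨N, rfl⟩
          show eval (N : ℝ) p = eval (N : ℝ) 1
          rw [hp N, eval_one]
          have : Nat.card (G.Coloring (Fin N)) = 1 := by
            rw [Nat.card_eq_one_iff_unique]
            refine ⟨⟨fun a b => RelHom.ext fun v => (hemp.false v).elim⟩,
              ⟨SimpleGraph.Coloring.mk (fun v => (hemp.false v).elim)
                (fun {v} => (hemp.false v).elim)⟩⟩
          rw [this]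
          simp
        · exact Set.infinite_range_of_injective Nat.cast_injective
      rw [h1, eval_one]
      exact one_pos
  · have hsC : s ∉ C := fun h => (hC s h).1 hs
    by_cases h1 : ∃ t ∈ T, t ≠ s
    · obtain ⟨t, ht, hts⟩ := h1
      have htC : t ∉ C := fun h => (hC t h).1 ht
      have hTs : ∀ v, v ∈ T → v = s ∨ v = t := by
        intro v hv
        by_contra hcon
        push Not at hcon
        have h3 : ({s, t, v} : Finset V) ⊆ T := by
          intro z hz
          simp only [Finset.mem_insert, Finset.mem_singleton] at hz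
          rcases hz with rfl | rfl | rfl <;> assumption
        have h4 := Finset.card_le_card h3
        have h5 : ({s, t, v} : Finset V).card = 3 := by
          rw [Finset.card_eq_three]
          exact ⟨s, t, v, hts.symm, hcon.1.symm, hcon.2.symm, rfl⟩
        omega
      refine main s t hsC htC (fun _ => ?_) hTs
      -- a neighbour of `s` in `T`
      obtain ⟨w⟩ := hT ⟨s, hs⟩ ⟨t, ht⟩
      cases w with
      | nil => exact absurd rfl hts
      | @cons _ z _ h _ =>
        have hz : H.Adj s z.1 := h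
        rcases hTs z.1 z.2 with h6 | h6
        · exact absurd h6.symm hz.ne
        · rw [← h6]
          exact hz
    · push Not at h1
      exact main s s hsC hsC (fun h => absurd rfl h) (fun v hv => Or.inl (h1 v hv))

end Pool.Agent.Helper55.BLD
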